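import Pool.Agent.H97.BLD.DetG

/-!
# Project BLD: closure properties

* `Det.mono`, `Det.empty`: clear (for the empty set any kernel, e.g. `v = 0`).
* `Det.union`: `Det.glue` with `Z = Y`, `k'`, `F'` from `Det b θ Y'`: an element of `Y ∪ Y'` outside of `Z` is in `Y'`.
* `Det.cosets`: `Det.glue`: given `E`, `ε`: `Z` from the hypothesis for `E`; `k₀`, `F'` from `Det b θ L` for `E`, `ε`. For a coset
  `z : G ⧸ L` let `a z g = 1` if `g ∈ z` (`(g : G ⧸ L) = z`) and `0` otherwise, `k z g h = k₀ ((z.out)⁻¹ g) ((z.out)⁻¹ h)` (`Rz.comp`),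
  `k' = ∑ᶠ z, a z g * a z h * k z g h` (`Rz.sum`): it is `k₀ (r⁻¹ g) (r⁻¹ h)`, `r = (g : G ⧸ L).out`, if `g`, `h` are in the same coset
  and `0` otherwise. For `g, g e ∈ Y`, `g ∉ Z`: `e ∈ L` by the hypothesis, so `g e` is in the same coset, `r⁻¹ g ∈ L`. Far elements:
  different cosets give `0 ≤ θ`.
-/

set_option autoImplicit false

open Finset

namespace Pool.Agent.H97.BLD

open Pool.Agent.H66.NCL

universe u

variable {G : Type u} [Group G] {b : Prop} {θ : ℝ}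

theorem Det.mono {Y Y' : Set G} (hY : Y ⊆ Y') (h : Det b θ Y') : Det b θ Y := by
  intro E ε hε
  obtain ⟨k, F, h1, h2, h3, h4⟩ := h E ε hε
  exact ⟨k, F, h1, fun g hg => h2 g (hY hg), fun g hg e he hge => h3 g (hY hg) e he (hY hge),
    fun g hg x hx hgx => h4 g (hY hg) x hx (hY hgx)⟩

theorem Det.empty : Det b θ (∅ : Set G) := by
  intro E ε _
  refine ⟨fun _ _ => 0, ∅, ⟨PUnit, fun _ => 0, fun _ _ _ => le_rfl, fun _ _ => ?_⟩,
    fun g hg => absurd hg (Set.notMem_empty g), fun g hg => absurd hg (Set.notMem_empty g),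
    fun g hg => absurd hg (Set.notMem_empty g)⟩
  rw [ip_zero_left]

theorem Det.union (hθ : 0 ≤ θ) {Y Y' : Set G} (h : Det b θ Y) (h' : Det b θ Y') :
    Det b θ (Y ∪ Y') := by
  refine Det.glue hθ fun E ε hε => ?_
  obtain ⟨k, F, h1, h2, h3, h4⟩ := h' E ε hε
  have key : ∀ g ∈ Y ∪ Y', g ∉ Y → g ∈ Y' := fun g hg hn => hg.resolve_left hn
  exact ⟨Y, k, F, h, h1, fun g hg hn => h2 g (key g hg hn),
    fun g hg e he hge hn hn' => h3 g (key g hg hn) e he (key _ hge hn'),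
    fun g hg x hx hgx hn hn' => h4 g (key g hg hn) x hx (key _ hgx hn')⟩

/-- the kernel of the cosets -/
private theorem detC_ker (L : Subgroup G) {k₀ : G → G → ℝ} (hk : Rz b k₀) :
    ∃ k' : G → G → ℝ, Rz b k' ∧
      (∀ g h : G, (g : G ⧸ L) = (h : G ⧸ L) →
        k' g h = k₀ (((g : G ⧸ L).out)⁻¹ * g) (((g : G ⧸ L).out)⁻¹ * h)) ∧
      ∀ g h : G, (g : G ⧸ L) ≠ (h : G ⧸ L) → k' g h = 0 := by
  classical
  have hR := Rz.sum (b := b) (Z := G ⧸ L)
    (fun (z : G ⧸ L) (g : G) => if (g : G ⧸ L) = z then (1 : ℝ) else 0)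
    (fun (z : G ⧸ L) (g h : G) => k₀ ((z.out)⁻¹ * g) ((z.out)⁻¹ * h))
    (fun z g => by split_ifs <;> norm_num)
    (fun g => by
      refine (Set.finite_singleton (g : G ⧸ L)).subset fun z hz => ?_
      by_contra hne
      refine hz ?_
      show (if (g : G ⧸ L) = z then (1 : ℝ) else 0) = 0
      rw [if_neg fun h => hne (by rw [← h]; rfl)])
    (fun z => hk.comp fun g : G => (z.out)⁻¹ * g)
  refine ⟨_, hR, fun g h hgh => ?_, fun g h hgh => ?_⟩
  · show (∑ᶠ z : G ⧸ L, (if (g : G ⧸ L) = z then (1 : ℝ) else 0) *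
      (if (h : G ⧸ L) = z then (1 : ℝ) else 0) * k₀ ((z.out)⁻¹ * g) ((z.out)⁻¹ * h)) = _
    rw [finsum_eq_single _ (g : G ⧸ L)]
    · rw [if_pos rfl, if_pos hgh.symm, one_mul, one_mul]
    · intro z hz
      rw [if_neg (fun h => hz h.symm), zero_mul, zero_mul]
  · show (∑ᶠ z : G ⧸ L, (if (g : G ⧸ L) = z then (1 : ℝ) else 0) *
      (if (h : G ⧸ L) = z then (1 : ℝ) else 0) * k₀ ((z.out)⁻¹ * g) ((z.out)⁻¹ * h)) = _
    refine finsum_eq_zero_of_forall_eq_zero fun z => ?_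
    by_cases h1 : (g : G ⧸ L) = z
    · have h2 : (h : G ⧸ L) ≠ z := fun h2 => hgh (h1.trans h2.symm)
      rw [if_neg h2, mul_zero, zero_mul]
    · rw [if_neg h1, zero_mul, zero_mul]

private theorem detC_mem (L : Subgroup G) (g : G) : ((g : G ⧸ L).out)⁻¹ * g ∈ L := by
  rw [← QuotientGroup.eq]
  exact QuotientGroup.out_eq' (g : G ⧸ L)

theorem Det.cosets (hθ : 0 ≤ θ) (L : Subgroup G) (Y : Set G) (hL : Det b θ (L : Set G))
    (hY : ∀ y ∈ Y, ∀ l ∈ L, y * l ∈ Y)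
    (hE : ∀ E : Finset G, ∃ Z, Det b θ Z ∧ ∀ y ∈ Y, ∀ e ∈ E, e ∉ L → y * e ∈ Y → y ∈ Z) :
    Det b θ Y := by
  have _ := hY
  refine Det.glue hθ fun E ε hε => ?_
  obtain ⟨Z, hZ, hZE⟩ := hE E
  obtain ⟨k₀, F, h1, h2, h3, h4⟩ := hL E ε hε
  obtain ⟨k', hk, hk1, hk2⟩ := detC_ker L h1
  have hco : ∀ g x : G, x ∈ L → (g : G ⧸ L) = ((g * x : G) : G ⧸ L) := by
    intro g x hx
    rw [QuotientGroup.eq]
    simpa using hx
  have hco' : ∀ g x : G, x ∉ L → (g : G ⧸ L) ≠ ((g * x : G) : G ⧸ L) := by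
    intro g x hx h
    rw [QuotientGroup.eq] at h
    exact hx (by simpa using h)
  refine ⟨Z, k', F, hZ, hk, fun g hg hn => ?_, fun g hg e he hge hn _ => ?_,
    fun g hg x hx hgx hn _ => ?_⟩
  · rw [hk1 g g rfl]
    exact h2 _ (detC_mem L g)
  · have heL : e ∈ L := by
      by_contra hc
      exact hn (hZE g hg e he hc hge)
    rw [hk1 g (g * e) (hco g e heL), ← mul_assoc]
    exact h3 _ (detC_mem L g) e he (L.mul_mem (detC_mem L g) heL)
  · by_cases hxL : x ∈ L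
    · rw [hk1 g (g * x) (hco g x hxL), ← mul_assoc]
      exact h4 _ (detC_mem L g) x hx (L.mul_mem (detC_mem L g) hxL)
    · rw [hk2 g (g * x) (hco' g x hxL)]
      exact hθ

end Pool.Agent.H97.BLD
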