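import Pool.Agent.H97.BLD.RzL

/-!
# Project BLD: fibering

Given `E`, `ε` (`ε ≤ 1` without loss of generality), the hypothesis for `E`, `ε / 2` gives `Z`, `ξ`, `X`; `Det b θ X` for `E`, `ε / 2` gives
`k₀`, `F₀`. Choose `h z` for `z : Z`. Kernel `k g g' = ∑ᶠ z, √(ξ g z) √(ξ g' z) k₀ ((h z)⁻¹ g) ((h z)⁻¹ g')` (`Rz.sum`, `Rz.comp`), `F = F₀`.
* `g ∈ Y`: `∑ᶠ z, ξ g z * 1 = 1` (where `ξ g z ≠ 0`: `(h z)⁻¹ g ∈ X`).
* `g, g e ∈ Y`: each term with nonzero weight has `k₀ ≥ 1 - ε / 2`, and `∑ √(ξ g z) √(ξ (g e) z) ≥ ∑ min (ξ g z) (ξ (g e) z)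
  = 1 - n1 (ξ g - ξ (g e)) / 2`.
* `g⁻¹ g' ∉ F₀`: each term with nonzero weight has `k₀ ≤ θ`, and `∑ √(ξ g z) √(ξ g' z) ≤ 1` (`√a √b ≤ (a + b) / 2`), `θ ≥ 0`.
-/

set_option autoImplicit false

open Finset

namespace Pool.Agent.H97.BLD

open Pool.Agent.H66.NCL

universe u

variable {G : Type u} [Group G] {b : Prop} {θ : ℝ}

private theorem min_le_sqrt_mul {a c : ℝ} (ha : 0 ≤ a) (hc : 0 ≤ c) :
    min a c ≤ Real.sqrt a * Real.sqrt c := by
  rw [← Real.sqrt_mul ha]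
  apply Real.le_sqrt_of_sq_le
  rcases le_total a c with h | h
  · rw [min_eq_left h]
    nlinarith
  · rw [min_eq_right h]
    nlinarith

private theorem sqrt_mul_le {a c : ℝ} (ha : 0 ≤ a) (hc : 0 ≤ c) :
    Real.sqrt a * Real.sqrt c ≤ (a + c) / 2 := by
  have h1 := Real.sq_sqrt ha
  have h2 := Real.sq_sqrt hc
  nlinarith [sq_nonneg (Real.sqrt a - Real.sqrt c)]

private theorem min_eq (a c : ℝ) : min a c = (a + c - |a - c|) / 2 := by
  rcases le_total a c with h | h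
  · rw [min_eq_left h, abs_of_nonpos (by linarith)]
    ring
  · rw [min_eq_right h, abs_of_nonneg (by linarith)]
    ring

theorem Det.fiber (hθ : 0 ≤ θ) (Y : Set G) (h : ∀ (E : Finset G) (ε : ℝ), 0 < ε →
    ∃ (Z : Type u) (ξ : G → Z →₀ ℝ) (X : Set G), Det b θ X ∧ (∀ g ∈ Y, ∀ z, 0 ≤ ξ g z) ∧
      (∀ g ∈ Y, ((ξ g).sum fun _ t => t) = 1) ∧
      (∀ g ∈ Y, ∀ e ∈ E, g * e ∈ Y → n1 (ξ g - ξ (g * e)) ≤ ε) ∧
      ∀ z, ∃ h, ∀ g ∈ Y, ξ g z ≠ 0 → h⁻¹ * g ∈ X) : Det b θ Y := by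
  classical
  intro E ε hε
  have hδ : 0 < min ε 1 := lt_min hε one_pos
  set δ := min ε 1 with hδdef
  have hδ1 : δ ≤ 1 := min_le_right _ _
  have hδε : δ ≤ ε := min_le_left _ _
  obtain ⟨Z, ξ, X, hX, h0, h1, hn, hh⟩ := h E (δ / 2) (by positivity)
  obtain ⟨k₀, F₀, hk, hone, hnear, hfar⟩ := hX E (δ / 2) (by positivity)
  choose η hη using hh
  have hsub : ∀ g g' (z : Z), Real.sqrt (ξ g z) * Real.sqrt (ξ g' z) *
      k₀ ((η z)⁻¹ * g) ((η z)⁻¹ * g') ≠ 0 → ξ g z ≠ 0 ∧ ξ g' z ≠ 0 := by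
    intro g g' z hz
    constructor
    · intro h'
      apply hz
      rw [h', Real.sqrt_zero, zero_mul, zero_mul]
    · intro h'
      apply hz
      rw [h', Real.sqrt_zero, mul_zero, zero_mul]
  have hsum : ∀ g g', ∑ᶠ z, Real.sqrt (ξ g z) * Real.sqrt (ξ g' z) *
      k₀ ((η z)⁻¹ * g) ((η z)⁻¹ * g')
      = ∑ z ∈ (ξ g).support ∪ (ξ g').support, Real.sqrt (ξ g z) * Real.sqrt (ξ g' z) *
        k₀ ((η z)⁻¹ * g) ((η z)⁻¹ * g') := by
    intro g g'
    apply finsum_eq_sum_of_support_subset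
    intro z hz
    rw [mem_coe, mem_union, Finsupp.mem_support_iff]
    exact Or.inl (hsub g g' z hz).1
  have htot : ∀ g ∈ Y, ∀ s : Finset Z, (ξ g).support ⊆ s → ∑ z ∈ s, ξ g z = 1 := by
    intro g hg s hs
    rw [← h1 g hg]
    exact (Finsupp.sum_of_support_subset _ hs (fun _ t => t) (fun _ _ => rfl)).symm
  refine ⟨fun g g' => ∑ᶠ z, Real.sqrt (ξ g z) * Real.sqrt (ξ g' z) *
    k₀ ((η z)⁻¹ * g) ((η z)⁻¹ * g'), F₀, ?_, ?_, ?_, ?_⟩
  · refine Rz.sum (fun z g => Real.sqrt (ξ g z)) (fun z g g' => k₀ ((η z)⁻¹ * g) ((η z)⁻¹ * g'))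
      (fun _ _ => Real.sqrt_nonneg _) (fun g => ?_) (fun z => hk.comp fun g => (η z)⁻¹ * g)
    refine Set.Finite.subset (ξ g).support.finite_toSet fun z hz => ?_
    rw [mem_coe, Finsupp.mem_support_iff]
    intro h'
    apply hz
    show Real.sqrt (ξ g z) = 0
    rw [h', Real.sqrt_zero]
  · intro g hg
    show ∑ᶠ z, Real.sqrt (ξ g z) * Real.sqrt (ξ g z) *
      k₀ ((η z)⁻¹ * g) ((η z)⁻¹ * g) = 1
    rw [hsum, ← htot g hg ((ξ g).support ∪ (ξ g).support) subset_union_left]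
    apply sum_congr rfl
    intro z hz
    rw [union_idempotent, Finsupp.mem_support_iff] at hz
    rw [hone _ (hη z g hg hz), mul_one, Real.mul_self_sqrt (h0 g hg z)]
  · intro g hg e he hge
    show 1 - ε ≤ ∑ᶠ z, Real.sqrt (ξ g z) * Real.sqrt (ξ (g * e) z) *
      k₀ ((η z)⁻¹ * g) ((η z)⁻¹ * (g * e))
    rw [hsum]
    set s := (ξ g).support ∪ (ξ (g * e)).support with hs
    have e1 : ∑ z ∈ s, (1 - δ / 2) * min (ξ g z) (ξ (g * e) z)
        ≤ ∑ z ∈ s, Real.sqrt (ξ g z) * Real.sqrt (ξ (g * e) z) *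
          k₀ ((η z)⁻¹ * g) ((η z)⁻¹ * (g * e)) := by
      apply sum_le_sum
      intro z _
      have p1 := h0 g hg z
      have p2 := h0 (g * e) hge z
      by_cases hz : ξ g z ≠ 0 ∧ ξ (g * e) z ≠ 0
      · have q1 := hη z g hg hz.1
        have q2 := hη z (g * e) hge hz.2
        rw [← mul_assoc] at q2
        have q3 := hnear _ q1 e he q2
        rw [mul_assoc] at q3
        have q4 := min_le_sqrt_mul p1 p2
        have q5 : 0 ≤ Real.sqrt (ξ g z) * Real.sqrt (ξ (g * e) z) := by positivity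
        calc (1 - δ / 2) * min (ξ g z) (ξ (g * e) z)
            ≤ (1 - δ / 2) * (Real.sqrt (ξ g z) * Real.sqrt (ξ (g * e) z)) := by
              have : 0 ≤ 1 - δ / 2 := by linarith
              gcongr
          _ = Real.sqrt (ξ g z) * Real.sqrt (ξ (g * e) z) * (1 - δ / 2) := by ring
          _ ≤ _ := by gcongr
      · have q1 : Real.sqrt (ξ g z) * Real.sqrt (ξ (g * e) z) *
            k₀ ((η z)⁻¹ * g) ((η z)⁻¹ * (g * e)) = 0 := by
          by_contra hne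
          exact hz (hsub _ _ _ hne)
        rw [q1]
        have q2 : min (ξ g z) (ξ (g * e) z) = 0 := by
          rw [not_and_or, not_not, not_not] at hz
          rcases hz with hz | hz
          · rw [hz, min_eq_left p2]
          · rw [hz, min_eq_right p1]
        rw [q2, mul_zero]
    have e2 : ∑ z ∈ s, min (ξ g z) (ξ (g * e) z) = 1 - n1 (ξ g - ξ (g * e)) / 2 := by
      have e3 : (ξ g - ξ (g * e)).support ⊆ s := Finsupp.support_sub
      rw [n1_eq_sum _ e3, sum_congr rfl fun z _ => min_eq (ξ g z) (ξ (g * e) z), ← sum_div,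
        sum_sub_distrib, sum_add_distrib, htot g hg s subset_union_left,
        htot (g * e) hge s subset_union_right]
      have e4 : ∑ z ∈ s, |ξ g z - ξ (g * e) z| = ∑ z ∈ s, |(ξ g - ξ (g * e)) z| :=
        sum_congr rfl fun _ _ => rfl
      rw [e4]
      ring
    have e5 := hn g hg e he hge
    rw [← mul_sum, e2] at e1
    refine le_trans ?_ e1
    nlinarith
  · intro g hg x hx hgx
    show ∑ᶠ z, Real.sqrt (ξ g z) * Real.sqrt (ξ (g * x) z) *
      k₀ ((η z)⁻¹ * g) ((η z)⁻¹ * (g * x)) ≤ θ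
    rw [hsum]
    set s := (ξ g).support ∪ (ξ (g * x)).support with hs
    have e1 : ∑ z ∈ s, Real.sqrt (ξ g z) * Real.sqrt (ξ (g * x) z) *
          k₀ ((η z)⁻¹ * g) ((η z)⁻¹ * (g * x))
        ≤ ∑ z ∈ s, (ξ g z + ξ (g * x) z) / 2 * θ := by
      apply sum_le_sum
      intro z _
      have p1 := h0 g hg z
      have p2 := h0 (g * x) hgx z
      by_cases hz : ξ g z ≠ 0 ∧ ξ (g * x) z ≠ 0
      · have q1 := hη z g hg hz.1
        have q2 := hη z (g * x) hgx hz.2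
        rw [← mul_assoc] at q2
        have q3 := hfar _ q1 x hx q2
        rw [mul_assoc] at q3
        have q4 := sqrt_mul_le p1 p2
        have q5 : 0 ≤ Real.sqrt (ξ g z) * Real.sqrt (ξ (g * x) z) := by positivity
        calc Real.sqrt (ξ g z) * Real.sqrt (ξ (g * x) z) *
              k₀ ((η z)⁻¹ * g) ((η z)⁻¹ * (g * x))
            ≤ Real.sqrt (ξ g z) * Real.sqrt (ξ (g * x) z) * θ := by gcongr
          _ ≤ _ := by gcongr
      · have q1 : Real.sqrt (ξ g z) * Real.sqrt (ξ (g * x) z) *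
            k₀ ((η z)⁻¹ * g) ((η z)⁻¹ * (g * x)) = 0 := by
          by_contra hne
          exact hz (hsub _ _ _ hne)
        rw [q1]
        positivity
    refine le_trans e1 ?_
    rw [← sum_mul, ← sum_div, sum_add_distrib, htot g hg s subset_union_left,
      htot (g * x) hgx s subset_union_right]
    linarith

end Pool.Agent.H97.BLD
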