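import Pool.Agent.H97.BLD.Defs

/-!
# Project BLD: property A

* `Det.of_propertyA`: `E_L` = the elements of `E` which are in `L`. `PropertyA L` for `E_L`, `2 ε`... gives `T`, `a`. For `g ∈ L` let
  `v g` be the function `x ↦ √(a g x)` on `L` (`v g = 0`, or anything nonnegative, for `g ∉ L`). `ip (v g) (v (g e)) = ∑ √(a g x) √(a (g e) x)
  ≥ ∑ min = 1 - ‖a g - a (g e)‖₁ / 2`. If `ip (v g) (v (g x)) ≠ 0` then some `y` is in both supports: `g⁻¹ y ∈ T`, `(g x)⁻¹ y ∈ T`, so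
  `x ∈ T T⁻¹`, a finite set `F`.
* `Det.propertyA`: `CE.propertyA` (`H66/NCL/PropA.lean`): `Detect G {T | T.Finite}`: the vectors `v` of `Rz`; on `univ` everything holds;
  outside of `F`: `0 ≤ ip ≤ 0`.
-/

set_option autoImplicit false

open Finset

namespace Pool.Agent.H97.BLD

open Pool.Agent.H66.NCL

universe u

variable {G : Type u} [Group G]

theorem Det.of_propertyA {L : Subgroup G} (h : PropertyA L) : Det True 0 (L : Set G) := by
  classical
  intro E ε hε
  obtain ⟨T, a, a0, a1, aT, ac⟩ := h (E.subtype (· ∈ L)) (2 * ε) (by positivity)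
  obtain ⟨v, hv⟩ : ∃ v : G → L →₀ ℝ, ∀ g, v g = if hg : g ∈ L then
      (a ⟨g, hg⟩).mapRange Real.sqrt Real.sqrt_zero else 0 := ⟨_, fun _ => rfl⟩
  have hvL : ∀ g (hg : g ∈ L) x, v g x = Real.sqrt (a ⟨g, hg⟩ x) := by
    intro g hg x
    rw [hv, dif_pos hg, Finsupp.mapRange_apply]
  have hv0 : ∀ g x, 0 ≤ v g x := by
    intro g x
    by_cases hg : g ∈ L
    · rw [hvL g hg]; exact Real.sqrt_nonneg _
    · rw [hv, dif_neg hg]; simp
  have hsupp : ∀ g (hg : g ∈ L), (v g).support ⊆ (a ⟨g, hg⟩).support := by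
    intro g hg x hx
    rw [Finsupp.mem_support_iff] at hx ⊢
    intro h0
    apply hx
    rw [hvL g hg, h0, Real.sqrt_zero]
  have hsum : ∀ (g : L) (s : Finset L), (a g).support ⊆ s → ∑ x ∈ s, a g x = 1 := by
    intro g s hs
    rw [← a1 g, Finsupp.sum_of_support_subset (a g) hs (fun _ t => t) (by intro i _; rfl)]
  refine ⟨fun g h => ip (v g) (v h), (T ×ˢ T).image fun p => (p.1 : G) * (p.2 : G)⁻¹,
    ⟨L, v, fun _ => hv0, fun _ _ => rfl⟩, ?_, ?_, ?_⟩
  · intro g hg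
    have hg' : g ∈ L := hg
    show ip (v g) (v g) = 1
    rw [ip_eq_sum (v g) (v g) (hsupp g hg'), ← hsum ⟨g, hg'⟩ _ subset_rfl]
    refine Finset.sum_congr rfl fun x _ => ?_
    rw [hvL g hg', Real.mul_self_sqrt (a0 _ _)]
  · intro g hg e he hge
    have hg' : g ∈ L := hg
    have hge' : g * e ∈ L := hge
    have he' : e ∈ L := by
      have := L.mul_mem (L.inv_mem hg') hge'
      rwa [inv_mul_cancel_left] at this
    have h1 := ac ⟨g, hg'⟩ ⟨e, he'⟩ (by rw [Finset.mem_subtype]; exact he)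
    have h2 : (⟨g, hg'⟩ : L) * ⟨e, he'⟩ = ⟨g * e, hge'⟩ := rfl
    rw [h2] at h1
    show 1 - ε ≤ ip (v g) (v (g * e))
    set s := (a ⟨g, hg'⟩).support ∪ (a ⟨g * e, hge'⟩).support with hs
    rw [ip_eq_sum (v g) (v (g * e)) ((hsupp g hg').trans Finset.subset_union_left)]
    have h3 : n1 (a ⟨g, hg'⟩ - a ⟨g * e, hge'⟩) ≤ 2 * ε := h1
    rw [n1_eq_sum _ (s := s) (Finsupp.support_sub.trans subset_rfl)] at h3
    have h4 := hsum ⟨g, hg'⟩ s Finset.subset_union_left
    have h5 := hsum ⟨g * e, hge'⟩ s Finset.subset_union_right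
    have h6 : ∑ x ∈ s, (a ⟨g, hg'⟩ x + a ⟨g * e, hge'⟩ x -
        |(a ⟨g, hg'⟩ - a ⟨g * e, hge'⟩) x|) / 2 ≤ ∑ x ∈ s, v g x * v (g * e) x := by
      refine Finset.sum_le_sum fun x _ => ?_
      rw [hvL g hg', hvL _ hge', Finsupp.sub_apply]
      have p0 := a0 ⟨g, hg'⟩ x
      have q0 := a0 ⟨g * e, hge'⟩ x
      set p := a ⟨g, hg'⟩ x
      set q := a ⟨g * e, hge'⟩ x
      rcases le_total p q with hpq | hpq
      · rw [abs_of_nonpos (by linarith)]
        have : p ≤ √p * √q := by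
          calc p = √p * √p := (Real.mul_self_sqrt p0).symm
            _ ≤ √p * √q := mul_le_mul_of_nonneg_left (Real.sqrt_le_sqrt hpq) (Real.sqrt_nonneg _)
        linarith
      · rw [abs_of_nonneg (by linarith)]
        have : q ≤ √p * √q := by
          calc q = √q * √q := (Real.mul_self_sqrt q0).symm
            _ ≤ √p * √q := mul_le_mul_of_nonneg_right (Real.sqrt_le_sqrt hpq) (Real.sqrt_nonneg _)
        linarith
    rw [← Finset.sum_div, Finset.sum_sub_distrib, Finset.sum_add_distrib, h4, h5] at h6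
    linarith
  · intro g hg x hx hgx
    have hg' : g ∈ L := hg
    have hgx' : g * x ∈ L := hgx
    show ip (v g) (v (g * x)) ≤ 0
    rw [ip_eq_sum (v g) (v (g * x)) (hsupp g hg')]
    refine le_of_eq (Finset.sum_eq_zero fun y _ => ?_)
    by_contra hne
    have n1' : a ⟨g, hg'⟩ y ≠ 0 := by
      intro h0
      apply hne
      rw [hvL g hg', h0, Real.sqrt_zero, zero_mul]
    have n2' : a ⟨g * x, hgx'⟩ y ≠ 0 := by
      intro h0
      apply hne
      rw [hvL _ hgx', h0, Real.sqrt_zero, mul_zero]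
    have t1 := aT _ _ n1'
    have t2 := aT _ _ n2'
    apply hx
    rw [Finset.mem_image]
    refine ⟨(⟨g, hg'⟩⁻¹ * y, ⟨g * x, hgx'⟩⁻¹ * y), Finset.mem_product.2 ⟨t1, t2⟩, ?_⟩
    simp only [Subgroup.coe_mul, InvMemClass.coe_inv]
    group

theorem Det.propertyA (h : Det True 0 (Set.univ : Set G)) : PropertyA G := by
  apply CE.propertyA.{u, u}
  intro S ε hε
  obtain ⟨k, F, ⟨ι, v, v0, hk⟩, k1, kc, kf⟩ := h S ε hε
  refine ⟨ι, v, (F : Set G), F.finite_toSet, v0 trivial, ?_, ?_, ?_⟩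
  · intro g
    rw [← hk]; exact k1 g trivial
  · intro g s hs
    rw [← hk]; exact kc g trivial s hs trivial
  · intro g s hs
    refine le_antisymm ?_ (ip_nonneg (v0 trivial g) (v0 trivial _))
    rw [← hk]
    exact kf g trivial s (fun h => hs (Finset.mem_coe.2 h)) trivial

end Pool.Agent.H97.BLD
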