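import Pool.Agent.H97.BLD.InCa

/-!
# Project BLD: from a coarse embedding to kernels

`f : L → ℓ²(ι)`. First replace `f g` by a finitely supported `f' g : ι →₀ ℝ` with `‖f g - f' g‖ ≤ 1` (truncation of a
summable series). With `q x = ip x x`, the square of the norm: `q (f' (g s) - f' g) ≤ (C_s + 2)²`, and for each `R` only
finitely many `s` have `q (f' (g s) - f' g) ≤ R` for some `g`.
Given `E`, `ε`: `t > 0` so small that `exp (-t (C_e + 2)²) ≥ 1 - ε / 2` for the finitely many `e ∈ E ∩ L`, `R` with `exp (-t R) ≤ 1 / 4`,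
`η = min (ε / 2) (1 / 4)`, `u` from `exists_gauss`. Kernel `k g h = ip (u (f' g)) (u (f' h))` for `g, h ∈ L` (with `f' g := 0` for `g ∉ L`),
`F` = the finitely many `s ∈ L` with `q (f' (g s) - f' g) ≤ R` for some `g` (mapped to `G`).
-/

set_option autoImplicit false

open Finset

namespace Pool.Agent.H97.BLD

open Pool.Agent.H66.NCL

universe u

variable {G : Type u} [Group G]

private theorem inC_hasSum {ι : Type u} (a : ι →₀ ℝ) :
    HasSum (fun i => ‖a i‖ ^ 2) (ip a a) := by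
  rw [ip_eq_sum a a subset_rfl]
  have h : ∑ i ∈ a.support, a i * a i = ∑ i ∈ a.support, ‖a i‖ ^ 2 :=
    Finset.sum_congr rfl fun i _ => by rw [Real.norm_eq_abs, sq_abs, sq]
  rw [h]
  refine hasSum_sum_of_ne_finset_zero (fun i hi => ?_)
  rw [Finsupp.notMem_support_iff.1 hi]
  simp

private theorem inC_mem {ι : Type u} (a : ι →₀ ℝ) : Memℓp (fun i => a i) 2 := by
  refine memℓp_gen ?_
  simpa using (inC_hasSum a).summable

/-- finitely supported functions as elements of `ℓ²` -/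
private noncomputable def inCE {ι : Type u} (a : ι →₀ ℝ) : lp (fun _ : ι => ℝ) 2 := ⟨_, inC_mem a⟩

private theorem inCE_apply {ι : Type u} (a : ι →₀ ℝ) (i : ι) : inCE a i = a i := rfl

private theorem inCE_sub {ι : Type u} (a b : ι →₀ ℝ) : inCE (a - b) = inCE a - inCE b := by
  refine lp.ext ?_
  funext i
  rw [lp.coeFn_sub, Pi.sub_apply, inCE_apply, inCE_apply, inCE_apply, Finsupp.sub_apply]

private theorem inCE_norm {ι : Type u} (a : ι →₀ ℝ) : ‖inCE a‖ ^ 2 = ip a a := by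
  have h3 := lp.norm_rpow_eq_tsum (p := 2) (by norm_num) (inCE a)
  have h4 : (2 : ENNReal).toReal = 2 := by norm_num
  rw [h4] at h3
  rw [← Real.rpow_two, h3, ← (inC_hasSum a).tsum_eq]
  refine tsum_congr fun p => ?_
  rw [Real.rpow_two, inCE_apply]

private theorem inC_approx {ι : Type u} (f : lp (fun _ : ι => ℝ) 2) :
    ∃ a : ι →₀ ℝ, ‖f - inCE a‖ ≤ 1 := by
  classical
  have h := lp.hasSum_single (p := 2) (by norm_num) f
  obtain ⟨s, hs⟩ := ((Metric.tendsto_nhds.1 h) 1 one_pos).exists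
  refine ⟨∑ i ∈ s, Finsupp.single i (f i), ?_⟩
  have h1 : inCE (∑ i ∈ s, Finsupp.single i (f i)) = ∑ i ∈ s, lp.single 2 i (f i) := by
    refine lp.ext ?_
    funext j
    rw [lp.coeFn_sum, Finset.sum_apply, inCE_apply, Finsupp.finsetSum_apply]
    refine Finset.sum_congr rfl fun i _ => ?_
    rw [lp.coeFn_single, Finsupp.single_apply, Pi.single_apply]
    by_cases hij : i = j
    · rw [if_pos hij, if_pos hij.symm]
    · rw [if_neg hij, if_neg (Ne.symm hij)]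
  rw [h1, ← dist_eq_norm, dist_comm]
  exact hs.le

theorem Det.of_coarselyEmbeds {L : Subgroup G} (h : CoarselyEmbeds.{u, u} L) :
    Det False (1 / 2) (L : Set G) := by
  classical
  obtain ⟨ι, f, hf1, hf2⟩ := h
  choose a ha using fun g : L => inC_approx (f g)
  -- the norms
  have hup : ∀ g h : L, ‖inCE (a g - a h)‖ ≤ ‖f g - f h‖ + 2 := by
    intro g h
    have h1 : inCE (a g - a h) = (f g - f h) - (f g - inCE (a g)) + (f h - inCE (a h)) := by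
      rw [inCE_sub]
      abel
    rw [h1]
    have h2 := norm_add_le ((f g - f h) - (f g - inCE (a g))) (f h - inCE (a h))
    have h3 := norm_sub_le (f g - f h) (f g - inCE (a g))
    have h4 := ha g
    have h5 := ha h
    linarith
  have hlow : ∀ g h : L, ‖f g - f h‖ ≤ ‖inCE (a g - a h)‖ + 2 := by
    intro g h
    have h1 : f g - f h = inCE (a g - a h) + (f g - inCE (a g)) - (f h - inCE (a h)) := by
      rw [inCE_sub]
      abel
    rw [h1]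
    have h2 := norm_sub_le (inCE (a g - a h) + (f g - inCE (a g))) (f h - inCE (a h))
    have h3 := norm_add_le (inCE (a g - a h)) (f g - inCE (a g))
    have h4 := ha g
    have h5 := ha h
    linarith
  choose C hC using hf1
  intro E ε hε
  obtain ⟨B, hB0, hB⟩ : ∃ B : ℝ, 0 ≤ B ∧ ∀ e : L, (e : G) ∈ E → C e ≤ B := by
    refine ⟨∑ e ∈ E.subtype (· ∈ L), |C e|, Finset.sum_nonneg fun _ _ => abs_nonneg _, ?_⟩
    intro e he
    refine (le_abs_self _).trans (Finset.single_le_sum (f := fun e => |C e|)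
      (fun _ _ => abs_nonneg _) ?_)
    rw [Finset.mem_subtype]
    exact he
  obtain ⟨t, ht⟩ : ∃ t : ℝ, t = ε / (2 * (B + 2) ^ 2) := ⟨_, rfl⟩
  have ht0 : 0 < t := by
    rw [ht]
    positivity
  have htB : t * (B + 2) ^ 2 = ε / 2 := by
    rw [ht]
    have : (B + 2) ^ 2 ≠ 0 := by positivity
    field_simp
  obtain ⟨κ, u, hu1, hu2⟩ := exists_gauss (ι := ι) t ht0 (min (ε / 2) (1 / 4)) (by positivity)
  obtain ⟨b, hb⟩ : ∃ b : G → ι →₀ ℝ, ∀ g : L, b g = a g :=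
    ⟨fun g => if hg : g ∈ L then a ⟨g, hg⟩ else 0, fun g => dif_pos g.2⟩
  have hmul : ∀ g ∈ L, ∀ x, g * x ∈ L → x ∈ L := fun g hg x hx => (L.mul_mem_cancel_left hg).1 hx
  obtain ⟨R, hR⟩ : ∃ R : ℝ, R = 4 / t := ⟨_, rfl⟩
  have hR0 : 0 < R := by
    rw [hR]
    positivity
  have htR : t * R = 4 := by
    rw [hR]
    field_simp
  refine ⟨fun g h => ip (u (b g)) (u (b h)), (hf2 (Real.sqrt R + 2)).toFinset.image Subtype.val,
    ⟨κ, fun g => u (b g), fun hh => hh.elim, fun _ _ => rfl⟩, ?_, ?_, ?_⟩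
  · intro g _
    exact hu1 _
  · intro g hg e he hge
    have heL : e ∈ L := hmul g hg e hge
    have h1 : b g = a ⟨g, hg⟩ := hb ⟨g, hg⟩
    have h2 : b (g * e) = a (⟨g, hg⟩ * ⟨e, heL⟩) := hb (⟨g, hg⟩ * ⟨e, heL⟩)
    show 1 - ε ≤ ip (u (b g)) (u (b (g * e)))
    rw [h1, h2]
    have h3 := hup ⟨g, hg⟩ (⟨g, hg⟩ * ⟨e, heL⟩)
    have h4 := hC ⟨e, heL⟩ ⟨g, hg⟩
    rw [norm_sub_rev] at h4
    have h5 : ‖inCE (a ⟨g, hg⟩ - a (⟨g, hg⟩ * ⟨e, heL⟩))‖ ≤ B + 2 := by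
      have := hB ⟨e, heL⟩ he
      linarith
    have h6 : ip (a ⟨g, hg⟩ - a (⟨g, hg⟩ * ⟨e, heL⟩)) (a ⟨g, hg⟩ - a (⟨g, hg⟩ * ⟨e, heL⟩)) ≤
        (B + 2) ^ 2 := by
      rw [← inCE_norm]
      exact pow_le_pow_left₀ (norm_nonneg _) h5 2
    have h7 := (abs_le.1 (hu2 (a ⟨g, hg⟩) (a (⟨g, hg⟩ * ⟨e, heL⟩)))).1
    have h8 := Real.add_one_le_exp (-t * ip (a ⟨g, hg⟩ - a (⟨g, hg⟩ * ⟨e, heL⟩))
      (a ⟨g, hg⟩ - a (⟨g, hg⟩ * ⟨e, heL⟩)))
    have h9 := mul_le_mul_of_nonneg_left h6 ht0.le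
    have h10 : min (ε / 2) (1 / 4 : ℝ) ≤ ε / 2 := min_le_left _ _
    linarith
  · intro g hg x hx hgx
    have hxL : x ∈ L := hmul g hg x hgx
    have h1 : b g = a ⟨g, hg⟩ := hb ⟨g, hg⟩
    have h2 : b (g * x) = a (⟨g, hg⟩ * ⟨x, hxL⟩) := hb (⟨g, hg⟩ * ⟨x, hxL⟩)
    show ip (u (b g)) (u (b (g * x))) ≤ 1 / 2
    rw [h1, h2]
    have h3 : Real.sqrt R + 2 < ‖f (⟨g, hg⟩ * ⟨x, hxL⟩) - f ⟨g, hg⟩‖ := by
      by_contra hcon
      refine hx (Finset.mem_image.2 ⟨⟨x, hxL⟩, ?_, rfl⟩)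
      rw [Set.Finite.mem_toFinset]
      exact ⟨⟨g, hg⟩, not_lt.1 hcon⟩
    have h4 := hlow ⟨g, hg⟩ (⟨g, hg⟩ * ⟨x, hxL⟩)
    rw [norm_sub_rev] at h3
    have h5 : Real.sqrt R ≤ ‖inCE (a ⟨g, hg⟩ - a (⟨g, hg⟩ * ⟨x, hxL⟩))‖ := by linarith
    have h6 : R ≤ ip (a ⟨g, hg⟩ - a (⟨g, hg⟩ * ⟨x, hxL⟩)) (a ⟨g, hg⟩ - a (⟨g, hg⟩ * ⟨x, hxL⟩)) := by
      rw [← inCE_norm, ← Real.sq_sqrt hR0.le]
      exact pow_le_pow_left₀ (Real.sqrt_nonneg _) h5 2
    have h7 := (abs_le.1 (hu2 (a ⟨g, hg⟩) (a (⟨g, hg⟩ * ⟨x, hxL⟩)))).2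
    have h8 : Real.exp (-t * ip (a ⟨g, hg⟩ - a (⟨g, hg⟩ * ⟨x, hxL⟩))
        (a ⟨g, hg⟩ - a (⟨g, hg⟩ * ⟨x, hxL⟩))) ≤ Real.exp (-4) := by
      refine Real.exp_le_exp.2 ?_
      have := mul_le_mul_of_nonneg_left h6 ht0.le
      linarith
    have h9 : Real.exp (-4) ≤ 1 / 4 := by
      rw [Real.exp_neg]
      have h10 := Real.add_one_le_exp (4 : ℝ)
      rw [inv_eq_one_div]
      refine one_div_le_one_div_of_le (by norm_num) ?_
      linarith
    have h10 : min (ε / 2) (1 / 4 : ℝ) ≤ 1 / 4 := min_le_right _ _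
    linarith

end Pool.Agent.H97.BLD
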