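import Pool.Agent.H97.BLD.Defs

/-!
# Project BLD: from kernels to a coarse embedding

The proof of `CE.coarselyEmbeds` in `H66/NCL/Hilbert.lean`, with `ip (v g) (v (g s)) ≤ 1 / 2` outside of a finite set instead of `= 0`:
each `n` with `s ∉ T n` contributes `2 - 2 ip ≥ 1`. (Nonnegativity of `v` is not used there.)
-/

set_option autoImplicit false

open Finset

namespace Pool.Agent.H97.BLD

open Pool.Agent.H66.NCL

universe u x

variable {G : Type u} [Group G]

private theorem outC_ge {ι : Type x} {a b : ι →₀ ℝ} (ha : ip a a = 1) (hb : ip b b = 1) :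
    -1 ≤ ip a b := by
  have h := ip_le_one (b := (-1 : ℝ) • b) ha (by
    rw [ip_smul_left, ip_smul_right, hb]
    norm_num)
  rw [ip_smul_right] at h
  linarith

private theorem outC_hasSum {ι : Type x} (a : ι →₀ ℝ) :
    HasSum (fun i => ‖a i‖ ^ 2) (ip a a) := by
  rw [ip_eq_sum a a subset_rfl]
  have h : ∑ i ∈ a.support, a i * a i = ∑ i ∈ a.support, ‖a i‖ ^ 2 :=
    Finset.sum_congr rfl fun i _ => by rw [Real.norm_eq_abs, sq_abs, sq]
  rw [h]
  refine hasSum_sum_of_ne_finset_zero (fun i hi => ?_)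
  rw [Finsupp.notMem_support_iff.1 hi]
  simp

private theorem outC_sigma {ι : ℕ → Type x} (w : ∀ n, ι n →₀ ℝ)
    (hs : Summable fun n => ip (w n) (w n)) :
    (Summable fun p : (Σ n, ι n) => ‖w p.1 p.2‖ ^ 2) ∧
      (∑' p : (Σ n, ι n), ‖w p.1 p.2‖ ^ 2) = ∑' n, ip (w n) (w n) := by
  have h1 : ∀ n, ∑' i, ‖w n i‖ ^ 2 = ip (w n) (w n) := fun n => (outC_hasSum (w n)).tsum_eq
  have h2 : Summable fun p : (Σ n, ι n) => ‖w p.1 p.2‖ ^ 2 := by
    rw [summable_sigma_of_nonneg (fun p => sq_nonneg _)]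
    refine ⟨fun n => (outC_hasSum (w n)).summable, ?_⟩
    simp only [h1]
    exact hs
  refine ⟨h2, ?_⟩
  rw [h2.tsum_sigma]
  exact tsum_congr h1

theorem Det.coarselyEmbeds [Countable G] (h : Det False (1 / 2) (Set.univ : Set G)) :
    CoarselyEmbeds.{u, u} G := by
  classical
  obtain ⟨e, he⟩ := exists_surjective_nat G
  have hstep : ∀ n : ℕ, ∃ (ι : Type u) (v : G → ι →₀ ℝ) (T : Set G), T.Finite ∧
      (∀ g, ip (v g) (v g) = 1) ∧
      (∀ g, ∀ s ∈ (Finset.range n).image e, 1 - (1 / 4 : ℝ) ^ n ≤ ip (v g) (v (g * s))) ∧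
      (∀ g s, s ∉ T → ip (v g) (v (g * s)) ≤ 1 / 2) := by
    intro n
    obtain ⟨k, F, ⟨ι, v, -, hv⟩, h1, h2, h3⟩ :=
      h ((Finset.range n).image e) ((1 / 4 : ℝ) ^ n) (by positivity)
    refine ⟨ι, v, (F : Set G), F.finite_toSet, fun g => ?_, fun g s hs => ?_, fun g s hs => ?_⟩
    · rw [← hv]
      exact h1 g (Set.mem_univ g)
    · rw [← hv]
      exact h2 g (Set.mem_univ g) s hs (Set.mem_univ _)
    · rw [← hv]
      exact h3 g (Set.mem_univ g) s (fun h4 => hs (Finset.mem_coe.mpr h4)) (Set.mem_univ _)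
  choose ι v T hT hunit hclose horth using hstep
  -- the terms
  obtain ⟨t, ht⟩ : ∃ t : G → G → ℕ → ℝ, t = fun g s n =>
    ip (v n (g * s) - v n g) (v n (g * s) - v n g) := ⟨_, rfl⟩
  have ht' : ∀ g s n, t g s n = 2 - 2 * ip (v n g) (v n (g * s)) := by
    intro g s n
    rw [ht]
    simp only
    rw [ip_sub_sub _ _ (hunit n _) (hunit n _), ip_comm]
  have ht0 : ∀ g s n, 0 ≤ t g s n := by
    intro g s n
    rw [ht']
    have := ip_le_one (hunit n g) (hunit n (g * s))
    linarith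
  have ht2 : ∀ g s n, t g s n ≤ 4 := by
    intro g s n
    rw [ht']
    have := outC_ge (hunit n g) (hunit n (g * s))
    linarith
  have hsmall : ∀ s : G, ∃ n0 : ℕ, ∀ g n, n0 ≤ n → t g s n ≤ 2 * (1 / 4 : ℝ) ^ n := by
    intro s
    obtain ⟨m, hm⟩ := he s
    refine ⟨m + 1, fun g n hn => ?_⟩
    have hs : s ∈ (Finset.range n).image e :=
      Finset.mem_image.2 ⟨m, Finset.mem_range.2 (by omega), hm⟩
    rw [ht']
    have := hclose n g s hs
    linarith
  have hgeo : Summable fun n : ℕ => 2 * (1 / 4 : ℝ) ^ n :=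
    (summable_geometric_of_lt_one (by norm_num) (by norm_num)).mul_left 2
  have hgeo2 : ∑' n : ℕ, 2 * (1 / 4 : ℝ) ^ n ≤ 3 := by
    rw [tsum_mul_left, tsum_geometric_of_lt_one (by norm_num) (by norm_num)]
    norm_num
  -- domination
  have hdom : ∀ s : G, ∃ C : ℝ, 1 ≤ C ∧ ∀ g, Summable (t g s) ∧ ∑' n, t g s n ≤ C := by
    intro s
    obtain ⟨n0, hn0⟩ := hsmall s
    obtain ⟨b, hb⟩ : ∃ b : ℕ → ℝ, b = fun n => (if n ∈ Finset.range n0 then (4 : ℝ) else 0) +
      2 * (1 / 4 : ℝ) ^ n := ⟨_, rfl⟩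
    have hb1 : HasSum (fun n => if n ∈ Finset.range n0 then (4 : ℝ) else 0) (n0 * 4) := by
      have h1 : HasSum (fun n => if n ∈ Finset.range n0 then (4 : ℝ) else 0)
          (∑ n ∈ Finset.range n0, if n ∈ Finset.range n0 then (4 : ℝ) else 0) :=
        hasSum_sum_of_ne_finset_zero (fun n hn => if_neg hn)
      rw [Finset.sum_congr rfl (fun n hn => if_pos hn), Finset.sum_const, Finset.card_range,
        nsmul_eq_mul] at h1
      exact h1
    have hbs : Summable b := by rw [hb]; exact hb1.summable.add hgeo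
    have hle : ∀ g n, t g s n ≤ b n := by
      intro g n
      rw [hb]
      simp only
      by_cases hn : n ∈ Finset.range n0
      · rw [if_pos hn]
        have : 0 ≤ 2 * (1 / 4 : ℝ) ^ n := by positivity
        linarith [ht2 g s n]
      · rw [if_neg hn, zero_add]
        exact hn0 g n (by rw [Finset.mem_range, not_lt] at hn; exact hn)
    have hts : ∀ g, Summable (t g s) := fun g => Summable.of_nonneg_of_le (ht0 g s) (hle g) hbs
    refine ⟨∑' n, b n + 1, ?_, fun g => ⟨hts g, ?_⟩⟩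
    · have : 0 ≤ ∑' n, b n := tsum_nonneg fun n => (ht0 1 s n).trans (hle 1 n)
      linarith
    · have := (hts g).tsum_le_tsum (hle g) hbs
      linarith
  -- the map
  have hmem : ∀ g : G, Memℓp (fun p : (Σ n, ι n) => (v p.1 g - v p.1 1) p.2) 2 := by
    intro g
    obtain ⟨C, -, hC⟩ := hdom g
    have h1 : Summable fun n => ip (v n g - v n 1) (v n g - v n 1) := by
      have := (hC 1).1
      rw [ht] at this
      simpa using this
    have h2 := (outC_sigma (fun n => v n g - v n 1) h1).1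
    refine memℓp_gen ?_
    simpa using h2
  obtain ⟨f, hf⟩ : ∃ f : G → lp (fun _ : (Σ n, ι n) => ℝ) 2, f = fun g => ⟨_, hmem g⟩ := ⟨_, rfl⟩
  have hnorm : ∀ g s, ‖f (g * s) - f g‖ ^ 2 = ∑' n, t g s n := by
    intro g s
    obtain ⟨C, -, hC⟩ := hdom s
    have h1 := (hC g).1
    have h1' : Summable fun n => ip (v n (g * s) - v n g) (v n (g * s) - v n g) := by
      rw [ht] at h1
      exact h1
    have h2 := (outC_sigma (fun n => v n (g * s) - v n g) h1').2
    have h3 := lp.norm_rpow_eq_tsum (p := 2) (by norm_num) (f (g * s) - f g)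
    have h4 : (2 : ENNReal).toReal = 2 := by norm_num
    rw [h4] at h3
    have h5 : ‖f (g * s) - f g‖ ^ 2 = ∑' p : (Σ n, ι n), ‖(v p.1 (g * s) - v p.1 g) p.2‖ ^ 2 := by
      rw [← Real.rpow_two, h3]
      refine tsum_congr (fun p => ?_)
      rw [Real.rpow_two]
      congr 2
      rw [hf]
      simp only [lp.coeFn_sub, Pi.sub_apply, Finsupp.sub_apply]
      ring
    rw [h5, h2, ht]
  refine ⟨(Σ n, ι n), f, ?_, ?_⟩
  · intro s
    obtain ⟨C, hC1, hC⟩ := hdom s
    refine ⟨C, fun g => ?_⟩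
    have h1 := (hC g).2
    rw [← hnorm] at h1
    have h2 : ‖f (g * s) - f g‖ ^ 2 ≤ C ^ 2 := by nlinarith
    exact abs_le_of_sq_le_sq' h2 (by linarith) |>.2
  · intro R
    obtain ⟨N, hN⟩ := exists_nat_gt (R ^ 2)
    refine Set.Finite.subset (Set.Finite.biUnion (Finset.range N).finite_toSet
      (fun n _ => hT n)) ?_
    rintro s ⟨g, hg⟩
    by_contra hcon
    have hnot : ∀ n ∈ Finset.range N, s ∉ T n := by
      intro n hn hs
      apply hcon
      rw [Set.mem_iUnion₂]
      exact ⟨n, hn, hs⟩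
    have h1 : ∀ n ∈ Finset.range N, (1 : ℝ) ≤ t g s n := by
      intro n hn
      rw [ht']
      have := horth n g s (hnot n hn)
      linarith
    obtain ⟨C, -, hC⟩ := hdom s
    have h2 := (hC g).1.sum_le_tsum (Finset.range N) (fun n _ => ht0 g s n)
    have h2' := Finset.sum_le_sum h1
    rw [Finset.sum_const, Finset.card_range, nsmul_eq_mul] at h2'
    rw [← hnorm] at h2
    have h3 : ‖f (g * s) - f g‖ ^ 2 ≤ R ^ 2 := by
      have := norm_nonneg (f (g * s) - f g)
      gcongr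
    have h4 : (0 : ℝ) ≤ N := Nat.cast_nonneg N
    linarith

end Pool.Agent.H97.BLD
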