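import Pool.Agent.H97.BLD.BdA

/-!
# Project BLD: basic facts on buildings

`h : IsBuilding M δ`. Only the axioms and the length are used (no geometric representation).

* `par_trans`: the left step and `par_induction`, or induction on the length along a gallery:
  `δ a b ∈ W_J`, `δ b c ∈ W_J` ⟹ `δ a c ∈ W_J`; more precisely `mem_mul`: if `δ b c ∈ W_J` then
  `(δ a b)⁻¹ * δ a c ∈ W_J`: induction on `len (δ b c)`: a left descent `s ∈ J` (for `w ∈ W_J` the descents are
  in `J`; without roots: use `par_induction` instead: for all `b` with `δ b c = w`), `b'` with `δ b' b = s`,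
  `δ b' c = s * δ b c`, and `δ a b' = δ a b` or `δ a b * s`.
* `len_tri`: induction on `len (δ b c)` with `stepR`.
* `add`: induction on `len (δ a b)`: `δ a b = s w'`, `a'` with `δ a' a = s`, `δ a' b = w'`; `δ a' c = w' * δ b c` by
  induction; `len (s w' δ b c) = len (w' δ b c) + 1` and `step_up` for `a`, `a'` (`symm_simple`).
* `exists_geo`: induction on `len v` (`exists_stepR`/`exists_step`).
* `geo_unique`: induction on `len v`. `v = 1`: `eq_one`. `v = v' s`, `len v = len v' + 1`: `exists_stepR` gives `b₁` with
  `δ a b₁ = v'`, `δ b b₁ = s`; the same for `b'`: `b₁'`. `δ b₁ c = s v⁻¹ w` by `step_up` (its length is one more since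
  `v⁻¹ w` preceded by `s` is reduced: `len (v' (s v⁻¹ w)) = …`). By induction `b₁ = b₁'`. So `δ b b' = 1` or `s`
  (`step`), and `s` is impossible: `step_up` would give `δ b c = s * δ b' c`.
-/

set_option autoImplicit false

open Finset

namespace Pool.Agent.H97.BLD

open Pool.Agent.H4.FC Pool.Agent.H78.RC Pool.Agent.H66.NCL

universe v

variable {S : Type} {M : CoxeterMatrix S} {Δ : Type v} {δ : Δ → Δ → M.Group}

private theorem bd_le_step {s : S} {v w w' : M.Group}
    (hs : len M (M.simple s * v) + 1 = len M v) (hv : Le M v w)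
    (e1 : (M.simple s * v)⁻¹ * w' = v⁻¹ * w) (e2 : w' = M.simple s * w) :
    Le M (M.simple s * v) w' := by
  unfold Le at hv ⊢
  rw [e1]
  have h1 : len M w' ≤ len M (M.simple s * v) + len M (v⁻¹ * w) := by
    have h2 := len_mul_le M (M.simple s * v) ((M.simple s * v)⁻¹ * w')
    rw [mul_inv_cancel_left, e1] at h2
    exact h2
  have h3 : len M w ≤ len M w' + 1 := by
    have h4 := len_mul_le M (M.simple s) w'
    rw [len_simple, e2, ← mul_assoc, simple_sq, one_mul, ← e2] at h4
    omega
  omega

theorem IsBuilding.mem_mul (h : IsBuilding M δ) {J : Finset S} {a b c : Δ}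
    (hb : δ b c ∈ par M J) : (δ a b)⁻¹ * δ a c ∈ par M J := by
  have key : ∀ w ∈ par M J, ∀ b, δ b c = w → (δ a b)⁻¹ * δ a c ∈ par M J := by
    refine par_induction M J ?_ ?_
    · intro b hb
      have h1 : b = c := (h.eq_one b c).1 hb
      rw [h1, inv_mul_cancel]
      exact one_mem _
    · intro s hs w ih b hb
      obtain ⟨b', h1, h2⟩ := h.exists_step s b c
      have h3 : δ b' c = w := by
        rw [h2, hb, ← mul_assoc, simple_sq, one_mul]
      have h4 := ih b' h3
      rcases h.stepR (a := a) h1 with h5 | h5
      · rw [h5, mul_inv_rev, simple_inv, mul_assoc]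
        exact mul_mem (simple_mem_par M hs) h4
      · rw [h5]
        exact h4
  exact key _ hb b rfl

theorem IsBuilding.par_trans (h : IsBuilding M δ) {J : Finset S} {a b c : Δ}
    (ha : δ a b ∈ par M J) (hb : δ b c ∈ par M J) : δ a c ∈ par M J := by
  have h1 := mul_mem ha (h.mem_mul (a := a) hb)
  rwa [mul_inv_cancel_left] at h1

theorem IsBuilding.len_tri (h : IsBuilding M δ) (a b c : Δ) :
    len M (δ a c) ≤ len M (δ a b) + len M (δ b c) := by
  have key : ∀ (n : ℕ) (b : Δ), len M (δ b c) = n → len M (δ a c) ≤ len M (δ a b) + n := by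
    intro n
    induction n with
    | zero =>
      intro b hb
      have h1 : b = c := (h.eq_one b c).1 ((len_eq_zero M).1 hb)
      rw [h1]
      exact Nat.le_refl _
    | succ n ih =>
      intro b hb
      have h0 : δ b c ≠ 1 := by
        intro h1
        rw [h1, len_one] at hb
        omega
      obtain ⟨s, hs⟩ := exists_left M h0
      obtain ⟨b', h1, h2⟩ := h.exists_step s b c
      have h3 : len M (δ b' c) = n := by
        rw [h2]
        omega
      have h4 := ih b' h3
      have h5 : len M (δ a b') ≤ len M (δ a b) + 1 := by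
        rcases h.stepR (a := a) h1 with h6 | h6
        · have h7 : δ a b' = δ a b * M.simple s := by
            rw [h6, mul_assoc, simple_sq, mul_one]
          rw [h7]
          have h8 := len_mul_le M (δ a b) (M.simple s)
          rw [len_simple] at h8
          exact h8
        · rw [h6]
          omega
      omega
  exact key _ b rfl

theorem IsBuilding.add (h : IsBuilding M δ) {a b c : Δ}
    (hl : len M (δ a b * δ b c) = len M (δ a b) + len M (δ b c)) : δ a c = δ a b * δ b c := by
  have key : ∀ (n : ℕ) (a : Δ), len M (δ a b) = n →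
      len M (δ a b * δ b c) = len M (δ a b) + len M (δ b c) → δ a c = δ a b * δ b c := by
    intro n
    induction n with
    | zero =>
      intro a ha _
      have h1 : a = b := (h.eq_one a b).1 ((len_eq_zero M).1 ha)
      rw [h1, h.self, one_mul]
    | succ n ih =>
      intro a ha hl
      have h0 : δ a b ≠ 1 := by
        intro h1
        rw [h1, len_one] at ha
        omega
      obtain ⟨s, hs⟩ := exists_left M h0
      obtain ⟨a', h1, h2⟩ := h.exists_step s a b
      have h3 : len M (δ a' b) = n := by
        rw [h2]
        omega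
      have e1 : δ a b = M.simple s * δ a' b := by
        rw [h2, ← mul_assoc, simple_sq, one_mul]
      have h4 : len M (δ a' b * δ b c) = len M (δ a' b) + len M (δ b c) := by
        have h5 := len_mul_le M (δ a' b) (δ b c)
        have h6 := len_mul_le M (M.simple s) (δ a' b * δ b c)
        rw [len_simple, ← mul_assoc, ← e1] at h6
        omega
      have h7 := ih a' h3 h4
      have h8 := h.step_up s a' a c (h.symm_simple h1) (by
        rw [h7, ← mul_assoc, ← e1, hl, h4]
        omega)
      rw [h8, h7, ← mul_assoc, ← e1]
  exact key _ a rfl hl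

theorem IsBuilding.exists_geo (h : IsBuilding M δ) {a c : Δ} {v : M.Group}
    (hv : Le M v (δ a c)) : ∃ b, δ a b = v ∧ δ b c = v⁻¹ * δ a c := by
  have key : ∀ (n : ℕ) (v : M.Group) (a : Δ), len M v = n → Le M v (δ a c) →
      ∃ b, δ a b = v ∧ δ b c = v⁻¹ * δ a c := by
    intro n
    induction n with
    | zero =>
      intro v a hn _
      have h1 : v = 1 := (len_eq_zero M).1 hn
      rw [h1]
      exact ⟨a, h.self a, by rw [inv_one, one_mul]⟩
    | succ n ih =>
      intro v a hn hv
      have h0 : v ≠ 1 := by
        intro h1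
        rw [h1, len_one] at hn
        omega
      obtain ⟨s, hs⟩ := exists_left M h0
      obtain ⟨a', h1, h2⟩ := h.exists_step s a c
      have e1 : (M.simple s * v)⁻¹ * δ a' c = v⁻¹ * δ a c := by
        rw [h2, mul_inv_rev, simple_inv, mul_assoc, ← mul_assoc (M.simple s) (M.simple s), simple_sq,
          one_mul]
      have h3 : Le M (M.simple s * v) (δ a' c) := bd_le_step hs hv e1 h2
      obtain ⟨b, h4, h5⟩ := ih (M.simple s * v) a' (by omega) h3
      refine ⟨b, ?_, ?_⟩
      · have h6 := h.step_up s a' a b (h.symm_simple h1) (by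
          rw [h4, ← mul_assoc, simple_sq, one_mul]
          omega)
        rw [h6, h4, ← mul_assoc, simple_sq, one_mul]
      · rw [h5, e1]
  exact key _ v a rfl hv

theorem IsBuilding.geo_unique (h : IsBuilding M δ) {a b b' c : Δ} {v : M.Group}
    (hv : Le M v (δ a c)) (h1 : δ a b = v) (h2 : δ b c = v⁻¹ * δ a c) (h1' : δ a b' = v)
    (h2' : δ b' c = v⁻¹ * δ a c) : b = b' := by
  have key : ∀ (n : ℕ) (v : M.Group) (a : Δ), len M v = n → Le M v (δ a c) → δ a b = v →
      δ b c = v⁻¹ * δ a c → δ a b' = v → δ b' c = v⁻¹ * δ a c → b = b' := by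
    intro n
    induction n with
    | zero =>
      intro v a hn _ h1 _ h1' _
      have h3 : v = 1 := (len_eq_zero M).1 hn
      rw [h3] at h1 h1'
      rw [← (h.eq_one a b).1 h1, ← (h.eq_one a b').1 h1']
    | succ n ih =>
      intro v a hn hv h1 h2 h1' h2'
      have h0 : v ≠ 1 := by
        intro h3
        rw [h3, len_one] at hn
        omega
      obtain ⟨s, hs⟩ := exists_left M h0
      obtain ⟨a', g1, g2⟩ := h.exists_step s a c
      have e1 : (M.simple s * v)⁻¹ * δ a' c = v⁻¹ * δ a c := by
        rw [g2, mul_inv_rev, simple_inv, mul_assoc, ← mul_assoc (M.simple s) (M.simple s), simple_sq,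
          one_mul]
      have h3 : Le M (M.simple s * v) (δ a' c) := bd_le_step hs hv e1 g2
      have aux : ∀ x, δ a x = v → δ x c = v⁻¹ * δ a c → δ a' x = M.simple s * v := by
        intro x hx hxc
        rcases h.step s a a' x g1 with h4 | h4
        · rw [h4, hx]
        · exfalso
          rw [hx] at h4
          have h5 : δ a' c = δ a' x * δ x c := by
            refine h.add ?_
            rw [h4, hxc, mul_inv_cancel_left]
            exact hv.symm
          rw [h4, hxc, mul_inv_cancel_left, g2] at h5
          have h6 : len M (M.simple s * δ a c) = len M (δ a c) := by rw [h5]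
          rcases len_simple_mul M (δ a c) s with h7 | h7
          · omega
          · omega
      refine ih (M.simple s * v) a' (by omega) h3 (aux b h1 h2) ?_ (aux b' h1' h2') ?_
      · rw [h2, e1]
      · rw [h2', e1]
  exact key _ v a rfl hv h1 h2 h1' h2'

end Pool.Agent.H97.BLD
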