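import Pool.Agent.H97.BLD.Eta
import Pool.Agent.H97.BLD.Bd

/-!
# Project BLD: almost invariant probability measures on a building

`exists_eta`: `F`, `η`. For a chamber `c` and `v ≤ δ a c` let `g c v` be the chamber with `δ a (g c v) = v`,
`δ (g c v) c = v⁻¹ δ a c` (`exists_geo`; arbitrary if not `v ≤ δ a c`), and `ξ c = ∑_v η (δ a c) v • δ_{g c v}`
(`Finsupp.mapDomain (g c) (η (δ a c))`): nonnegative, sum `1`, and `δ (g c v) c = v⁻¹ w` has length `≤ F`.
* Let `δ c c' = s`, `w = δ a c`, `δ a c' = w s`, `len (w s) = len w + 1`. For `v ≤ w`: `v ≤ w s` and `g c v = g c' v`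
  (`geo_unique` for `c'`: `δ (g c v) c' = v⁻¹ w s` by `stepR_up`). So `ξ c - ξ c'` is the image of `η w - η (w s)` under the map
  `g c'`, `n1 ≤ 2 / n`.
* In general, let `w = δ a c`. If `len (w s) = len w + 1` then `stepR_up` is the case above. If `len (w s) + 1 = len w` there is
  `c''` with `δ c c'' = s`, `δ a c'' = w s` (`exists_stepR`), `n1 (ξ c - ξ c'') ≤ 2 / n` (the case above for `c''`, `c`). `δ a c'` is `w s`
  or `w`. If it is `w s` then the case above for `c'`, `c`. If it is `w`: `δ c' c''`: `step`: it is `s * δ c c'' = 1` or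
  `δ c c'' = s`; if `1` then `c' = c''`, else the case above for `c''`, `c'`. Sum: `≤ 4 / n`.
* `exists_xi'`: induction on `len (δ c c')` along a gallery.
-/

set_option autoImplicit false

open Finset

namespace Pool.Agent.H97.BLD

open Pool.Agent.H4.FC Pool.Agent.H78.RC Pool.Agent.H66.NCL

universe v

variable {S : Type} [Fintype S] [DecidableEq S] {M : CoxeterMatrix S} {Δ : Type v}
  {δ : Δ → Δ → M.Group}

/-! ### `n1` -/

private theorem xi_n1_neg {G : Type*} (f : G →₀ ℝ) : n1 (-f) = n1 f := by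
  rw [n1_eq_sum (-f) (s := f.support) (by rw [Finsupp.support_neg]),
    n1_eq_sum f (s := f.support) (subset_refl _)]
  refine sum_congr rfl fun x _ => ?_
  rw [Finsupp.neg_apply, abs_neg]

private theorem xi_n1_comm {G : Type*} (f g : G →₀ ℝ) : n1 (f - g) = n1 (g - f) := by
  rw [← xi_n1_neg (f - g), neg_sub]

private theorem xi_n1_tri {G : Type*} (f g k : G →₀ ℝ) : n1 (f - k) ≤ n1 (f - g) + n1 (g - k) := by
  have h1 := n1_add_le (f - g) (g - k)
  rwa [sub_add_sub_cancel] at h1

private theorem xi_n1_map {G H : Type*} (φ : G → H) (f : G →₀ ℝ) :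
    n1 (Finsupp.mapDomain φ f) ≤ n1 f := by
  classical
  unfold Finsupp.mapDomain Finsupp.sum
  refine (n1_sum_le _ _).trans ?_
  rw [n1_eq_sum f (s := f.support) (subset_refl _)]
  refine le_of_eq (sum_congr rfl fun x _ => ?_)
  rw [n1_single]

private theorem xi_map_nonneg {G H : Type*} (φ : G → H) {f : G →₀ ℝ} (hf : ∀ x, 0 ≤ f x) (b : H) :
    0 ≤ Finsupp.mapDomain φ f b := by
  classical
  unfold Finsupp.mapDomain Finsupp.sum
  rw [Finsupp.finsetSum_apply]
  refine sum_nonneg fun x _ => ?_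
  rw [Finsupp.single_apply]
  split_ifs
  · exact hf x
  · exact le_rfl

private theorem xi_map_ne {G H : Type*} (φ : G → H) {f : G →₀ ℝ} {b : H}
    (hb : Finsupp.mapDomain φ f b ≠ 0) : ∃ x, f x ≠ 0 ∧ φ x = b := by
  classical
  by_contra h1
  push Not at h1
  refine hb ?_
  unfold Finsupp.mapDomain Finsupp.sum
  rw [Finsupp.finsetSum_apply]
  refine sum_eq_zero fun x hx => ?_
  exact Finsupp.single_eq_of_ne (h1 x (Finsupp.mem_support_iff.1 hx)).symm

/-! ### The chambers `g c v` -/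

omit [Fintype S] [DecidableEq S] in
private theorem xi_le_mul {v w : M.Group} {s : S} (hv : Le M v w)
    (hs : len M (w * M.simple s) = len M w + 1) :
    Le M v (w * M.simple s) ∧ len M (v⁻¹ * w * M.simple s) = len M (v⁻¹ * w) + 1 := by
  unfold Le at hv ⊢
  have h1 := len_mul_le M (v⁻¹ * w) (M.simple s)
  rw [len_simple] at h1
  have h2 := len_mul_le M v (v⁻¹ * w * M.simple s)
  have h3 : v * (v⁻¹ * w * M.simple s) = w * M.simple s := by
    rw [mul_assoc v⁻¹, mul_inv_cancel_left]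
  rw [h3] at h2
  rw [← mul_assoc]
  omega

/-- the chamber at the place `v` between `a` and `c` -/
private noncomputable def xi_g (h : IsBuilding M δ) (a c : Δ) (v : M.Group) : Δ :=
  open Classical in if hv : Le M v (δ a c) then Classical.choose (h.exists_geo hv) else a

omit [Fintype S] [DecidableEq S] in
private theorem xi_g_spec (h : IsBuilding M δ) {a c : Δ} {v : M.Group} (hv : Le M v (δ a c)) :
    δ a (xi_g h a c v) = v ∧ δ (xi_g h a c v) c = v⁻¹ * δ a c := by
  unfold xi_g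
  rw [dif_pos hv]
  exact Classical.choose_spec (h.exists_geo hv)

omit [Fintype S] [DecidableEq S] in
private theorem xi_g_eq (h : IsBuilding M δ) {a c c' : Δ} {s : S} {v : M.Group}
    (hv : Le M v (δ a c)) (hs : δ c c' = M.simple s)
    (hl : len M (δ a c * M.simple s) = len M (δ a c) + 1) : xi_g h a c v = xi_g h a c' v := by
  obtain ⟨h1, h2⟩ := xi_le_mul hv hl
  have h3 := h.stepR_up hs hl
  have h4 := xi_g_spec h hv
  rw [← h3] at h1
  have h5 := xi_g_spec h h1
  refine h.geo_unique h1 h4.1 ?_ h5.1 h5.2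
  have h6 : δ (xi_g h a c v) c' = δ (xi_g h a c v) c * M.simple s := by
    refine h.stepR_up hs ?_
    rw [h4.2]
    exact h2
  rw [h6, h4.2, h3, mul_assoc]

omit [Fintype S] [DecidableEq S] in
/-- the case of two chambers of which the second one is farther from `a` -/
private theorem xi_up (h : IsBuilding M δ) (a : Δ) (n : ℕ) {F : ℕ} {η : M.Group → M.Group →₀ ℝ}
    (h2 : ∀ w v, η w v ≠ 0 → Le M v w ∧ len M (v⁻¹ * w) ≤ F)
    (h3 : ∀ w s, n1 (η w - η (w * M.simple s)) ≤ 2 / n) {c c' : Δ} {s : S}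
    (hs : δ c c' = M.simple s) (hl : len M (δ a c * M.simple s) = len M (δ a c) + 1) :
    n1 (Finsupp.mapDomain (xi_g h a c) (η (δ a c)) -
      Finsupp.mapDomain (xi_g h a c') (η (δ a c'))) ≤ 2 / n := by
  have h4 : Finsupp.mapDomain (xi_g h a c) (η (δ a c)) =
      Finsupp.mapDomain (xi_g h a c') (η (δ a c)) := by
    refine Finsupp.mapDomain_congr fun v hv => ?_
    exact xi_g_eq h (h2 _ v (Finsupp.mem_support_iff.1 hv)).1 hs hl
  have h5 : Finsupp.mapDomain (xi_g h a c') (η (δ a c)) -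
      Finsupp.mapDomain (xi_g h a c') (η (δ a c')) =
      Finsupp.mapDomain (xi_g h a c') (η (δ a c) - η (δ a c')) :=
    (map_sub (Finsupp.mapDomain.addMonoidHom (xi_g h a c')) (η (δ a c)) (η (δ a c'))).symm
  rw [h4, h5, h.stepR_up hs hl]
  exact (xi_n1_map _ _).trans (h3 (δ a c) s)

theorem IsBuilding.exists_xi (h : IsBuilding M δ) (a : Δ) (n : ℕ) (hn : 0 < n) :
    ∃ (F : ℕ) (ξ : Δ → Δ →₀ ℝ), (∀ c b, 0 ≤ ξ c b) ∧ (∀ c, ((ξ c).sum fun _ t => t) = 1) ∧
      (∀ c b, ξ c b ≠ 0 → len M (δ b c) ≤ F) ∧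
      ∀ c c' s, δ c c' = M.simple s → n1 (ξ c - ξ c') ≤ 4 / n := by
  obtain ⟨F, η, h0, h1, h2, h3⟩ := exists_eta M n hn
  refine ⟨F, fun c => Finsupp.mapDomain (xi_g h a c) (η (δ a c)), fun c b => ?_, fun c => ?_,
    fun c b hb => ?_, fun c c' s hs => ?_⟩
  · exact xi_map_nonneg _ (h0 _) b
  · rw [Finsupp.sum_mapDomain_index (fun _ => rfl) fun _ _ _ => rfl]
    exact h1 _
  · obtain ⟨v, hv, rfl⟩ := xi_map_ne _ hb
    obtain ⟨h4, h5⟩ := h2 _ v hv
    rw [(xi_g_spec h h4).2]
    exact h5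
  · show n1 (Finsupp.mapDomain (xi_g h a c) (η (δ a c)) -
      Finsupp.mapDomain (xi_g h a c') (η (δ a c'))) ≤ 4 / n
    have hn0 : (0 : ℝ) < n := by exact_mod_cast hn
    have h24 : (2 : ℝ) / n ≤ 4 / n := by gcongr; norm_num
    rcases len_mul_simple M (δ a c) s with hl | hl
    · exact (xi_up h a n h2 h3 hs hl).trans h24
    · have hss : δ a c * M.simple s * M.simple s = δ a c := by
        rw [mul_assoc, simple_sq, mul_one]
      obtain ⟨d, hd1, hd2⟩ := h.exists_stepR s a c
      -- from `d` to `c`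
      have h4 := xi_up h a n h2 h3 (h.symm_simple hd1) (by rw [hd2, hss]; omega)
      rcases h.stepR (a := a) hs with h5 | h5
      · have h6 := xi_up h a n h2 h3 (h.symm_simple hs) (by rw [h5, hss]; omega)
        rw [xi_n1_comm]
        exact h6.trans h24
      · rcases h.step s c c' d (h.symm_simple hs) with h6 | h6
        · rw [hd1, simple_sq] at h6
          have h7 := (h.eq_one c' d).1 h6
          rw [h7, xi_n1_comm]
          exact h4.trans h24
        · rw [hd1] at h6
          have h7 := xi_up h a n h2 h3 (h.symm_simple h6) (by rw [hd2, hss]; omega)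
          refine (xi_n1_tri _ (Finsupp.mapDomain (xi_g h a d) (η (δ a d))) _).trans ?_
          rw [xi_n1_comm] at h4
          have h8 : (4 : ℝ) / n = 2 / n + 2 / n := by ring
          rw [h8]
          exact add_le_add h4 h7

theorem IsBuilding.exists_xi' (h : IsBuilding M δ) (a : Δ) (n : ℕ) (hn : 0 < n) :
    ∃ (F : ℕ) (ξ : Δ → Δ →₀ ℝ), (∀ c b, 0 ≤ ξ c b) ∧ (∀ c, ((ξ c).sum fun _ t => t) = 1) ∧
      (∀ c b, ξ c b ≠ 0 → len M (δ b c) ≤ F) ∧
      ∀ c c', n1 (ξ c - ξ c') ≤ 4 * len M (δ c c') / n := by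
  obtain ⟨F, ξ, h0, h1, h2, h3⟩ := h.exists_xi a n hn
  refine ⟨F, ξ, h0, h1, h2, ?_⟩
  have h4 : ∀ m : ℕ, ∀ c c', len M (δ c c') = m → n1 (ξ c - ξ c') ≤ 4 * (m : ℝ) / n := by
    intro m
    induction m with
    | zero =>
      intro c c' hm
      have h5 := (h.eq_one c c').1 ((len_eq_zero M).1 hm)
      rw [h5, sub_self]
      unfold n1
      rw [Finsupp.sum_zero_index]
      simp
    | succ m ih =>
      intro c c' hm
      have h5 : δ c c' ≠ 1 := by
        intro h6
        rw [h6, len_one] at hm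
        omega
      obtain ⟨s, hs⟩ := exists_left M h5
      obtain ⟨d, hd1, hd2⟩ := h.exists_step s c c'
      have h6 := h3 c d s (h.symm_simple hd1)
      have h7 := ih d c' (by rw [hd2]; omega)
      have h8 : 4 * ((m + 1 : ℕ) : ℝ) / n = 4 / n + 4 * (m : ℝ) / n := by
        push_cast
        ring
      rw [h8]
      exact (xi_n1_tri _ (ξ d) _).trans (add_le_add h6 h7)
  exact fun c c' => h4 _ c c' rfl

end Pool.Agent.H97.BLD
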