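import Pool.Agent.H97.BLD.CoarseL
import Pool.Agent.H97.BLD.Xi
import Pool.Agent.H97.BLD.DetC
import Pool.Agent.H97.BLD.DetF
import Pool.Agent.H97.BLD.InA
import Pool.Agent.H97.BLD.InC
import Pool.Agent.H97.BLD.OutC

/-!
# Project BLD: assembly

* `Det.good`: the fields are the theorems of `DetC`, `DetF`.
* `step`: `J` not spherical, `P` for the stabilizers of all residues of type `J' ⊂ J`. `hP.fiber` for
  `Y = {g | δ c (g c) ∈ W_J}`: given `E`, `ε` choose `n` with `4 m / n ≤ ε`, `m = max_{e ∈ E} len (δ c (e c))`; `exists_xi'` with `a = c`: `F`, `ξ`. Take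
  `ξ g := ξ (g c)` on `Z = Δ`, `X = {g | δ c (g c) ∈ W_J ∧ len (δ c (g c)) ≤ 2 F}` (`coarse`). `len (δ (g c) (g e c)) = len (δ c (e c)) ≤ m`. For
  `z : Δ` choose `h ∈ Y` with `ξ (h c) z ≠ 0` if there is one (otherwise `h = 1`): for `g ∈ Y` with `ξ (g c) z ≠ 0`:
  `δ c (h⁻¹ g c) = δ (h c) (g c)` has length `≤ len (δ (h c) z) + len (δ z (g c)) ≤ 2 F` (`len_tri`, `symm`, `len_inv`), and it is in `W_J`
  (`par_trans`, `symm`: `δ (h c) c`, `δ c (g c) ∈ W_J`).
* `main`: strong induction on `J` (`Finset.strongInduction`); `J` spherical: hypothesis. For `J = univ` the set is everything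
  (`par M univ = ⊤`).
-/

set_option autoImplicit false

open Finset

namespace Pool.Agent.H97.BLD

open Pool.Agent.H4.FC Pool.Agent.H78.RC Pool.Agent.H66.NCL

universe u

theorem Det.good {G : Type u} [Group G] {b : Prop} {θ : ℝ} (hθ : 0 ≤ θ) :
    Good (Det (G := G) b θ) where
  mono _ _ h1 h2 := Det.mono h1 h2
  empty := Det.empty
  union _ _ h1 h2 := Det.union hθ h1 h2
  cosets L Y h1 h2 h3 := Det.cosets hθ L Y h1 h2 h3
  fiber Y h := Det.fiber hθ Y h

variable {S : Type} [Fintype S] [DecidableEq S] {M : CoxeterMatrix S} {Δ : Type u}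
  {δ : Δ → Δ → M.Group}

theorem step {G : Type u} [Group G] {P : Set G → Prop} (hP : Good P) [MulAction G Δ]
    (h : IsBuilding M δ) (hG : ∀ (g : G) (c d : Δ), δ (g • c) (g • d) = δ c d) {J : Finset S}
    (hJ : ¬ Sph M J)
    (hind : ∀ J', J' ⊂ J → ∀ c : Δ, P {g : G | δ c (g • c) ∈ par M J'}) (c : Δ) :
    P {g : G | δ c (g • c) ∈ par M J} := by
  refine hP.fiber _ fun E ε hε => ?_
  obtain ⟨m, hm⟩ : ∃ m : ℕ, ∀ e ∈ E, len M (δ c (e • c)) ≤ m :=
    ⟨E.sup fun e => len M (δ c (e • c)), fun e he =>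
      Finset.le_sup (f := fun e => len M (δ c (e • c))) he⟩
  obtain ⟨n, hn⟩ := exists_nat_gt (4 * (m : ℝ) / ε)
  have hn0 : (0 : ℝ) < n := lt_of_le_of_lt (by positivity) hn
  have hmn : 4 * (m : ℝ) / n ≤ ε := by
    rw [div_lt_iff₀ hε] at hn
    rw [div_le_iff₀ hn0]
    linarith [mul_comm ε (n : ℝ)]
  obtain ⟨F, ξ, h0, h1, hF, h4⟩ := h.exists_xi' c n (Nat.cast_pos.1 hn0)
  refine ⟨Δ, fun g => ξ (g • c),
    {g : G | δ c (g • c) ∈ par M J ∧ len M (δ c (g • c)) ≤ 2 * F},
    coarse hP h hG hJ hind c (2 * F), fun g _ z => h0 _ _, fun g _ => h1 _, ?_, ?_⟩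
  · intro g _ e he _
    refine (h4 _ _).trans ?_
    rw [mul_smul, hG]
    refine le_trans ?_ hmn
    have h5 : (len M (δ c (e • c)) : ℝ) ≤ m := by exact_mod_cast hm e he
    gcongr
  · intro z
    by_cases hz : ∃ k : G, δ c (k • c) ∈ par M J ∧ ξ (k • c) z ≠ 0
    · obtain ⟨k, hk, hkz⟩ := hz
      refine ⟨k, fun g hg hgz => ?_⟩
      have h5 : δ c ((k⁻¹ * g) • c) = δ (k • c) (g • c) := by
        rw [← hG k c ((k⁻¹ * g) • c), smul_smul, mul_inv_cancel_left]
      have h6 : δ (k • c) c ∈ par M J := by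
        rw [h.symm c (k • c)]
        exact inv_mem hk
      show δ c ((k⁻¹ * g) • c) ∈ par M J ∧ len M (δ c ((k⁻¹ * g) • c)) ≤ 2 * F
      rw [h5]
      refine ⟨h.par_trans h6 hg, (h.len_tri (k • c) z (g • c)).trans ?_⟩
      have h7 := hF _ _ hkz
      have h8 := hF _ _ hgz
      rw [h.symm z (k • c), len_inv]
      omega
    · refine ⟨1, fun g hg hgz => ?_⟩
      exact absurd ⟨g, hg, hgz⟩ hz

theorem main {G : Type u} [Group G] {P : Set G → Prop} (hP : Good P) [MulAction G Δ]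
    [Nonempty Δ] (h : IsBuilding M δ) (hG : ∀ (g : G) (c d : Δ), δ (g • c) (g • d) = δ c d)
    (hsph : ∀ J, Sph M J → ∀ c : Δ, P {g : G | δ c (g • c) ∈ par M J}) : P Set.univ := by
  have key : ∀ J : Finset S, ∀ c : Δ, P {g : G | δ c (g • c) ∈ par M J} := by
    intro J
    induction J using Finset.strongInduction with
    | H J ih =>
      by_cases hJ : Sph M J
      · exact hsph J hJ
      · exact fun c => step hP h hG hJ ih c
  obtain ⟨c⟩ := ‹Nonempty Δ›
  refine hP.mono _ _ ?_ (key Finset.univ c)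
  intro g _
  have h1 : par M (Finset.univ : Finset S) = ⊤ := by
    rw [eq_top_iff, ← M.toCoxeterSystem.subgroup_closure_range_simple]
    refine (Subgroup.closure_le _).2 ?_
    rintro w ⟨s, rfl⟩
    rw [M.toCoxeterSystem_simple]
    exact simple_mem_par M (Finset.mem_univ s)
  show δ c (g • c) ∈ par M Finset.univ
  rw [h1]
  exact Subgroup.mem_top _

/-- the stabilizer of a residue -/
theorem mem_stab {G : Type u} [Group G] [MulAction G Δ] (h : IsBuilding M δ)
    (hG : ∀ (g : G) (c d : Δ), δ (g • c) (g • d) = δ c d) (J : Finset S) (c : Δ) (g : G) :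
    (∀ d : Δ, d ∈ residue M δ J c ↔ g • d ∈ residue M δ J c) ↔ δ c (g • c) ∈ par M J := by
  constructor
  · intro hd
    refine (hd c).1 ?_
    show δ c c ∈ par M J
    rw [h.self c]
    exact one_mem _
  · intro hg d
    show δ c d ∈ par M J ↔ δ c (g • d) ∈ par M J
    constructor
    · intro hd
      refine h.par_trans hg ?_
      rw [hG]
      exact hd
    · intro hd
      rw [← hG g c d]
      refine h.par_trans ?_ hd
      rw [h.symm c (g • c)]
      exact inv_mem hg

end Pool.Agent.H97.BLD
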