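import Pool.Agent.H97.BLD.WkA

/-!
# Project BLD: the weak order and inversion sets, second part

* `descent_par`: the coordinate `s` of `w α_s` is `1` if `s ∉ J` (`T_par`), but `w α_s ≤ 0` (`len_down_iff`).
* `le_par`: downward induction on `len (v⁻¹ w)`: a right descent `s` of `v⁻¹ w` is one of `w`, in `J`, and
  `v ≤ w s`.
* `Nv_par`: the coordinates of `w⁻¹ β` outside `J` are those of `β` (`T_par`).
* `par_dec`: take `b` of minimal length in `W_J y`.
* `len_par_mul`: `Nv u ⊆ Nv (u b)`: let `β ∈ Nv u`; `-u⁻¹ β ≥ 0` has support in `J` (`Nv_par`, `T_par`), it is a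
  nonnegative combination of `α_t`, `t ∈ J`, and `b⁻¹ α_t ≥ 0` (`len_up_iff'`). So `(u b)⁻¹ β ≤ 0`. Then `le_iff`.
* `refl_short` (a wall which separates `y` and `b` is near to `y`): induction on `len (y⁻¹ b)`, for all `y`. It is not
  `0` as `γ` distinguishes `y` and `b`. Let `s` be a left descent of `y⁻¹ b`, `y₁ = y s`, `len (y₁⁻¹ b) = len (y⁻¹ b) - 1`.
  If `γ ∈ Nv y₁` then `γ = ± y α_s` (`Nv_up`, `Nv_down`), so `t = y s y⁻¹` (`T_conj`, `T_ext`) and `len (y⁻¹ t y) = 1`.
  Otherwise use the induction hypothesis and `y⁻¹ t y = s (y₁⁻¹ t y₁) s`.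
-/

set_option autoImplicit false

open Finset

namespace Pool.Agent.H97.BLD

open Pool.Agent.H4.FC Pool.Agent.H78.RC Pool.Agent.H66.NCL

variable {S : Type} [Fintype S] [DecidableEq S] (M : CoxeterMatrix S)

theorem descent_par {J : Finset S} {w : M.Group} (hw : w ∈ par M J) {s : S}
    (h : len M (w * M.simple s) + 1 = len M w) : s ∈ J := by
  by_contra hs
  have h1 := T_par M hw (Pi.single s 1) hs
  have h2 := (len_down_iff M w s).1 h s
  rw [h1, Pi.single_eq_same] at h2
  linarith

theorem le_par {J : Finset S} {v w : M.Group} (h : Le M v w) (hw : w ∈ par M J) : v ∈ par M J := by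
  obtain ⟨n, hn⟩ : ∃ n, len M (v⁻¹ * w) = n := ⟨_, rfl⟩
  induction n generalizing w with
  | zero =>
    have h1 : v = w := inv_mul_eq_one.1 ((len_eq_zero M).1 hn)
    rw [h1]
    exact hw
  | succ n ih =>
    have h1 : v⁻¹ * w ≠ 1 := by
      intro h0
      rw [h0, len_one] at hn
      omega
    obtain ⟨s, hs⟩ := exists_right M h1
    rw [mul_assoc] at hs
    have h3 : len M (w * M.simple s) ≤ len M v + len M (v⁻¹ * (w * M.simple s)) := by
      have h4 := len_mul_le M v (v⁻¹ * (w * M.simple s))
      rwa [mul_inv_cancel_left] at h4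
    unfold Le at h
    have h4 : len M (w * M.simple s) + 1 = len M w := by
      rcases len_mul_simple M w s with h5 | h5
      · omega
      · exact h5
    have hsJ := descent_par M hw h4
    refine ih ?_ (mul_mem hw (simple_mem_par M hsJ)) ?_
    · unfold Le
      omega
    · omega

theorem Nv_par {J : Finset S} {w : M.Group} (hw : w ∈ par M J) {β : S → ℝ} (hβ : β ∈ Nv M w)
    {i : S} (hi : i ∉ J) : β i = 0 := by
  have h1 := hβ.2.2 i
  rw [T_par M (inv_mem hw) β hi] at h1
  exact le_antisymm h1 (hβ.2.1 i)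

theorem par_dec (J : Finset S) (y : M.Group) :
    ∃ a ∈ par M J, ∃ b, y = a * b ∧ ∀ t ∈ J, len M (M.simple t * b) = len M b + 1 := by
  obtain ⟨b, ⟨a, ha, hab⟩, hmin⟩ := (measure (len M)).wf.has_min
    {b | ∃ a ∈ par M J, y = a * b} ⟨y, 1, one_mem _, (one_mul y).symm⟩
  refine ⟨a, ha, b, hab, fun t ht => ?_⟩
  rcases len_simple_mul M b t with h1 | h1
  · exact h1
  · exfalso
    refine hmin (M.simple t * b) ⟨a * M.simple t, mul_mem ha (simple_mem_par M ht), ?_⟩ ?_
    · rw [mul_assoc, ← mul_assoc (M.simple t) (M.simple t) b, simple_sq, one_mul]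
      exact hab
    · show len M (M.simple t * b) < len M b
      omega

theorem len_par_mul {J : Finset S} {u b : M.Group} (hu : u ∈ par M J)
    (hb : ∀ t ∈ J, len M (M.simple t * b) = len M b + 1) : len M (u * b) = len M u + len M b := by
  have h1 : Le M u (u * b) := by
    rw [le_iff]
    intro β hβ
    refine ⟨hβ.1, hβ.2.1, fun i => ?_⟩
    rw [mul_inv_rev, T_mul, T_apply]
    refine Finset.sum_nonpos fun j _ => ?_
    by_cases hj : j ∈ J
    · exact mul_nonpos_of_nonpos_of_nonneg (hβ.2.2 j) ((len_up_iff' M b j).1 (hb j hj) i)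
    · rw [T_par M (inv_mem hu) β hj, Nv_par M hu hβ hj, zero_mul]
  unfold Le at h1
  rw [inv_mul_cancel_left] at h1
  exact h1.symm

theorem refl_short {γ : S → ℝ} {t y b : M.Group} (ht : ∀ x, T M t x = x - bf (kR M) γ x • γ)
    (h1 : γ ∈ Nv M b) (h2 : γ ∉ Nv M y) : len M (y⁻¹ * t * y) ≤ 2 * len M (y⁻¹ * b) := by
  obtain ⟨n, hn⟩ : ∃ n, len M (y⁻¹ * b) = n := ⟨_, rfl⟩
  induction n generalizing y with
  | zero =>
    exfalso
    have h3 : y = b := inv_mul_eq_one.1 ((len_eq_zero M).1 hn)
    rw [h3] at h2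
    exact h2 h1
  | succ n ih =>
    have h3 : y⁻¹ * b ≠ 1 := by
      intro h0
      rw [h0, len_one] at hn
      omega
    obtain ⟨s, hs⟩ := exists_left M h3
    by_cases h4 : γ ∈ Nv M (y * M.simple s)
    · have h5 : γ = T M y (Pi.single s 1) := by
        rcases len_mul_simple M y s with h6 | h6
        · rw [(Nv_up M h6).2] at h4
          rcases h4 with h7 | h7
          · exact h7
          · exact absurd h7 h2
        · exfalso
          refine h2 ?_
          rw [(Nv_down M h6).2]
          exact Set.mem_insert_of_mem _ h4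
      have h6 : t = y * M.simple s * y⁻¹ := by
        refine T_ext M fun x => ?_
        rw [ht, T_conj, h5]
      have h7 : y⁻¹ * t * y = M.simple s := by
        rw [h6]
        group
      rw [h7, len_simple, hn]
      omega
    · have h5 : (y * M.simple s)⁻¹ * b = M.simple s * (y⁻¹ * b) := by
        rw [mul_inv_rev, simple_inv, mul_assoc]
      have h6 : len M ((y * M.simple s)⁻¹ * b) = n := by
        rw [h5]
        omega
      have h7 := ih h4 h6
      rw [h6] at h7
      have h8 : y⁻¹ * t * y =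
          M.simple s * ((y * M.simple s)⁻¹ * t * (y * M.simple s)) * M.simple s := by
        have h9 : M.simple s * M.simple s = 1 := simple_sq M s
        rw [mul_inv_rev, simple_inv]
        calc y⁻¹ * t * y = 1 * (y⁻¹ * t * y) * 1 := by rw [one_mul, mul_one]
          _ = (M.simple s * M.simple s) * (y⁻¹ * t * y) * (M.simple s * M.simple s) := by rw [h9]
          _ = _ := by simp only [mul_assoc]
      rw [h8, hn]
      have h10 := len_mul_le M (M.simple s * ((y * M.simple s)⁻¹ * t * (y * M.simple s)))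
        (M.simple s)
      have h11 := len_mul_le M (M.simple s) ((y * M.simple s)⁻¹ * t * (y * M.simple s))
      rw [len_simple] at h10 h11
      omega

end Pool.Agent.H97.BLD
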