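import Pool.Agent.H97.BLD.Defs

/-!
# Project BLD: basic facts on the geometric representation

All the facts of `H4/FC/TitsPos`, `H78/RC/RootA` in terms of `T`, `len`.
-/

set_option autoImplicit false

open Finset

namespace Pool.Agent.H97.BLD

open Pool.Agent.H4.FC Pool.Agent.H78.RC Pool.Agent.H66.NCL

section len

variable {S : Type}

theorem len_one (M : CoxeterMatrix S) : len M 1 = 0 := M.toCoxeterSystem.length_one

theorem len_inv (M : CoxeterMatrix S) (w : M.Group) : len M w⁻¹ = len M w :=
  M.toCoxeterSystem.length_inv w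

theorem len_mul_le (M : CoxeterMatrix S) (w v : M.Group) : len M (w * v) ≤ len M w + len M v :=
  M.toCoxeterSystem.length_mul_le w v

theorem len_eq_zero (M : CoxeterMatrix S) {w : M.Group} : len M w = 0 ↔ w = 1 :=
  M.toCoxeterSystem.length_eq_zero_iff

theorem len_simple (M : CoxeterMatrix S) (s : S) : len M (M.simple s) = 1 := by
  rw [← M.toCoxeterSystem_simple]
  exact M.toCoxeterSystem.length_simple s

theorem len_mul_simple (M : CoxeterMatrix S) (w : M.Group) (s : S) :
    len M (w * M.simple s) = len M w + 1 ∨ len M (w * M.simple s) + 1 = len M w := by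
  rw [← M.toCoxeterSystem_simple]
  exact M.toCoxeterSystem.length_mul_simple w s

theorem len_simple_mul (M : CoxeterMatrix S) (w : M.Group) (s : S) :
    len M (M.simple s * w) = len M w + 1 ∨ len M (M.simple s * w) + 1 = len M w := by
  rw [← M.toCoxeterSystem_simple]
  exact M.toCoxeterSystem.length_simple_mul w s

/-- a nontrivial element has a right descent -/
theorem exists_right (M : CoxeterMatrix S) {w : M.Group} (hw : w ≠ 1) :
    ∃ s, len M (w * M.simple s) + 1 = len M w := by
  obtain ⟨s, hs⟩ := M.toCoxeterSystem.exists_rightDescent_of_ne_one hw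
  refine ⟨s, ?_⟩
  unfold CoxeterSystem.IsRightDescent at hs
  rw [M.toCoxeterSystem_simple] at hs
  rcases len_mul_simple M w s with h | h
  · unfold len at h
    omega
  · exact h

/-- a nontrivial element has a left descent -/
theorem exists_left (M : CoxeterMatrix S) {w : M.Group} (hw : w ≠ 1) :
    ∃ s, len M (M.simple s * w) + 1 = len M w := by
  obtain ⟨s, hs⟩ := exists_right M (w := w⁻¹) (fun h => hw (inv_eq_one.1 h))
  refine ⟨s, ?_⟩
  rw [← len_inv M (M.simple s * w), mul_inv_rev, simple_inv, hs, len_inv]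

/-- induction on the length -/
theorem len_finite (M : CoxeterMatrix S) [Finite S] (n : ℕ) : {w : M.Group | len M w ≤ n}.Finite := by
  induction n with
  | zero =>
    refine (Set.finite_singleton (1 : M.Group)).subset ?_
    intro w hw
    exact (len_eq_zero M).1 (Nat.le_zero.1 hw)
  | succ n ih =>
    refine ((Set.finite_singleton (1 : M.Group)).union
      (Set.finite_iUnion fun s : S => ih.image fun w => w * M.simple s)).subset ?_
    intro w hw
    by_cases h1 : w = 1
    · left; exact h1
    · right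
      obtain ⟨s, hs⟩ := exists_right M h1
      refine Set.mem_iUnion.2 ⟨s, w * M.simple s, ?_, ?_⟩
      · simp only [Set.mem_setOf_eq] at hw ⊢
        omega
      · show w * M.simple s * M.simple s = w
        rw [mul_assoc, simple_sq, mul_one]

end len

variable {S : Type} [Fintype S] [DecidableEq S] (M : CoxeterMatrix S)

theorem T_one (x : S → ℝ) : T M 1 x = x := by
  unfold T
  rw [map_one, Matrix.one_mulVec]

theorem T_mul (w v : M.Group) (x : S → ℝ) : T M (w * v) x = T M w (T M v x) := by
  unfold T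
  rw [map_mul, Matrix.mulVec_mulVec]

theorem T_inv_T (w : M.Group) (x : S → ℝ) : T M w⁻¹ (T M w x) = x := by
  rw [← T_mul, inv_mul_cancel, T_one]

theorem T_T_inv (w : M.Group) (x : S → ℝ) : T M w (T M w⁻¹ x) = x := by
  rw [← T_mul, mul_inv_cancel, T_one]

theorem T_add (w : M.Group) (x y : S → ℝ) : T M w (x + y) = T M w x + T M w y :=
  Matrix.mulVec_add _ _ _

theorem T_sub (w : M.Group) (x y : S → ℝ) : T M w (x - y) = T M w x - T M w y :=
  Matrix.mulVec_sub _ _ _

theorem T_neg (w : M.Group) (x : S → ℝ) : T M w (-x) = -T M w x :=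
  Matrix.mulVec_neg _ _

theorem T_zero (w : M.Group) : T M w 0 = 0 := Matrix.mulVec_zero _

theorem T_smul (w : M.Group) (c : ℝ) (x : S → ℝ) : T M w (c • x) = c • T M w x :=
  Matrix.mulVec_smul _ _ _

theorem T_sum {ι : Type*} (w : M.Group) (A : Finset ι) (f : ι → S → ℝ) :
    T M w (∑ i ∈ A, f i) = ∑ i ∈ A, T M w (f i) := by
  classical
  induction A using Finset.induction_on with
  | empty => simp [T_zero]
  | insert a A ha ih => rw [sum_insert ha, sum_insert ha, T_add, ih]

theorem T_apply (w : M.Group) (x : S → ℝ) (i : S) :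
    T M w x i = ∑ j, x j * T M w (Pi.single j 1) i := by
  unfold T
  rw [Matrix.mulVec, dotProduct]
  refine Finset.sum_congr rfl fun j _ => ?_
  rw [Matrix.mulVec_single_one, mul_comm]
  rfl

theorem T_eq_sum (w : M.Group) (x : S → ℝ) : T M w x = ∑ j, x j • T M w (Pi.single j 1) := by
  funext i
  rw [T_apply, Finset.sum_apply]
  rfl

theorem T_simple (s : S) (x : S → ℝ) :
    T M (M.simple s) x = x - bf (kR M) (Pi.single s 1) x • (Pi.single s 1 : S → ℝ) := by
  unfold T
  have h := titsHom_simple M s
  rw [M.toCoxeterSystem_simple] at h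
  rw [h, refl_mulVec, bf_single_left]

theorem T_simple_self (s : S) :
    T M (M.simple s) (Pi.single s 1) = -(Pi.single s 1 : S → ℝ) := by
  rw [T_simple, bf_single, kR_self]
  module

theorem T_simple_apply (s i : S) (hi : i ≠ s) (x : S → ℝ) : T M (M.simple s) x i = x i := by
  rw [T_simple, Pi.sub_apply, Pi.smul_apply, Pi.single_eq_of_ne hi, smul_zero, sub_zero]

theorem bf_T (w : M.Group) (x y : S → ℝ) :
    bf (kR M) (T M w x) (T M w y) = bf (kR M) x y := bf_tits M w x y

theorem bf_T_left (w : M.Group) (x y : S → ℝ) :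
    bf (kR M) (T M w x) y = bf (kR M) x (T M w⁻¹ y) := by
  rw [← bf_T M w x (T M w⁻¹ y), T_T_inv]

theorem bf_symm' (x y : S → ℝ) : bf (kR M) x y = bf (kR M) y x := bf_comm (kR_symm M) x y

/-- the reflection in the root `T w (e s)` -/
theorem T_conj (w : M.Group) (s : S) (x : S → ℝ) :
    T M (w * M.simple s * w⁻¹) x =
      x - bf (kR M) (T M w (Pi.single s 1)) x • T M w (Pi.single s 1) := tits_conj M w s x

theorem T_par {J : Finset S} {w : M.Group} (hw : w ∈ par M J) (x : S → ℝ) {i : S} (hi : i ∉ J) :
    T M w x i = x i := tits_par M hw x hi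

/-- a group element is determined by its action -/
theorem T_ext {w v : M.Group} (h : ∀ x, T M w x = T M v x) : w = v := rf_unique M h

/-- the same, on the simple roots -/
theorem T_ext' {w v : M.Group} (h : ∀ s, T M w (Pi.single s 1) = T M v (Pi.single s 1)) :
    w = v := by
  refine T_ext M fun x => ?_
  rw [T_eq_sum, T_eq_sum M v]
  exact sum_congr rfl fun j _ => by rw [h j]

/-! ### Roots -/

theorem isRoot_T {β : S → ℝ} (h : IsRoot M β) (w : M.Group) : IsRoot M (T M w β) := by
  obtain ⟨v, s, rfl⟩ := h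
  exact ⟨w * v, s, (T_mul M w v _).symm⟩

theorem isRoot_simple (s : S) : IsRoot M (Pi.single s 1) := ⟨1, s, (T_one M _).symm⟩

theorem isRoot_neg {β : S → ℝ} (h : IsRoot M β) : IsRoot M (-β) := by
  obtain ⟨v, s, rfl⟩ := h
  refine ⟨v * M.simple s, s, ?_⟩
  rw [T_mul, T_simple_self, T_neg]

theorem root_norm {β : S → ℝ} (h : IsRoot M β) : bf (kR M) β β = 2 := by
  obtain ⟨v, s, rfl⟩ := h
  rw [bf_T, bf_single, kR_self]

theorem root_ne_zero {β : S → ℝ} (h : IsRoot M β) : β ≠ 0 := by
  rintro rfl
  have h1 := root_norm M h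
  unfold bf at h1
  simp at h1

theorem root_sign {β : S → ℝ} (h : IsRoot M β) : (∀ i, 0 ≤ β i) ∨ (∀ i, β i ≤ 0) := by
  obtain ⟨v, s, rfl⟩ := h
  exact tits_sign M v s

theorem root_not_neg {β : S → ℝ} (h : IsRoot M β) (h0 : ∀ i, 0 ≤ β i) : ¬ ∀ i, β i ≤ 0 :=
  fun h1 => root_ne_zero M h (funext fun i => le_antisymm (h1 i) (h0 i))

theorem single_nonneg (s i : S) : 0 ≤ (Pi.single s 1 : S → ℝ) i := by
  by_cases hi : i = s
  · rw [hi, Pi.single_eq_same]; exact zero_le_one
  · rw [Pi.single_eq_of_ne hi]

/-- a positive root of which all coordinates outside `s` vanish is simple -/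
theorem root_eq_single {β : S → ℝ} (h : IsRoot M β) (h0 : ∀ i, 0 ≤ β i) {s : S}
    (h1 : ∀ i, i ≠ s → β i = 0) : β = Pi.single s 1 := by
  have h2 : β = β s • (Pi.single s 1 : S → ℝ) := by
    funext i
    rw [Pi.smul_apply, smul_eq_mul]
    by_cases hi : i = s
    · rw [hi, Pi.single_eq_same, mul_one]
    · rw [Pi.single_eq_of_ne hi, mul_zero, h1 i hi]
  have h3 : β s = 1 := by
    have h4 := root_norm M h
    rw [h2, bf_smul_left, bf_smul_right, bf_single, kR_self] at h4
    nlinarith [h0 s]
  rw [h3, one_smul] at h2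
  exact h2

/-- a simple reflection permutes the other positive roots -/
theorem simple_pos {β : S → ℝ} (h : IsRoot M β) (h0 : ∀ i, 0 ≤ β i) {s : S}
    (hs : β ≠ Pi.single s 1) (i : S) : 0 ≤ T M (M.simple s) β i := by
  rcases root_sign M (isRoot_T M h (M.simple s)) with h1 | h1
  · exact h1 i
  · exfalso
    refine hs (root_eq_single M h h0 fun j hj => ?_)
    have h2 := h1 j
    rw [T_simple_apply M s j hj] at h2
    exact le_antisymm h2 (h0 j)

/-! ### Length and signs -/

/-- `ℓ (w s) > ℓ w` iff `w α_s > 0` -/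
theorem len_up_iff (w : M.Group) (s : S) :
    len M (w * M.simple s) = len M w + 1 ↔ ∀ i, 0 ≤ T M w (Pi.single s 1) i := by
  have h1 := descent_iff M w s
  unfold CoxeterSystem.IsRightDescent at h1
  rw [M.toCoxeterSystem_simple] at h1
  have h2 := len_mul_simple M w s
  constructor
  · intro h
    rcases tits_sign M w s with h3 | h3
    · exact h3
    · exfalso
      have h4 := h1.2 h3
      unfold len at h
      omega
  · intro h
    rcases h2 with h3 | h3
    · exact h3
    · exfalso
      refine root_not_neg M ⟨w, s, rfl⟩ h (h1.1 ?_)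
      unfold len at h3
      omega

/-- `ℓ (w s) < ℓ w` iff `w α_s < 0` -/
theorem len_down_iff (w : M.Group) (s : S) :
    len M (w * M.simple s) + 1 = len M w ↔ ∀ i, T M w (Pi.single s 1) i ≤ 0 := by
  constructor
  · intro h
    rcases tits_sign M w s with h3 | h3
    · have h4 := (len_up_iff M w s).2 h3
      omega
    · exact h3
  · intro h
    rcases len_mul_simple M w s with h3 | h3
    · exact absurd h (root_not_neg M ⟨w, s, rfl⟩ ((len_up_iff M w s).1 h3))
    · exact h3

theorem len_up_iff' (w : M.Group) (s : S) :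
    len M (M.simple s * w) = len M w + 1 ↔ ∀ i, 0 ≤ T M w⁻¹ (Pi.single s 1) i := by
  rw [← len_up_iff, ← len_inv M (M.simple s * w), mul_inv_rev, simple_inv, len_inv M w]

theorem len_down_iff' (w : M.Group) (s : S) :
    len M (M.simple s * w) + 1 = len M w ↔ ∀ i, T M w⁻¹ (Pi.single s 1) i ≤ 0 := by
  rw [← len_down_iff, ← len_inv M (M.simple s * w), mul_inv_rev, simple_inv, len_inv M w]

/-- the height under a simple reflection -/
theorem ht_simple (s : S) (x : S → ℝ) :
    ht (T M (M.simple s) x) = ht x - bf (kR M) (Pi.single s 1) x := by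
  rw [T_simple]
  unfold ht
  simp only [Pi.sub_apply, Pi.smul_apply, smul_eq_mul, Pi.single_apply, mul_ite, mul_one,
    mul_zero, sum_sub_distrib, sum_ite_eq', mem_univ, if_true]

end Pool.Agent.H97.BLD
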