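import Pool.Agent.H97.BLD.Act

/-!
# Project BLD: symmetry of the Weyl distance

Only the axioms and the length are used (no geometric representation).

* `symm_simple`: if `δ c d = s` then `step` for `(c := d) (c' := c) (d := c)`: `δ c c = s * δ d c` or `δ c c = δ d c`, and
  `δ c c = 1`. The second case gives `d = c`, `δ c d = 1 ≠ s` (`len_simple`).
* `symm`: **Claim**: if `len ((δ c d)⁻¹ * δ c b) = len (δ c d) + len (δ c b)` then `δ d b = (δ c d)⁻¹ * δ c b`. Induction on
  `n = len (δ c d)`, for all `c`. `n = 0` clear (`eq_one`). `δ c d = s w'` (`exists_left`), `c'` with `δ c' c = s`,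
  `δ c' d = s * δ c d = w'` (`exists_step`); `δ c' b = s * δ c b` by `step_up` (`len (s * δ c b) = len (δ c b) + 1` since
  `w'⁻¹ * (s * δ c b)` has length `n + len (δ c b)` and `len w' = n - 1`); the claim for `c'` gives
  `δ d b = w'⁻¹ * s * δ c b`. With `b = c` (`δ c c = 1`): `δ d c = (δ c d)⁻¹`.
* `stepR`, `stepR_up`, `exists_stepR`: from `symm`, `simple_inv`.
-/

set_option autoImplicit false

open Finset

namespace Pool.Agent.H97.BLD

open Pool.Agent.H4.FC Pool.Agent.H78.RC Pool.Agent.H66.NCL

universe v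

variable {S : Type} {M : CoxeterMatrix S} {Δ : Type v} {δ : Δ → Δ → M.Group}

theorem IsBuilding.self (h : IsBuilding M δ) (c : Δ) : δ c c = 1 := (h.eq_one c c).2 rfl

theorem IsBuilding.symm_simple (h : IsBuilding M δ) {c d : Δ} {s : S} (hs : δ c d = M.simple s) :
    δ d c = M.simple s := by
  rcases h.step s d c c hs with h1 | h1
  · rw [h.self] at h1
    rw [eq_comm, mul_eq_one_iff_inv_eq, simple_inv] at h1
    exact h1.symm
  · exfalso
    rw [h.self] at h1
    have h2 : d = c := (h.eq_one d c).1 h1.symm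
    rw [h2, h.self] at hs
    have h3 := len_simple M s
    rw [← hs, len_one] at h3
    omega

private theorem IsBuilding.bdA_claim (h : IsBuilding M δ) (d b : Δ) : ∀ (n : ℕ) (c : Δ), len M (δ c d) = n →
    len M ((δ c d)⁻¹ * δ c b) = len M (δ c d) + len M (δ c b) → δ d b = (δ c d)⁻¹ * δ c b := by
  intro n
  induction n with
  | zero =>
    intro c hc _
    have h1 : δ c d = 1 := (len_eq_zero M).1 hc
    have h2 : c = d := (h.eq_one c d).1 h1
    rw [h1, inv_one, one_mul, h2]
  | succ n ih =>
    intro c hc hl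
    have h1 : δ c d ≠ 1 := by
      intro h1
      rw [h1, len_one] at hc
      omega
    obtain ⟨s, hs⟩ := exists_left M h1
    obtain ⟨c', e1, e2⟩ := h.exists_step s c d
    have e3 : (δ c' d)⁻¹ * (M.simple s * δ c b) = (δ c d)⁻¹ * δ c b := by
      rw [e2, mul_inv_rev, mul_assoc, inv_mul_cancel_left]
    have h2 : len M (M.simple s * δ c b) = len M (δ c b) + 1 := by
      rcases len_simple_mul M (δ c b) s with h2 | h2
      · exact h2
      · exfalso
        have h3 := len_mul_le M (δ c' d)⁻¹ (M.simple s * δ c b)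
        rw [e3, hl, len_inv, e2] at h3
        omega
    have e4 : δ c' b = M.simple s * δ c b := h.step_up s c c' b e1 h2
    have h3 := ih c' (by rw [e2]; omega) (by rw [e4, e3, hl, h2, e2]; omega)
    rw [h3, e4, e3]

theorem IsBuilding.symm (h : IsBuilding M δ) (c d : Δ) : δ d c = (δ c d)⁻¹ := by
  have h1 := h.bdA_claim d c (len M (δ c d)) c rfl (by rw [h.self, mul_one, len_inv, len_one, add_zero])
  rwa [h.self, mul_one] at h1

theorem IsBuilding.stepR (h : IsBuilding M δ) {s : S} {a b b' : Δ} (hs : δ b b' = M.simple s) :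
    δ a b' = δ a b * M.simple s ∨ δ a b' = δ a b := by
  rcases h.step s b b' a (h.symm_simple hs) with h1 | h1
  · left
    rw [h.symm b' a, h1, mul_inv_rev, simple_inv, h.symm b a]
  · right
    rw [h.symm b' a, h1, h.symm b a]

theorem IsBuilding.stepR_up (h : IsBuilding M δ) {s : S} {a b b' : Δ} (hs : δ b b' = M.simple s)
    (hl : len M (δ a b * M.simple s) = len M (δ a b) + 1) : δ a b' = δ a b * M.simple s := by
  have h1 := h.step_up s b b' a (h.symm_simple hs) (by
    rw [← len_inv M (M.simple s * δ b a), mul_inv_rev, simple_inv, ← h.symm b a, hl, h.symm b a, len_inv])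
  rw [h.symm b' a, h1, mul_inv_rev, simple_inv, h.symm b a]

theorem IsBuilding.exists_stepR (h : IsBuilding M δ) (s : S) (a b : Δ) :
    ∃ b', δ b b' = M.simple s ∧ δ a b' = δ a b * M.simple s := by
  obtain ⟨b', h1, h2⟩ := h.exists_step s b a
  exact ⟨b', h.symm_simple h1, by rw [h.symm b' a, h2, mul_inv_rev, simple_inv, h.symm b a]⟩

end Pool.Agent.H97.BLD
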