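import Pool.Agent.H97.BLD.LowA

/-!
# Project BLD: common lower bounds of sets in the weak order

* `exists_lower_set`: `X` is finite, with at most `N` elements (the number of elements of the ball of radius `R`). For
  a list of `m` elements at mutual distance `≤ R` there is a common lower bound at distance `≤ F_m` from all of them:
  induction on `m`: `v ≤ w_1, …, w_m`; `exists_lower` for `v`, `w_{m+1}` with `len (v⁻¹ w_{m+1}) ≤ F_m + R` gives `v' ≤ v, w_{m+1}`.
  Put `F = max_{m ≤ N} F_m` (or take `F_m` monotone).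
-/

set_option autoImplicit false

open Finset

namespace Pool.Agent.H97.BLD

open Pool.Agent.H4.FC Pool.Agent.H78.RC Pool.Agent.H66.NCL

variable {S : Type} [Fintype S] [DecidableEq S] (M : CoxeterMatrix S)

omit [Fintype S] [DecidableEq S] in
private theorem low_dist (u v w : M.Group) : len M (u⁻¹ * w) ≤ len M (u⁻¹ * v) + len M (v⁻¹ * w) := by
  have h := len_mul_le M (u⁻¹ * v) (v⁻¹ * w)
  have h1 : u⁻¹ * v * (v⁻¹ * w) = u⁻¹ * w := by group
  rwa [h1] at h

omit [Fintype S] [DecidableEq S] in
private theorem low_refl (w : M.Group) : Le M w w := by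
  unfold Le
  rw [inv_mul_cancel, len_one, add_zero]

private theorem low_card (R m : ℕ) : ∃ F : ℕ, ∀ X : Finset M.Group, X.card ≤ m →
    (∀ w ∈ X, ∀ w' ∈ X, len M (w⁻¹ * w') ≤ R) →
      ∃ v, ∀ w ∈ X, Le M v w ∧ len M (v⁻¹ * w) ≤ F := by
  classical
  induction m with
  | zero =>
    refine ⟨0, fun X hX _ => ⟨1, fun w hw => ?_⟩⟩
    rw [card_eq_zero.1 (Nat.le_zero.1 hX)] at hw
    exact absurd hw (notMem_empty w)
  | succ m ih =>
    obtain ⟨F, hF⟩ := ih
    obtain ⟨G, hG⟩ := exists_lower M (F + R)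
    refine ⟨G + F + R, fun X hX hR => ?_⟩
    rcases X.eq_empty_or_nonempty with h0 | ⟨a, ha⟩
    · refine ⟨1, fun w hw => ?_⟩
      rw [h0] at hw
      exact absurd hw (notMem_empty w)
    · have hY : (X.erase a).card ≤ m := by
        rw [card_erase_of_mem ha]
        omega
      obtain ⟨v, hv⟩ := hF (X.erase a) hY fun w hw w' hw' =>
        hR w (mem_of_mem_erase hw) w' (mem_of_mem_erase hw')
      rcases (X.erase a).eq_empty_or_nonempty with h1 | ⟨b, hb⟩
      · refine ⟨a, fun w hw => ?_⟩
        have h2 : w = a := by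
          by_contra h3
          have h4 := mem_erase.2 ⟨h3, hw⟩
          rw [h1] at h4
          exact absurd h4 (notMem_empty w)
        rw [h2]
        refine ⟨low_refl M a, ?_⟩
        rw [inv_mul_cancel, len_one]
        exact Nat.zero_le _
      · have h2 := low_dist M v b a
        have h3 := (hv b hb).2
        have h4 := hR b (mem_of_mem_erase hb) a ha
        obtain ⟨v', h5, h6, h7⟩ := hG v a (by omega)
        refine ⟨v', fun w hw => ?_⟩
        by_cases hwa : w = a
        · rw [hwa]
          have h8 := low_dist M v' v a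
          exact ⟨h6, by omega⟩
        · obtain ⟨h8, h9⟩ := hv w (mem_erase.2 ⟨hwa, hw⟩)
          have h10 := low_dist M v' v w
          exact ⟨le_trans' M h5 h8, by omega⟩

theorem exists_lower_set (R : ℕ) : ∃ F : ℕ, ∀ X : Set M.Group,
    (∀ w ∈ X, ∀ w' ∈ X, len M (w⁻¹ * w') ≤ R) →
      ∃ v, ∀ w ∈ X, Le M v w ∧ len M (v⁻¹ * w) ≤ F := by
  classical
  obtain ⟨B, hB⟩ : ∃ B : Finset M.Group, B = (len_finite M R).toFinset := ⟨_, rfl⟩
  obtain ⟨F, hF⟩ := low_card M R B.card
  refine ⟨F, fun X hX => ?_⟩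
  rcases X.eq_empty_or_nonempty with h0 | ⟨a, ha⟩
  · refine ⟨1, fun w hw => ?_⟩
    rw [h0] at hw
    exact absurd hw (Set.notMem_empty w)
  · have h1 : X ⊆ ((B.image fun w => a * w : Finset M.Group) : Set M.Group) := by
      intro w hw
      rw [mem_coe, mem_image]
      refine ⟨a⁻¹ * w, ?_, mul_inv_cancel_left a w⟩
      rw [hB, Set.Finite.mem_toFinset]
      exact hX a ha w hw
    have h2 : X.Finite := (finite_toSet _).subset h1
    have h3 : h2.toFinset ⊆ B.image fun w => a * w := by
      intro w hw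
      exact h1 (h2.mem_toFinset.1 hw)
    obtain ⟨v, hv⟩ := hF h2.toFinset ((card_le_card h3).trans card_image_le) fun w hw w' hw' =>
      hX w (h2.mem_toFinset.1 hw) w' (h2.mem_toFinset.1 hw')
    exact ⟨v, fun w hw => hv w (h2.mem_toFinset.2 hw)⟩

end Pool.Agent.H97.BLD
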