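import Pool.Agent.H97.BLD.Defs

/-!
# Project BLD: the sublevel argument, abstract form

Let `Q t` be: for all `x`, `ν ∈ K` the set `{g ∈ H | a g x ⬝ᵥ ν ≤ t}` has `P`. `Q t` for `t < 0` (the set is empty:
`a, ν ≥ 0`), and `Q` is monotone. Suppose `Q` fails somewhere; `t* = sup {t | Q t}` is finite (`K` nonempty).
* `step`: if `ν ∈ K` and `t - gap ν < t*` then `{g ∈ H | a g x ⬝ᵥ ν ≤ t}` has `P`, for all `x`: `hP.cosets` with
  `L = L x ν`; for `E` let `Z` be the union over `e ∈ E`, `e ∈ H`, `e ∉ L` of the sets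
  `{g ∈ H | a g x' ⬝ᵥ ν' ≤ t - gap ν}` (`x', ν'` from `hmid`), a finite union of sets with `P` since `Q (t - gap ν)` holds
  (`hP.union`, `hP.empty`). If `g`, `g e` are in the set, `e ∈ E`, `e ∉ L`, then `e ∈ H` and `hmid` gives `g ∈ Z`.
* For `ν ∈ K` choose `η > 0` with `(1 + η) (t* + gap ν / 2) < t* + gap ν` (`t* ≥ 0`). The set `U ν` of all `ν'` with
  `ν s ≤ (1 + η) ν' s` for all `s` with `ν s > 0` is a neighbourhood of `ν` (finitely many strict inequalities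
  `ν s < (1 + η) ν' s`). For `ν' ∈ K ∩ U ν` and `t' ≤ t* + gap ν / 2`: `a g x ⬝ᵥ ν' ≤ t'` implies
  `a g x ⬝ᵥ ν ≤ (1 + η) t' < t* + gap ν`, so `{g ∈ H | a g x ⬝ᵥ ν' ≤ t'}` has `P` by `step` and `hP.mono`.
* Compactness of `K`: finitely many `U ν_i` cover `K`; with `c = min gap ν_i / 2 > 0`, `Q (t* + c)` holds,
  contradiction.
-/

set_option autoImplicit false

open Finset

namespace Pool.Agent.H97.BLD

universe u v

theorem abs_T {G : Type u} [Group G] {P : Set G → Prop} (hP : Good P) {X : Type v} {S : Type}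
    [Fintype S] (H : Subgroup G) (a : G → X → S → ℝ) (ha : ∀ g x s, 0 ≤ a g x s)
    (K : Set (S → ℝ)) (hK : IsCompact K) (hK0 : ∀ ν ∈ K, ∀ s, 0 ≤ ν s)
    (L : X → (S → ℝ) → Subgroup G) (hL : ∀ x, ∀ ν ∈ K, P (L x ν : Set G))
    (hLH : ∀ x, ∀ ν ∈ K, L x ν ≤ H)
    (hLa : ∀ x, ∀ ν ∈ K, ∀ g ∈ H, ∀ l ∈ L x ν, a (g * l) x ⬝ᵥ ν = a g x ⬝ᵥ ν)
    (gap : (S → ℝ) → ℝ) (hgap : ∀ ν ∈ K, 0 < gap ν)
    (hmid : ∀ x, ∀ ν ∈ K, ∀ e ∈ H, e ∉ L x ν → ∃ x', ∃ ν' ∈ K, ∀ g ∈ H,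
      a g x' ⬝ᵥ ν' ≤ (a g x ⬝ᵥ ν + a (g * e) x ⬝ᵥ ν) / 2 - gap ν)
    (t : ℝ) (x : X) (ν : S → ℝ) (hν : ν ∈ K) : P {g | g ∈ H ∧ a g x ⬝ᵥ ν ≤ t} := by
  classical
  by_contra hcon
  have hmono : ∀ t t' : ℝ, t' ≤ t → (∀ x, ∀ ν ∈ K, P {g | g ∈ H ∧ a g x ⬝ᵥ ν ≤ t}) →
      ∀ x, ∀ ν ∈ K, P {g | g ∈ H ∧ a g x ⬝ᵥ ν ≤ t'} := by
    intro t t' htt h x ν hν
    refine hP.mono _ _ ?_ (h x ν hν)
    rintro g ⟨hg, hg2⟩
    exact ⟨hg, hg2.trans htt⟩
  have hneg : ∀ t : ℝ, t < 0 → ∀ x, ∀ ν ∈ K, P {g | g ∈ H ∧ a g x ⬝ᵥ ν ≤ t} := by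
    intro t ht x ν hν
    refine hP.mono _ _ ?_ hP.empty
    rintro g ⟨-, hg⟩
    have h0 : 0 ≤ a g x ⬝ᵥ ν :=
      Finset.sum_nonneg fun s _ => mul_nonneg (ha g x s) (hK0 ν hν s)
    exact absurd (h0.trans hg) (not_le.mpr ht)
  set A : Set ℝ := {t | ∀ x, ∀ ν ∈ K, P {g | g ∈ H ∧ a g x ⬝ᵥ ν ≤ t}} with hA
  have hbdd : BddAbove A := by
    refine ⟨t, fun t' ht' => ?_⟩
    by_contra hlt
    exact hcon (hmono t' t (not_le.mp hlt).le ht' x ν hν)
  have hne : A.Nonempty := ⟨-1, hneg (-1) (by norm_num)⟩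
  set T0 : ℝ := sSup A with hT0
  have hlt : ∀ t, t < T0 → t ∈ A := by
    intro t ht
    obtain ⟨t', ht', htt⟩ := exists_lt_of_lt_csSup hne ht
    exact hmono t' t htt.le ht'
  have hT0nn : 0 ≤ T0 := by
    refine le_of_forall_lt fun t ht => ?_
    obtain ⟨t', h1, h2⟩ := exists_between ht
    exact h1.trans_le (le_csSup hbdd (hneg t' h2))
  -- the step
  have hstep : ∀ ν ∈ K, ∀ t, t - gap ν < T0 → ∀ x, P {g | g ∈ H ∧ a g x ⬝ᵥ ν ≤ t} := by
    intro ν hν t ht x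
    refine hP.cosets (L x ν) _ (hL x ν hν) ?_ ?_
    · rintro y ⟨hy, hy2⟩ l hl
      refine ⟨H.mul_mem hy (hLH x ν hν hl), ?_⟩
      rw [hLa x ν hν y hy l hl]
      exact hy2
    · intro E
      induction E using Finset.induction_on with
      | empty => exact ⟨∅, hP.empty, fun y _ e he => absurd he (Finset.notMem_empty e)⟩
      | insert e0 E _ ih =>
        obtain ⟨Z, hZ, hZ2⟩ := ih
        by_cases he0 : e0 ∈ H ∧ e0 ∉ L x ν
        · obtain ⟨x', ν', hν', hx'⟩ := hmid x ν hν e0 he0.1 he0.2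
          refine ⟨Z ∪ {g | g ∈ H ∧ a g x' ⬝ᵥ ν' ≤ t - gap ν},
            hP.union _ _ hZ (hlt _ ht x' ν' hν'), ?_⟩
          intro y hy e he heL hye
          rcases Finset.mem_insert.mp he with rfl | he
          · refine Or.inr ⟨hy.1, (hx' y hy.1).trans ?_⟩
            have h1 := hy.2
            have h2 := hye.2
            linarith
          · exact Or.inl (hZ2 y hy e he heL hye)
        · refine ⟨Z, hZ, ?_⟩
          intro y hy e he heL hye
          rcases Finset.mem_insert.mp he with rfl | he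
          · exfalso
            refine he0 ⟨?_, heL⟩
            have := H.mul_mem (H.inv_mem hy.1) hye.1
            rwa [inv_mul_cancel_left] at this
          · exact hZ2 y hy e he heL hye
  -- compactness
  have hcomp : ∃ c : ℝ, 0 < c ∧ ∀ ν' ∈ K, ν' ∈ K → ∀ x,
      P {g | g ∈ H ∧ a g x ⬝ᵥ ν' ≤ T0 + c} := by
    refine hK.induction_on (p := fun U => ∃ c : ℝ, 0 < c ∧ ∀ ν' ∈ U, ν' ∈ K → ∀ x,
      P {g | g ∈ H ∧ a g x ⬝ᵥ ν' ≤ T0 + c}) ?_ ?_ ?_ ?_
    · exact ⟨1, one_pos, fun ν' h => absurd h (Set.notMem_empty ν')⟩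
    · rintro U V hUV ⟨c, hc, h⟩
      exact ⟨c, hc, fun ν' hν' => h ν' (hUV hν')⟩
    · rintro U V ⟨c, hc, h⟩ ⟨c', hc', h'⟩
      refine ⟨min c c', lt_min hc hc', ?_⟩
      rintro ν' (hν' | hν') hνK x
      · refine hP.mono _ _ ?_ (h ν' hν' hνK x)
        rintro g ⟨hg, hg2⟩
        exact ⟨hg, hg2.trans (by linarith [min_le_left c c'])⟩
      · refine hP.mono _ _ ?_ (h' ν' hν' hνK x)
        rintro g ⟨hg, hg2⟩
        exact ⟨hg, hg2.trans (by linarith [min_le_right c c'])⟩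
    · intro ν hν
      have hg := hgap ν hν
      obtain ⟨η, hη, hη2⟩ : ∃ η : ℝ, 0 < η ∧ (1 + η) * (T0 + gap ν / 2) < T0 + gap ν := by
        refine ⟨gap ν / (4 * (T0 + gap ν)), by positivity, ?_⟩
        have h4 : 0 < 4 * (T0 + gap ν) := by positivity
        have h5 : gap ν / (4 * (T0 + gap ν)) * (T0 + gap ν / 2) ≤ gap ν / 4 := by
          rw [div_mul_eq_mul_div, div_le_iff₀ h4]
          nlinarith
        nlinarith
      refine ⟨{ν' | ∀ s, 0 < ν s → ν s < (1 + η) * ν' s}, mem_nhdsWithin_of_mem_nhds ?_, gap ν / 2,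
        by linarith, ?_⟩
      · have hopen : IsOpen {ν' : S → ℝ | ∀ s, 0 < ν s → ν s < (1 + η) * ν' s} := by
          simp only [Set.ofPred_forall]
          refine isOpen_iInter_of_finite fun s => isOpen_iInter_of_finite fun _ => ?_
          exact isOpen_lt continuous_const (continuous_const.mul (continuous_apply s))
        refine hopen.mem_nhds ?_
        intro s hs
        nlinarith
      · intro ν' hν' hν'K x
        refine hP.mono _ _ ?_ (hstep ν hν ((1 + η) * (T0 + gap ν / 2)) (by linarith) x)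
        rintro g ⟨hgH, hg2⟩
        refine ⟨hgH, ?_⟩
        have h1 : a g x ⬝ᵥ ν ≤ (1 + η) * (a g x ⬝ᵥ ν') := by
          simp only [dotProduct, Finset.mul_sum]
          refine Finset.sum_le_sum fun s _ => ?_
          have hs : ν s ≤ (1 + η) * ν' s := by
            rcases (hK0 ν hν s).lt_or_eq with h | h
            · exact (hν' s h).le
            · rw [← h]
              exact mul_nonneg (by linarith) (hK0 ν' hν'K s)
          calc a g x s * ν s ≤ a g x s * ((1 + η) * ν' s) :=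
                mul_le_mul_of_nonneg_left hs (ha g x s)
            _ = (1 + η) * (a g x s * ν' s) := by ring
        exact h1.trans (mul_le_mul_of_nonneg_left hg2 (by linarith))
  obtain ⟨c, hc, h⟩ := hcomp
  have : T0 + c ∈ A := fun x ν hν => h ν hν hν x
  have := le_csSup hbdd this
  linarith

end Pool.Agent.H97.BLD
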