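import Pool.Agent.H97.BLD.Wk

/-!
# Project BLD: elements with short conjugates of the generators

Map `a` to the family `(a⁻¹ t a)_{t ∈ J}` of elements of the finite ball (`len_finite`): there are finitely many families. If
`a`, `a'` have the same family then `c = a' a⁻¹ ∈ W_J` commutes with all `t ∈ J`. Then `c α_t = ± α_t` for `t ∈ J`: the
reflection in `c α_t` is `c t c⁻¹ = t` (`T_conj`), so `bf (c α_t) x • c α_t = bf α_t x • α_t` for all `x`; with `x = α_t` both are
proportional, norm `2` (cf. `root_unique` after a choice of sign). `c ∈ W_J` is determined by the signs: if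
`c α_t = c' α_t` for all `t ∈ J` then `d = c⁻¹ c' ∈ W_J` fixes all `α_t`, `t ∈ J`, so no `s ∈ J` is a right descent of `d`
(`len_down_iff`, `root_not_neg`), no `s ∉ J` either (`descent_par`), so `d = 1` (`exists_right`). So the fibres of the map are
finite (at most `2^|J|` elements).
-/

set_option autoImplicit false

open Finset

namespace Pool.Agent.H97.BLD

open Pool.Agent.H4.FC Pool.Agent.H78.RC Pool.Agent.H66.NCL

variable {S : Type} [Fintype S] [DecidableEq S] (M : CoxeterMatrix S)

private theorem cenF_sign {c : M.Group} {t : S} (hc : c * M.simple t * c⁻¹ = M.simple t) :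
    T M c (Pi.single t 1) = Pi.single t 1 ∨ T M c (Pi.single t 1) = -Pi.single t 1 := by
  have h1 := T_conj M c t (Pi.single t 1)
  rw [hc, T_simple_self] at h1
  have h2 : bf (kR M) (T M c (Pi.single t 1)) (T M c (Pi.single t 1)) = 2 :=
    root_norm M ⟨c, t, rfl⟩
  have h3 : bf (kR M) (Pi.single t 1) (Pi.single t 1) = 2 := root_norm M (isRoot_simple M t)
  generalize T M c (Pi.single t 1) = β at h1 h2 ⊢
  generalize (Pi.single t 1 : S → ℝ) = α at h1 h3 ⊢
  generalize bf (kR M) β α = x at h1
  have h4 : x • β = (2 : ℝ) • α := by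
    have h5 : x • β = α - (α - x • β) := by abel
    rw [h5, ← h1]
    module
  have h6 : x * x = 4 := by
    have h7 : bf (kR M) (x • β) (x • β) = bf (kR M) ((2 : ℝ) • α) ((2 : ℝ) • α) := by rw [h4]
    rw [bf_smul_left, bf_smul_right, bf_smul_left, bf_smul_right, h2, h3] at h7
    linarith
  have h8 : (x - 2) * (x + 2) = 0 := by ring_nf; linarith
  rcases mul_eq_zero.1 h8 with h9 | h9
  · left
    have h10 : x = 2 := by linarith
    rw [h10] at h4
    exact smul_right_injective (S → ℝ) (two_ne_zero (α := ℝ)) h4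
  · right
    have h10 : x = -2 := by linarith
    rw [h10] at h4
    refine smul_right_injective (S → ℝ) (two_ne_zero (α := ℝ)) ?_
    show (2 : ℝ) • β = (2 : ℝ) • -α
    rw [smul_neg, ← h4]
    module

private theorem cenF_one {J : Finset S} {d : M.Group} (hd : d ∈ par M J)
    (h : ∀ t ∈ J, T M d (Pi.single t 1) = Pi.single t 1) : d = 1 := by
  by_contra h1
  obtain ⟨s, hs⟩ := exists_right M h1
  have h2 := descent_par M hd hs
  have h3 := (len_down_iff M d s).1 hs s
  rw [h s h2, Pi.single_eq_same] at h3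
  linarith

theorem cen_fin (J : Finset S) (D : ℕ) :
    {a : M.Group | a ∈ par M J ∧ ∀ t ∈ J, len M (a⁻¹ * M.simple t * a) ≤ D}.Finite := by
  classical
  refine Set.Finite.of_finite_fibers
    (fun (a : M.Group) (t : S) => if t ∈ J then a⁻¹ * M.simple t * a else 1) ?_ ?_
  · refine (Set.Finite.pi' fun _ : S => len_finite M D).subset ?_
    rintro _ ⟨a, ⟨-, ha⟩, rfl⟩ t
    show len M (if t ∈ J then a⁻¹ * M.simple t * a else 1) ≤ D
    by_cases ht : t ∈ J
    · rw [if_pos ht]
      exact ha t ht
    · rw [if_neg ht, len_one]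
      exact Nat.zero_le D
  · rintro _ ⟨a₀, ⟨h0, -⟩, rfl⟩
    refine Set.Finite.of_injOn (f := fun (a : M.Group) (t : S) =>
      decide (T M (a * a₀⁻¹) (Pi.single t 1) = Pi.single t 1)) (t := Set.univ)
      (fun _ _ => Set.mem_univ _) ?_ Set.finite_univ
    rintro a ⟨⟨ha, -⟩, haf⟩ b ⟨⟨hb, -⟩, hbf⟩ hab
    have key : ∀ x : M.Group, (fun t : S => if t ∈ J then x⁻¹ * M.simple t * x else 1) =
        (fun t : S => if t ∈ J then a₀⁻¹ * M.simple t * a₀ else 1) → ∀ t ∈ J,
        (x * a₀⁻¹) * M.simple t * (x * a₀⁻¹)⁻¹ = M.simple t := by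
      intro x hx t ht
      have h1 := congrFun hx t
      simp only [if_pos ht] at h1
      have h2 : M.simple t = x * (x⁻¹ * M.simple t * x) * x⁻¹ := by group
      conv_rhs => rw [h2, h1]
      group
    have h1 : ∀ t ∈ J, T M (a * a₀⁻¹) (Pi.single t 1) = T M (b * a₀⁻¹) (Pi.single t 1) := by
      intro t ht
      have h2 := congrFun hab t
      simp only [decide_eq_decide] at h2
      rcases cenF_sign M (key a haf t ht) with h3 | h3
      · rw [h3, h2.1 h3]
      · rcases cenF_sign M (key b hbf t ht) with h4 | h4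
        · rw [h4, h2.2 h4]
        · rw [h3, h4]
    have h5 : (b * a₀⁻¹)⁻¹ * (a * a₀⁻¹) = 1 := by
      refine cenF_one M (J := J) ?_ fun t ht => ?_
      · exact (par M J).mul_mem ((par M J).inv_mem ((par M J).mul_mem hb ((par M J).inv_mem h0)))
          ((par M J).mul_mem ha ((par M J).inv_mem h0))
      · rw [T_mul, h1 t ht, T_inv_T]
    have h6 : a * a₀⁻¹ = b * a₀⁻¹ := (inv_mul_eq_one.1 h5).symm
    exact mul_right_cancel h6

end Pool.Agent.H97.BLD
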