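import Pool.Agent.H97.BLD.KapA

/-!
# Project BLD: the cocycle `κ`

`κ(w) = ρ - w⁻¹ ρ` for `ρ` with `s ρ = ρ - α_s`, the sum of the positive roots `β` with `w β < 0`.

* `kap_nonneg`: induction on the length with `exists_left`: `w = t w'`, `κ (t w') = w'⁻¹ α_t + κ (w')` and
  `w'⁻¹ α_t ≥ 0` (`len_up_iff'`).
* `kap_par`: `par_induction` with `kap_mul`, `T_par`.
* `kap_inv_simple`: if `ℓ (w s) = ℓ w + 1` then `s κ(w) ≥ 0`: induction with `exists_left` as above:
  `s κ (t w'') = (w'' s)⁻¹ α_t + s κ (w'')`, and `ℓ (t w'' s) = ℓ (w'' s) + 1`.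
* `kap_ge`: induction on the length, `w = w' s` with `ℓ w = ℓ w' + 1`: `κ(w) = s κ(w') + α_s`. If `s ∉ J` take
  `i = s` (`kap_inv_simple`). If `s ∈ J` then `w' ∉ W_J`; take the `i ∉ J` of `w'`: `i ≠ s`, so the coordinate `i` does
  not change (`T_simple_apply`).
* `kap_ht`: induction with `exists_left`: `ht (w'⁻¹ α_t) ≥ 1`: for a positive root `β` (norm `2`),
  `2 = bf β β ≤ 2 ∑ β_i²` as `kR u v ≤ 0` for `u ≠ v` (`kR_nonpos`), and `(∑ β_i)² ≥ ∑ β_i²`.
* `bf_kap`: `bf (κ x) α_s = 1 - ht (x α_s)`: induction on `x` from the left (`simple_induction_left` or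
  `exists_left`): `κ (t x) = x⁻¹ α_t + κ x`, `bf (x⁻¹ α_t) α_s = bf α_t (x α_s)` and `ht_simple`.
* `kap_fold`: `κ (x s y) = y⁻¹ (s κ(x) + α_s) + κ y`, `κ (x y) = y⁻¹ κ(x) + κ(y)`, `s κ(x) = κ(x) - bf (κ x) α_s • α_s`, so
  `κ (x y) - κ (x s y) = (bf (κ x) α_s - 1) • y⁻¹ α_s = - ht (x α_s) • y⁻¹ α_s` with `x α_s ≤ 0`, `y⁻¹ α_s ≥ 0`.
-/

set_option autoImplicit false

open Finset

namespace Pool.Agent.H97.BLD

open Pool.Agent.H4.FC Pool.Agent.H78.RC Pool.Agent.H66.NCL

variable {S : Type} [Fintype S] [DecidableEq S] (M : CoxeterMatrix S)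

/-- the cocycle -/
noncomputable def kap : M.Group → S → ℝ := (exists_kap M).choose

theorem kap_simple (s : S) : kap M (M.simple s) = Pi.single s 1 :=
  (exists_kap M).choose_spec.1 s

theorem kap_mul (w u : M.Group) : kap M (w * u) = T M u⁻¹ (kap M w) + kap M u :=
  (exists_kap M).choose_spec.2 w u

theorem kap_one : kap M 1 = 0 := by
  have h := kap_mul M 1 1
  rw [mul_one, inv_one, T_one] at h
  exact left_eq_add.1 h

private theorem kap_left (t : S) (w : M.Group) :
    kap M (M.simple t * w) = T M w⁻¹ (Pi.single t 1) + kap M w := by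
  rw [kap_mul, kap_simple]

private theorem kap_right (w : M.Group) (s : S) :
    kap M (w * M.simple s) = T M (M.simple s) (kap M w) + Pi.single s 1 := by
  rw [kap_mul, kap_simple, simple_inv]

omit [Fintype S] [DecidableEq S] in
/-- induction on the length, from the left -/
private theorem kap_left_ind {P : M.Group → Prop} (h1 : P 1)
    (h : ∀ t w, len M (M.simple t * w) = len M w + 1 → P w → P (M.simple t * w)) (w : M.Group) :
    P w := by
  obtain ⟨n, hn⟩ : ∃ n, len M w = n := ⟨_, rfl⟩
  induction n generalizing w with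
  | zero =>
    rw [(len_eq_zero M).1 hn]
    exact h1
  | succ n ih =>
    have hw : w ≠ 1 := by
      rintro rfl
      rw [len_one] at hn
      omega
    obtain ⟨t, ht⟩ := exists_left M hw
    have h2 : M.simple t * (M.simple t * w) = w := by
      rw [← mul_assoc, simple_sq, one_mul]
    have h3 := h t (M.simple t * w) (by rw [h2]; omega) (ih _ (by omega))
    rwa [h2] at h3

theorem kap_nonneg (w : M.Group) (i : S) : 0 ≤ kap M w i := by
  revert i
  refine kap_left_ind M (P := fun w => ∀ i, 0 ≤ kap M w i) ?_ ?_ w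
  · intro i
    rw [kap_one]
    exact le_refl _
  · intro t w ht ih i
    rw [kap_left, Pi.add_apply]
    exact add_nonneg ((len_up_iff' M w t).1 ht i) (ih i)

theorem kap_par {J : Finset S} {w : M.Group} (hw : w ∈ par M J) {i : S} (hi : i ∉ J) :
    kap M w i = 0 := by
  refine (par_induction M J (p := fun w => w ∈ par M J ∧ kap M w i = 0) ⟨one_mem _, ?_⟩ ?_ w hw).2
  · rw [kap_one]
    rfl
  · rintro v hv w ⟨hw, h⟩
    refine ⟨mul_mem (simple_mem_par M hv) hw, ?_⟩
    rw [kap_left, Pi.add_apply, h, add_zero, T_par M (inv_mem hw) _ hi,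
      Pi.single_eq_of_ne (show i ≠ v from fun h' => hi (h' ▸ hv))]

theorem kap_inv_simple {w : M.Group} {s : S} (h : len M (w * M.simple s) = len M w + 1) (i : S) :
    0 ≤ T M (M.simple s) (kap M w) i := by
  revert h i
  refine kap_left_ind M (P := fun w => len M (w * M.simple s) = len M w + 1 →
    ∀ i, 0 ≤ T M (M.simple s) (kap M w) i) ?_ ?_ w
  · intro _ i
    rw [kap_one, T_zero]
    exact le_refl _
  · intro t w ht ih h i
    have h1 : len M (M.simple t * w * M.simple s) ≤ 1 + len M (w * M.simple s) := by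
      rw [mul_assoc, ← len_simple M t]
      exact len_mul_le M _ _
    have h2 := len_mul_simple M w s
    have h3 : len M (w * M.simple s) = len M w + 1 := by omega
    have h4 : len M (M.simple t * (w * M.simple s)) = len M (w * M.simple s) + 1 := by
      rw [← mul_assoc]
      omega
    have h5 := (len_up_iff' M (w * M.simple s) t).1 h4 i
    rw [mul_inv_rev, simple_inv, T_mul] at h5
    rw [kap_left, T_add, Pi.add_apply]
    exact add_nonneg h5 (ih h3 i)

theorem kap_ge {J : Finset S} {w : M.Group} (hw : w ∉ par M J) : ∃ i, i ∉ J ∧ 1 ≤ kap M w i := by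
  obtain ⟨n, hn⟩ : ∃ n, len M w = n := ⟨_, rfl⟩
  induction n generalizing w with
  | zero =>
    rw [(len_eq_zero M).1 hn] at hw
    exact absurd (one_mem _) hw
  | succ n ih =>
    have hw1 : w ≠ 1 := by
      rintro rfl
      exact hw (one_mem _)
    obtain ⟨s, hs⟩ := exists_right M hw1
    have h2 : w * M.simple s * M.simple s = w := by rw [mul_assoc, simple_sq, mul_one]
    have h3 : kap M w = T M (M.simple s) (kap M (w * M.simple s)) + Pi.single s 1 := by
      rw [← kap_right, h2]
    by_cases hsJ : s ∈ J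
    · have h4 : w * M.simple s ∉ par M J := by
        intro h
        refine hw ?_
        rw [← h2]
        exact mul_mem h (simple_mem_par M hsJ)
      obtain ⟨i, hi, h5⟩ := ih h4 (by omega)
      have his : i ≠ s := fun h => hi (h ▸ hsJ)
      refine ⟨i, hi, ?_⟩
      rw [h3, Pi.add_apply, T_simple_apply M s i his, Pi.single_eq_of_ne his, add_zero]
      exact h5
    · refine ⟨s, hsJ, ?_⟩
      rw [h3, Pi.add_apply, Pi.single_eq_same]
      have h4 := kap_inv_simple M (w := w * M.simple s) (s := s) (by rw [h2]; omega) s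
      linarith

theorem root_ht {β : S → ℝ} (h : IsRoot M β) (h0 : ∀ i, 0 ≤ β i) : 1 ≤ ht β := by
  have h1 := root_norm M h
  have h2 : bf (kR M) β β ≤ ∑ u, 2 * β u ^ 2 := by
    unfold bf
    refine sum_le_sum fun u _ => ?_
    have h3 : ∀ v, kR M u v * β u * β v ≤ if v = u then 2 * β u ^ 2 else 0 := by
      intro v
      by_cases hv : v = u
      · rw [if_pos hv, hv, kR_self]
        apply le_of_eq
        ring
      · rw [if_neg hv]
        have h4 := kR_nonpos M (u := u) (v := v) (fun h' => hv h'.symm)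
        have h5 := mul_nonneg (h0 u) (h0 v)
        nlinarith
    refine (sum_le_sum fun v _ => h3 v).trans ?_
    rw [sum_ite_eq' univ u, if_pos (mem_univ u)]
  have h3 : ∑ u, β u ^ 2 ≤ (∑ u, β u) ^ 2 := by
    rw [sq (∑ u, β u), sum_mul]
    refine sum_le_sum fun u _ => ?_
    rw [sq]
    exact mul_le_mul_of_nonneg_left (single_le_sum (fun v _ => h0 v) (mem_univ u)) (h0 u)
  rw [← mul_sum] at h2
  have h4 : 0 ≤ ∑ u, β u := sum_nonneg fun u _ => h0 u
  unfold ht
  nlinarith

theorem kap_ht (w : M.Group) : (len M w : ℝ) ≤ ht (kap M w) := by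
  refine kap_left_ind M (P := fun w => (len M w : ℝ) ≤ ht (kap M w)) ?_ ?_ w
  · rw [kap_one, len_one]
    unfold ht
    simp
  · intro t w ht' ih
    rw [kap_left, ht']
    have h1 := root_ht M (isRoot_T M (isRoot_simple M t) w⁻¹) ((len_up_iff' M w t).1 ht')
    have h2 : ht (T M w⁻¹ (Pi.single t 1) + kap M w) =
        ht (T M w⁻¹ (Pi.single t 1)) + ht (kap M w) := by
      unfold ht
      simp only [Pi.add_apply, sum_add_distrib]
    rw [h2]
    push_cast
    linarith

theorem bf_kap (x : M.Group) (s : S) :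
    bf (kR M) (kap M x) (Pi.single s 1) = 1 - ht (T M x (Pi.single s 1)) := by
  refine kap_left_ind M (P := fun x => bf (kR M) (kap M x) (Pi.single s 1) =
    1 - ht (T M x (Pi.single s 1))) ?_ ?_ x
  · rw [kap_one, T_one]
    unfold bf ht
    simp
  · intro t w _ ih
    rw [kap_left, bf_add_left, bf_T_left, inv_inv, ih, T_mul, ht_simple]
    ring

theorem kap_fold {x y : M.Group} {s : S} (h1 : len M (x * M.simple s) + 1 = len M x)
    (h2 : len M (M.simple s * y) = len M y + 1) (i : S) :
    kap M (x * M.simple s * y) i ≤ kap M (x * y) i := by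
  have h3 := (len_down_iff M x s).1 h1
  have h4 := (len_up_iff' M y s).1 h2 i
  have h5 := bf_kap M x s
  rw [kap_mul M (x * M.simple s) y, kap_mul M x y, kap_right, T_simple, T_add, T_sub, T_smul,
    Pi.add_apply, Pi.add_apply, Pi.add_apply, Pi.sub_apply, Pi.smul_apply, smul_eq_mul,
    bf_symm' M (Pi.single s 1) (kap M x), h5]
  have h6 : ht (T M x (Pi.single s 1)) ≤ 0 := sum_nonpos fun u _ => h3 u
  nlinarith

end Pool.Agent.H97.BLD
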