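import Pool.Agent.H97.BLD.Greedy
import Pool.Agent.H97.BLD.Kap

/-!
# Project BLD: midpoints and the vector `h`

* `le_T_h`: `h ≤ w h` for `w ∈ W_J`: induction on the length along left... : if `w = w' s`, `s ∈ J` (`descent_par`),
  `len w = len w' + 1`: `w h = w' h - bf α_s h • w' α_s`, `bf α_s h ≤ 0`, `w' α_s ≥ 0` (`len_up_iff`). (Use `exists_right`.)
* `mid_h`: `mid_apply` with `x = h`, `le_T_h` for `y` and `z⁻¹ y`, `ν ≥ 0`.
* `mid_zero`: let `A = {t ∈ J : h t = 0}`. For `w ∈ W_J` and `x` supported in `A`, `T w x` is supported in `A`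
  (`par_induction`; for `t ∈ J`, `h t ≠ 0`: `bf α_t x = ∑ kR t u * x u = 0`, so `T t x = x`; for `t ∈ A`: `T t x` changes only the
  coordinate `t`). So `T w α_s` is supported in `A` for `s ∈ A`, where `ν` vanishes.
-/

set_option autoImplicit false

open Finset

namespace Pool.Agent.H97.BLD

open Pool.Agent.H4.FC Pool.Agent.H78.RC Pool.Agent.H66.NCL

variable {S : Type} [Fintype S] [DecidableEq S] (M : CoxeterMatrix S)

/-- `h` is a nonnegative nonzero vector supported in `J` with `bf h α_s ≤ 0` for `s ∈ J`, and the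
elements of `J` outside of the support of `h` commute with those of the support. -/
structure IsH (J : Finset S) (h : S → ℝ) : Prop where
  nonneg : ∀ i, 0 ≤ h i
  supp : ∀ i, i ∉ J → h i = 0
  ne : ∃ i, h i ≠ 0
  nonpos : ∀ s ∈ J, bf (kR M) (Pi.single s 1) h ≤ 0
  orth : ∀ s ∈ J, ∀ t ∈ J, h s = 0 → h t ≠ 0 → kR M t s = 0

variable {M}

theorem IsH.le_T {J : Finset S} {h : S → ℝ} (hh : IsH M J h) {w : M.Group} (hw : w ∈ par M J)
    (i : S) : h i ≤ T M w h i := by
  have key : ∀ n : ℕ, ∀ w ∈ par M J, len M w = n → ∀ i, h i ≤ T M w h i := by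
    intro n
    induction n with
    | zero =>
      intro w _ hl i
      rw [(len_eq_zero M).1 hl, T_one]
    | succ n ih =>
      intro w hw hl i
      have hne : w ≠ 1 := by
        rintro rfl
        rw [len_one] at hl
        omega
      obtain ⟨s, hs⟩ := exists_right M hne
      have hsJ : s ∈ J := descent_par M hw hs
      have hw' : w * M.simple s ∈ par M J := mul_mem hw (simple_mem_par M hsJ)
      have h1 := ih (w * M.simple s) hw' (by omega) i
      have h2 : w = w * M.simple s * M.simple s := by rw [mul_assoc, simple_sq, mul_one]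
      have h3 : ∀ i, 0 ≤ T M (w * M.simple s) (Pi.single s 1) i := by
        refine (len_up_iff M (w * M.simple s) s).1 ?_
        rw [← h2]
        exact hs.symm
      have h4 := mul_nonneg (neg_nonneg.2 (hh.nonpos s hsJ)) (h3 i)
      rw [h2, T_mul M (w * M.simple s) (M.simple s) h, T_simple, T_sub, T_smul, Pi.sub_apply,
        Pi.smul_apply, smul_eq_mul]
      linarith
  exact key _ w hw rfl i

theorem IsH.mid_le {J : Finset S} {h : S → ℝ} (hh : IsH M J h) {z y : M.Group}
    (hz : z ∈ par M J) (hy : y ∈ par M J) {ν : S → ℝ} (hν : ∀ i, 0 ≤ ν i) :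
    h ⬝ᵥ ν ≤ h ⬝ᵥ mid M z y ν := by
  have h1 : h ⬝ᵥ ν ≤ T M y h ⬝ᵥ ν :=
    sum_le_sum fun i _ => mul_le_mul_of_nonneg_right (hh.le_T hy i) (hν i)
  have h2 : h ⬝ᵥ ν ≤ T M (z⁻¹ * y) h ⬝ᵥ ν :=
    sum_le_sum fun i _ => mul_le_mul_of_nonneg_right
      (hh.le_T (mul_mem (inv_mem hz) hy) i) (hν i)
  rw [mid_apply]
  linarith

private theorem hmid_supp {J : Finset S} {h : S → ℝ} (hh : IsH M J h) :
    ∀ w ∈ par M J, ∀ x : S → ℝ, (∀ i, i ∉ J ∨ h i ≠ 0 → x i = 0) →
      ∀ i, i ∉ J ∨ h i ≠ 0 → T M w x i = 0 := by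
  refine par_induction M J ?_ ?_
  · intro x hx i hi
    rw [T_one]
    exact hx i hi
  · intro v hv w ih x hx i hi
    have h1 := ih x hx
    rw [T_mul]
    by_cases h0 : h v = 0
    · have hiv : i ≠ v := by
        rintro rfl
        rcases hi with hi | hi
        · exact hi hv
        · exact hi h0
      rw [T_simple_apply M v i hiv]
      exact h1 i hi
    · have h2 : bf (kR M) (Pi.single v 1) (T M w x) = 0 := by
        rw [bf_single_left]
        refine sum_eq_zero fun u _ => ?_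
        by_cases hu : u ∉ J ∨ h u ≠ 0
        · rw [h1 u hu, mul_zero]
        · push Not at hu
          rw [hh.orth u hu.1 v hv hu.2 h0, zero_mul]
      rw [T_simple, h2, zero_smul, sub_zero]
      exact h1 i hi

private theorem hmid_dot {J : Finset S} {h : S → ℝ} (hh : IsH M J h) {w : M.Group}
    (hw : w ∈ par M J) {ν : S → ℝ} (hν : ∀ i, h i = 0 → ν i = 0) {s : S}
    (hs : s ∈ J) (h0 : h s = 0) : T M w (Pi.single s 1) ⬝ᵥ ν = 0 := by
  refine sum_eq_zero fun i _ => ?_
  by_cases hi : h i = 0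
  · rw [hν i hi, mul_zero]
  · rw [hmid_supp hh w hw (Pi.single s 1) ?_ i (Or.inr hi), zero_mul]
    intro j hj
    refine Pi.single_eq_of_ne ?_ _
    rintro rfl
    rcases hj with hj | hj
    · exact hj hs
    · exact hj h0

theorem IsH.mid_zero {J : Finset S} {h : S → ℝ} (hh : IsH M J h) {z y : M.Group}
    (hz : z ∈ par M J) (hy : y ∈ par M J) {ν : S → ℝ} (hν : ∀ i, h i = 0 → ν i = 0) {s : S}
    (hs : s ∈ J) (h0 : h s = 0) : mid M z y ν s = 0 := by
  unfold mid
  rw [hmid_dot hh hy hν hs h0, hmid_dot hh (mul_mem (inv_mem hz) hy) hν hs h0, add_zero, zero_div]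

end Pool.Agent.H97.BLD
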