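import Pool.Agent.H97.BLD.PdFin
import Pool.Agent.H97.BLD.HMid

/-!
# Project BLD: existence of the vector `h`

`W_J` infinite, so `J` is nonempty (`par M ∅` is trivial) and `bf` is not positive definite on `V_J` (`pd_fin`). Let `x` be a
minimum of `bf x x` on the compact set `{x ∈ V_J : ∑ x_i² = 1}`, `μ = bf x x` the minimum. `μ ≤ 0` (scaling of a vector with
`bf ≤ 0`). Put `h i = |x i|`. As `kR u v ≤ 0` for `u ≠ v` and `kR u u = 2`, `bf h h ≤ bf x x`, so `h` is a minimum too. So
`bf α_s h = μ h s` for `s ∈ J` (Lagrange; elementary: `q(t) = bf (h + t α_s) (h + t α_s) - μ ∑ (h + t α_s)_i² ≥ 0` for all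
real `t` and `= 0` for `t = 0`, so the coefficient of `t` vanishes). Hence `bf α_s h = μ h s ≤ 0`, and `= 0` if `h s = 0`: then
`0 = bf α_s h = ∑_{t ≠ s} kR s t * h t` is a sum of nonpositive numbers, so `kR s t * h t = 0` for all `t ≠ s` (`kR_symm`).
-/

set_option autoImplicit false

open Finset

namespace Pool.Agent.H97.BLD

open Pool.Agent.H4.FC Pool.Agent.H78.RC Pool.Agent.H66.NCL

variable {S : Type} [Fintype S] [DecidableEq S] (M : CoxeterMatrix S)

/-- the sum of the squares -/
private def hexN (x : S → ℝ) : ℝ := ∑ i, x i ^ 2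

omit [DecidableEq S] in
private theorem hexN_pos {x : S → ℝ} (hx : x ≠ 0) : 0 < hexN x := by
  obtain ⟨i, hi⟩ := Function.ne_iff.1 hx
  have hi' : x i ≠ 0 := hi
  exact sum_pos' (fun j _ => sq_nonneg _) ⟨i, mem_univ i, by positivity⟩

private theorem hex_scale (c : ℝ) (x : S → ℝ) :
    bf (kR M) (c • x) (c • x) = c ^ 2 * bf (kR M) x x ∧ hexN (c • x) = c ^ 2 * hexN x := by
  constructor
  · rw [bf_smul_left, bf_smul_right]
    ring
  · unfold hexN
    rw [mul_sum]
    refine sum_congr rfl fun i _ => ?_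
    rw [Pi.smul_apply, smul_eq_mul]
    ring

private theorem hex_min (J : Finset S) (x₁ : S → ℝ) (h1 : ∀ i, i ∉ J → x₁ i = 0) (h0 : x₁ ≠ 0)
    (hle : bf (kR M) x₁ x₁ ≤ 0) :
    ∃ x : S → ℝ, (∀ i, i ∉ J → x i = 0) ∧ hexN x = 1 ∧ bf (kR M) x x ≤ 0 ∧
      ∀ y : S → ℝ, (∀ i, i ∉ J → y i = 0) → bf (kR M) x x * hexN y ≤ bf (kR M) y y := by
  set C : Set (S → ℝ) := {x | (∀ i, i ∉ J → x i = 0) ∧ hexN x = 1} with hC
  have hcontN : Continuous (hexN : (S → ℝ) → ℝ) := by
    unfold hexN
    fun_prop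
  have hcontQ : Continuous (fun x : S → ℝ => bf (kR M) x x) := by
    unfold bf
    fun_prop
  have hclosed : IsClosed C := by
    have e : C = (⋂ i : S, {x | i ∉ J → x i = 0}) ∩ {x | hexN x = 1} := by
      ext x
      simp only [hC, Set.mem_inter_iff, Set.mem_iInter]
      exact Iff.rfl
    rw [e]
    refine IsClosed.inter (isClosed_iInter fun i => ?_) (isClosed_eq hcontN continuous_const)
    by_cases hi : i ∈ J
    · have : {x : S → ℝ | i ∉ J → x i = 0} = Set.univ := by
        ext x
        exact ⟨fun _ => trivial, fun _ h => absurd hi h⟩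
      rw [this]
      exact isClosed_univ
    · have : {x : S → ℝ | i ∉ J → x i = 0} = {x | x i = 0} := by
        ext x
        exact ⟨fun h => h hi, fun h _ => h⟩
      rw [this]
      exact isClosed_eq (continuous_apply i) continuous_const
  have hcomp : IsCompact C := by
    refine (isCompact_Icc (a := fun _ : S => (-1 : ℝ)) (b := fun _ : S => (1 : ℝ))).of_isClosed_subset
      hclosed ?_
    rintro x ⟨_, hx⟩
    have hb : ∀ i, x i ^ 2 ≤ 1 := fun i => by
      rw [← hx]
      exact single_le_sum (f := fun j => x j ^ 2) (fun j _ => sq_nonneg _) (mem_univ i)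
    exact ⟨fun i => by nlinarith [hb i], fun i => by nlinarith [hb i]⟩
  have hunit : ∀ y : S → ℝ, (∀ i, i ∉ J → y i = 0) → y ≠ 0 →
      (√(hexN y))⁻¹ • y ∈ C := by
    intro y hy hy0
    refine ⟨fun i hi => ?_, ?_⟩
    · rw [Pi.smul_apply, hy i hi, smul_zero]
    · rw [(hex_scale M _ y).2, inv_pow, Real.sq_sqrt (hexN_pos hy0).le,
        inv_mul_cancel₀ (hexN_pos hy0).ne']
  obtain ⟨x, hx, hmin⟩ := hcomp.exists_isMinOn ⟨_, hunit x₁ h1 h0⟩ hcontQ.continuousOn
  have key : ∀ y : S → ℝ, (∀ i, i ∉ J → y i = 0) → bf (kR M) x x * hexN y ≤ bf (kR M) y y := by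
    intro y hy
    by_cases hy0 : y = 0
    · subst hy0
      have e1 : hexN (0 : S → ℝ) = 0 := by simp [hexN]
      have e2 : bf (kR M) (0 : S → ℝ) 0 = 0 := by simp [bf]
      rw [e1, e2, mul_zero]
    · have h2 := hmin (hunit y hy hy0)
      have h3 : bf (kR M) x x ≤ bf (kR M) ((√(hexN y))⁻¹ • y) ((√(hexN y))⁻¹ • y) := h2
      rw [(hex_scale M _ y).1, inv_pow, Real.sq_sqrt (hexN_pos hy0).le,
        inv_mul_eq_div, le_div_iff₀ (hexN_pos hy0)] at h3
      exact h3
  refine ⟨x, hx.1, hx.2, ?_, key⟩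
  have h2 := (key x₁ h1).trans hle
  by_contra hcon
  push Not at hcon
  exact absurd h2 (not_le.2 (mul_pos hcon (hexN_pos h0)))

theorem exists_h {J : Finset S} (hJ : ¬ Sph M J) : ∃ h : S → ℝ, IsH M J h := by
  have hex : ∃ x : S → ℝ, (∀ i, i ∉ J → x i = 0) ∧ x ≠ 0 ∧ bf (kR M) x x ≤ 0 := by
    by_contra hcon
    push Not at hcon
    exact hJ (pd_fin M J fun x hx hx0 => hcon x hx hx0)
  obtain ⟨x₁, h1, h0, hle⟩ := hex
  obtain ⟨x, hxJ, hxN, hx0, hmin⟩ := hex_min M J x₁ h1 h0 hle
  set μ := bf (kR M) x x with hμ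
  set h : S → ℝ := fun i => |x i| with hh
  have hhJ : ∀ i, i ∉ J → h i = 0 := fun i hi => by
    simp only [hh, hxJ i hi, abs_zero]
  have hhN : hexN h = 1 := by
    rw [← hxN]
    unfold hexN
    exact sum_congr rfl fun i _ => sq_abs _
  have hhQ : bf (kR M) h h ≤ μ := by
    rw [hμ]
    unfold bf
    refine sum_le_sum fun u _ => sum_le_sum fun v _ => ?_
    by_cases huv : u = v
    · subst huv
      simp only [hh]
      rw [mul_assoc, mul_assoc, abs_mul_abs_self]
    · have h2 : kR M u v ≤ 0 := kR_nonpos M huv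
      have h3 : x u * x v ≤ h u * h v := by
        simp only [hh]
        rw [← abs_mul]
        exact le_abs_self _
      rw [mul_assoc, mul_assoc]
      exact mul_le_mul_of_nonpos_left h3 h2
  -- Lagrange
  have hlag : ∀ s ∈ J, bf (kR M) (Pi.single s 1) h = μ * h s := by
    intro s hs
    have h2 : ∀ t : ℝ, 0 ≤ 2 * t * (bf (kR M) (Pi.single s 1) h - μ * h s) + (2 - μ) * t ^ 2 := by
      intro t
      have h3 := hmin (h + t • Pi.single s 1) fun i hi => by
        have hne : i ≠ s := fun h => hi (h ▸ hs)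
        rw [Pi.add_apply, Pi.smul_apply, hhJ i hi, Pi.single_eq_of_ne hne, smul_zero, add_zero]
      have h4 : hexN (h + t • Pi.single s 1) = hexN h + 2 * t * h s + t ^ 2 := by
        unfold hexN
        have h5 : ∀ i, (h + t • (Pi.single s 1 : S → ℝ)) i ^ 2 =
            h i ^ 2 + (if i = s then 2 * t * h s + t ^ 2 else 0) := by
          intro i
          rw [Pi.add_apply, Pi.smul_apply, smul_eq_mul]
          by_cases his : i = s
          · subst his
            rw [Pi.single_eq_same, if_pos rfl]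
            ring
          · rw [Pi.single_eq_of_ne his, if_neg his]
            ring
        rw [sum_congr rfl fun i _ => h5 i, sum_add_distrib, sum_ite_eq' univ s, if_pos (mem_univ s)]
        ring
      have h5 : bf (kR M) (h + t • Pi.single s 1) (h + t • Pi.single s 1) =
          bf (kR M) h h + 2 * t * bf (kR M) (Pi.single s 1) h + 2 * t ^ 2 := by
        rw [bf_add_left, bf_add_right, bf_add_right, bf_smul_left, bf_smul_right, bf_smul_left,
          bf_smul_right, bf_comm (kR_symm M) h (Pi.single s 1), bf_single, kR_self]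
        ring
      rw [h4, h5, hhN] at h3
      linarith
    have hd : 0 < 2 - μ := by linarith
    by_contra hne
    have hc : bf (kR M) (Pi.single s 1) h - μ * h s ≠ 0 := sub_ne_zero.2 hne
    set c := bf (kR M) (Pi.single s 1) h - μ * h s with hcd
    have h3 := h2 (-c / (2 - μ))
    have h4 : 2 * (-c / (2 - μ)) * c + (2 - μ) * (-c / (2 - μ)) ^ 2 = -(c ^ 2 / (2 - μ)) := by
      field_simp
      ring
    rw [h4] at h3
    have h5 : 0 < c ^ 2 / (2 - μ) := by positivity
    linarith
  have hnn : ∀ i, 0 ≤ h i := fun i => abs_nonneg _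
  refine ⟨h, hnn, hhJ, ?_, fun s hs => ?_, fun s hs t ht hs0 ht0 => ?_⟩
  · by_contra hcon
    push Not at hcon
    have : hexN h = 0 := by
      unfold hexN
      exact sum_eq_zero fun i _ => by rw [hcon i]; ring
    rw [hhN] at this
    exact one_ne_zero this
  · rw [hlag s hs]
    exact mul_nonpos_of_nonpos_of_nonneg hx0 (hnn s)
  · have h2 := hlag s hs
    rw [hs0, mul_zero, bf_single_left] at h2
    have h3 : ∀ u ∈ (univ : Finset S), kR M s u * h u ≤ 0 := by
      intro u _
      by_cases hus : s = u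
      · subst hus
        rw [hs0, mul_zero]
      · exact mul_nonpos_of_nonpos_of_nonneg (kR_nonpos M hus) (hnn u)
    have h4 := (sum_eq_zero_iff_of_nonpos h3).1 h2 t (mem_univ t)
    rw [kR_symm M t s]
    exact (mul_eq_zero.1 h4).resolve_right ht0

end Pool.Agent.H97.BLD
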