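import Pool.Agent.H97.BLD.Kap
import Pool.Agent.H97.BLD.Bd

/-!
# Project BLD: the folding inequality

Induction on `len (δ d c)`, for all `d`. If `δ d c = 1` then `d = c` and both sides agree. Otherwise let `s` be a left
descent of `z = δ d c` (`exists_left`), `z = s z'`, and `d'` with `δ d' d = s`, `δ d' c = s * z = z'` (`exists_step`). By
induction `κ (δ e d' * z') ≤ κ (δ e c)`. By `stepR` (`δ d d' = s` by `symm_simple`) either `δ e d' = δ e d * s`, and then
`δ e d' * z' = δ e d * z`: done; or `δ e d' = δ e d =: u`. If `len (u s) = len u + 1` then `stepR_up` gives the first case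
again. If `len (u s) + 1 = len u` then `κ (u * s * z') ≤ κ (u * z')` by `kap_fold` (`len (s z') = len z' + 1`), and
`u * s * z' = δ e d * δ d c`.
-/

set_option autoImplicit false

open Finset

namespace Pool.Agent.H97.BLD

open Pool.Agent.H4.FC Pool.Agent.H78.RC Pool.Agent.H66.NCL

universe v

variable {S : Type} [Fintype S] [DecidableEq S] {M : CoxeterMatrix S} {Δ : Type v}
  {δ : Δ → Δ → M.Group}

/-- **Folding.** -/
theorem IsBuilding.fold (h : IsBuilding M δ) (e d c : Δ) (i : S) :
    kap M (δ e d * δ d c) i ≤ kap M (δ e c) i := by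
  suffices H : ∀ (n : ℕ) (d : Δ), len M (δ d c) = n →
      kap M (δ e d * δ d c) i ≤ kap M (δ e c) i from H _ d rfl
  intro n
  induction n with
  | zero =>
    intro d hd
    have h1 : δ d c = 1 := (len_eq_zero M).1 hd
    have h2 : d = c := (h.eq_one d c).1 h1
    rw [h1, mul_one, h2]
  | succ n ih =>
    intro d hd
    have h1 : δ d c ≠ 1 := by
      intro h1
      rw [h1, len_one] at hd
      omega
    obtain ⟨s, hs⟩ := exists_left M h1
    obtain ⟨d', hd1, hd2⟩ := h.exists_step s d c
    have h3 : δ d d' = M.simple s := h.symm_simple hd1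
    have h4 := ih d' (by rw [hd2]; omega)
    have h5 : ∀ u z : M.Group, u * M.simple s * (M.simple s * z) = u * z := by
      intro u z
      rw [mul_assoc, ← mul_assoc (M.simple s) (M.simple s) z, simple_sq, one_mul]
    rcases len_mul_simple M (δ e d) s with h6 | h6
    · rw [h.stepR_up h3 h6, hd2, h5] at h4
      exact h4
    · rcases h.stepR (a := e) h3 with h7 | h7
      · rw [h7, hd2, h5] at h4
        exact h4
      · rw [h7, hd2] at h4
        have h8 : len M (M.simple s * (M.simple s * δ d c)) = len M (M.simple s * δ d c) + 1 := by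
          rw [← mul_assoc, simple_sq, one_mul]
          exact hs.symm
        have h9 := kap_fold M h6 h8 i
        rw [h5] at h9
        exact h9.trans h4

end Pool.Agent.H97.BLD
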