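import Pool.Agent.H97.BLD.Greedy
import Pool.Agent.H97.BLD.FoldL

/-!
# Project BLD: the midpoint inequality

`z = δ a b`, `y ≤ z`, `c` on a geodesic from `a` to `b` with `δ a c = y`, `δ c b = y⁻¹ z`. Let `x = κ (δ e c)`. `fold` with
`(e, d = c, c = a)`: `κ (δ e c * y⁻¹) ≤ κ (δ e a)` (`δ c a = y⁻¹` by `symm`), and `κ (δ e c * y⁻¹) = y x + κ (y⁻¹)` (`kap_mul`);
`fold` with `(e, d = c, c = b)`: `κ (δ e c * (y⁻¹ z)) = z⁻¹ y x + κ (y⁻¹ z) ≤ κ (δ e b)`. Pair with `ν ≥ 0` and add; `mid_apply`.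
So `x ⬝ᵥ mid ≤ (κ (δ e a) ⬝ᵥ ν + κ (δ e b) ⬝ᵥ ν) / 2 - (κ (y⁻¹) ⬝ᵥ ν + κ (y⁻¹ z) ⬝ᵥ ν) / 2`. As `z ∉ W_{J₀}`,
`J₀ = {i ∈ J : ν i = 0}`, one of `y⁻¹`, `y⁻¹ z` is not in `W_{J₀}`; both are in `W_J`. For it `kap_ge` gives `i ∉ J₀` with
`κ i ≥ 1`, and `i ∈ J` by `kap_par`, so `ν i > 0`, and its pairing with `ν` is `≥ ν i ≥ γ` (`kap_nonneg`).
-/

set_option autoImplicit false

open Finset

namespace Pool.Agent.H97.BLD

open Pool.Agent.H4.FC Pool.Agent.H78.RC Pool.Agent.H66.NCL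

universe v

variable {S : Type} [Fintype S] [DecidableEq S] {M : CoxeterMatrix S} {Δ : Type v}
  {δ : Δ → Δ → M.Group}

/-- the pairing of nonnegative vectors -/
private theorem midL_pair {x ν : S → ℝ} (hx : ∀ i, 0 ≤ x i) (hν : ∀ i, 0 ≤ ν i) :
    0 ≤ x ⬝ᵥ ν := by
  unfold dotProduct
  exact sum_nonneg fun i _ => mul_nonneg (hx i) (hν i)

private theorem midL_mono {x y ν : S → ℝ} (hx : ∀ i, x i ≤ y i) (hν : ∀ i, 0 ≤ ν i) :
    x ⬝ᵥ ν ≤ y ⬝ᵥ ν := by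
  unfold dotProduct
  exact sum_le_sum fun i _ => mul_le_mul_of_nonneg_right (hx i) (hν i)

private theorem midL_gap (M : CoxeterMatrix S) {J : Finset S} {ν : S → ℝ} (hν : ∀ i, 0 ≤ ν i)
    {γ : ℝ} (hγ : ∀ i, ν i ≠ 0 → γ ≤ ν i) {u : M.Group} (hu : u ∈ par M J)
    (hu0 : u ∉ par M (J.filter fun i => ν i = 0)) : γ ≤ kap M u ⬝ᵥ ν := by
  obtain ⟨i, hi, h1⟩ := kap_ge M hu0
  have hiJ : i ∈ J := by
    by_contra hc
    rw [kap_par M hu hc] at h1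
    linarith
  have hn : ν i ≠ 0 := fun h0 => hi (mem_filter.mpr ⟨hiJ, h0⟩)
  have h2 : kap M u i * ν i ≤ kap M u ⬝ᵥ ν := by
    unfold dotProduct
    exact single_le_sum (f := fun j => kap M u j * ν j)
      (fun j _ => mul_nonneg (kap_nonneg M u j) (hν j)) (mem_univ i)
  have h3 := hγ i hn
  have h4 := hν i
  nlinarith

theorem IsBuilding.mid_le (h : IsBuilding M δ) {J : Finset S} {ν : S → ℝ} (hν : ∀ i, 0 ≤ ν i)
    {γ : ℝ} (hγ : ∀ i, ν i ≠ 0 → γ ≤ ν i) {a b c : Δ} {y : M.Group} (hz : δ a b ∈ par M J)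
    (hz0 : δ a b ∉ par M (J.filter fun i => ν i = 0)) (hy : y ∈ par M J)
    (h1 : δ a c = y) (h2 : δ c b = y⁻¹ * δ a b) (e : Δ) :
    kap M (δ e c) ⬝ᵥ mid M (δ a b) y ν ≤
      (kap M (δ e a) ⬝ᵥ ν + kap M (δ e b) ⬝ᵥ ν) / 2 - γ / 2 := by
  have hca : δ c a = y⁻¹ := by rw [h.symm a c, h1]
  have ha : ∀ i, (T M y (kap M (δ e c)) + kap M y⁻¹) i ≤ kap M (δ e a) i := by
    intro i
    have h3 := h.fold e c a i
    rw [hca, kap_mul, inv_inv] at h3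
    exact h3
  have hb : ∀ i, (T M ((δ a b)⁻¹ * y) (kap M (δ e c)) + kap M (y⁻¹ * δ a b)) i ≤
      kap M (δ e b) i := by
    intro i
    have h3 := h.fold e c b i
    rw [h2, kap_mul, mul_inv_rev, inv_inv] at h3
    exact h3
  have ha' := midL_mono ha hν
  have hb' := midL_mono hb hν
  rw [add_dotProduct] at ha' hb'
  rw [mid_apply]
  have h5 := midL_pair (kap_nonneg M y⁻¹) hν
  have h6 := midL_pair (kap_nonneg M (y⁻¹ * δ a b)) hν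
  have h7 : γ ≤ kap M y⁻¹ ⬝ᵥ ν + kap M (y⁻¹ * δ a b) ⬝ᵥ ν := by
    by_cases hy0 : y⁻¹ ∈ par M (J.filter fun i => ν i = 0)
    · have h8 : y⁻¹ * δ a b ∉ par M (J.filter fun i => ν i = 0) := by
        intro hc
        refine hz0 ?_
        have h9 := mul_mem (inv_mem hy0) hc
        rwa [inv_inv, mul_inv_cancel_left] at h9
      have h9 := midL_gap M hν hγ (mul_mem (inv_mem hy) hz) h8
      linarith
    · have h9 := midL_gap M hν hγ (inv_mem hy) hy0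
      linarith
  linarith

end Pool.Agent.H97.BLD
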