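import Pool.Agent.H97.BLD.AbsT
import Pool.Agent.H97.BLD.HEx
import Pool.Agent.H97.BLD.MidL

/-!
# Project BLD: coarse stabilizers

`exists_h`: `h`. Apply `abs_T` with
* `H = {g | δ o (g • o) ∈ par M J}` (a subgroup: `par_trans`, `symm`, `hG`), `X = {d // δ o d ∈ par M J}`,
* `a g d = kap M (δ o (g • d))`, `K = {ν | ν ≥ 0, ν i = 0 if h i = 0, h ⬝ᵥ ν = 1}`: closed, bounded (`ν i ≤ 1 / h i`), so compact,
* `L d ν = {g | δ d (g • d) ∈ par M (J.filter fun i => ν i = 0)}` (a subgroup), `hind` (`J.filter … ⊂ J` because some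
  `ν i ≠ 0`, and then `h i ≠ 0`, `i ∈ J`); `L ≤ H` by `par_trans`, `par_mono`,
* `hLa`: `δ (g d) (g l d) = δ d (l d) ∈ W_{J₀}`, so `δ o (g l d) = δ o (g d) * u`, `u ∈ W_{J₀}` (`mem_mul`), and
  `κ (w u) = u⁻¹ κ(w) + κ(u)` differs from `κ(w)` only in coordinates in `J₀` (`T_par`, `kap_par`),
* `gap ν = γ / 2`, `γ` the minimum of the nonzero `ν i` (any `γ > 0` with `γ ≤ ν i` if `ν i ≠ 0`),
* `hmid`: `e ∈ H`, `z = δ d (e • d) ∈ W_J`, not in `W_{J₀}`. `exists_mid`: `y`, `exists_geo`: `c`, `δ d c = y`,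
  `δ c (e d) = y⁻¹ z`. `x' = c`; `ν'` = `mid M z y ν` on `J`, `0` outside of `J`, divided by `r = h ⬝ᵥ mid M z y ν ≥ h ⬝ᵥ ν = 1`
  (`IsH.mid_le`). It is in `K` (`IsH.mid_zero`). For `g ∈ H`: `δ o (g d') = δ (g⁻¹ o) d'`, and `IsBuilding.mid_le` with the
  chamber `g⁻¹ o`; `κ (δ (g⁻¹ o) c)` is supported in `J`, so the restriction to `J` does not matter, and dividing by
  `r ≥ 1` decreases the nonnegative number `κ ⬝ᵥ mid`.
Conclusion: `{g | g ∈ H, len (δ o (g o)) ≤ R}` is contained in `{g ∈ H | a g o ⬝ᵥ ν ≤ t}` for a `ν ∈ K` (`ν = e i / h i`) and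
`t` a bound of `κ(w) ⬝ᵥ ν` for the finitely many `w` with `len w ≤ R` (`len_finite`).
-/

set_option autoImplicit false

open Finset

namespace Pool.Agent.H97.BLD

open Pool.Agent.H4.FC Pool.Agent.H78.RC Pool.Agent.H66.NCL

universe u v

variable {S : Type} [Fintype S] [DecidableEq S] {M : CoxeterMatrix S} {Δ : Type v}
  {δ : Δ → Δ → M.Group}

/-- the stabilizer of the residue of type `J` of `c` -/
private def coarseL_stab {G : Type u} [Group G] [MulAction G Δ] (h : IsBuilding M δ)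
    (hG : ∀ (g : G) (c d : Δ), δ (g • c) (g • d) = δ c d) (J : Finset S) (c : Δ) : Subgroup G where
  carrier := {g | δ c (g • c) ∈ par M J}
  one_mem' := by
    show δ c ((1 : G) • c) ∈ par M J
    rw [one_smul, h.self]
    exact one_mem _
  mul_mem' := by
    intro a b ha hb
    show δ c ((a * b) • c) ∈ par M J
    refine h.par_trans (b := a • c) ha ?_
    rw [mul_smul, hG]
    exact hb
  inv_mem' := by
    intro a ha
    show δ c (a⁻¹ • c) ∈ par M J
    have h1 : δ c (a⁻¹ • c) = (δ c (a • c))⁻¹ := by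
      rw [← h.symm c (a • c), ← hG a c (a⁻¹ • c), smul_inv_smul]
    rw [h1]
    exact inv_mem ha

private theorem coarseL_gap {ν : S → ℝ} (hν : ∀ i, 0 ≤ ν i) :
    ∃ γ : ℝ, 0 < γ ∧ ∀ i, ν i ≠ 0 → γ ≤ ν i := by
  by_cases hne : (univ.filter fun i => ν i ≠ 0).Nonempty
  · obtain ⟨j, hj, hmin⟩ := exists_min_image _ ν hne
    refine ⟨ν j, lt_of_le_of_ne (hν j) (Ne.symm (mem_filter.1 hj).2), fun i hi => ?_⟩
    exact hmin i (mem_filter.2 ⟨mem_univ _, hi⟩)
  · refine ⟨1, one_pos, fun i hi => absurd ⟨i, mem_filter.2 ⟨mem_univ _, hi⟩⟩ hne⟩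

private theorem coarseL_compact (h : S → ℝ) (h0 : ∀ i, 0 ≤ h i) :
    IsCompact {ν : S → ℝ | (∀ i, 0 ≤ ν i) ∧ (∀ i, h i = 0 → ν i = 0) ∧ h ⬝ᵥ ν = 1} := by
  refine IsCompact.of_isClosed_subset (isCompact_Icc (a := (0 : S → ℝ)) (b := fun i => (h i)⁻¹)) ?_ ?_
  · have h1 : IsClosed {ν : S → ℝ | ∀ i, 0 ≤ ν i} := by
      have : {ν : S → ℝ | ∀ i, 0 ≤ ν i} = ⋂ i, {ν : S → ℝ | 0 ≤ ν i} := by
        ext ν; simp
      rw [this]
      exact isClosed_iInter fun i => isClosed_le continuous_const (continuous_apply i)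
    have h2 : IsClosed {ν : S → ℝ | ∀ i, h i = 0 → ν i = 0} := by
      have : {ν : S → ℝ | ∀ i, h i = 0 → ν i = 0} = ⋂ i, ⋂ (_ : h i = 0), {ν : S → ℝ | ν i = 0} := by
        ext ν; simp
      rw [this]
      exact isClosed_iInter fun i => isClosed_iInter fun _ => isClosed_eq (continuous_apply i) continuous_const
    have h3 : IsClosed {ν : S → ℝ | h ⬝ᵥ ν = 1} := by
      refine isClosed_eq ?_ continuous_const
      unfold dotProduct
      fun_prop
    exact h1.inter (h2.inter h3)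
  · rintro ν ⟨h1, h2, h3⟩
    refine ⟨fun i => h1 i, fun i => ?_⟩
    show ν i ≤ (h i)⁻¹
    by_cases hi : h i = 0
    · rw [h2 i hi, hi, inv_zero]
    · have hpos : 0 < h i := lt_of_le_of_ne (h0 i) (Ne.symm hi)
      have h4 : h i * ν i ≤ h ⬝ᵥ ν :=
        single_le_sum (f := fun j => h j * ν j) (fun j _ => mul_nonneg (h0 j) (h1 j)) (mem_univ i)
      rw [h3] at h4
      rw [← one_div, le_div_iff₀ hpos, mul_comm]
      exact h4

private theorem coarseL_dot (J : Finset S) (x m : S → ℝ) (r : ℝ) (hx : ∀ i, i ∉ J → x i = 0) :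
    (x ⬝ᵥ fun i => if i ∈ J then m i / r else 0) = (x ⬝ᵥ m) / r := by
  unfold dotProduct
  rw [sum_div]
  refine sum_congr rfl fun i _ => ?_
  show x i * (if i ∈ J then m i / r else 0) = x i * m i / r
  by_cases hi : i ∈ J
  · rw [if_pos hi, mul_div_assoc]
  · rw [if_neg hi, hx i hi, mul_zero, zero_mul, zero_div]

theorem coarse {G : Type u} [Group G] {P : Set G → Prop} (hP : Good P) [MulAction G Δ]
    (h : IsBuilding M δ) (hG : ∀ (g : G) (c d : Δ), δ (g • c) (g • d) = δ c d) {J : Finset S}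
    (hJ : ¬ Sph M J)
    (hind : ∀ J', J' ⊂ J → ∀ c : Δ, P {g : G | δ c (g • c) ∈ par M J'}) (o : Δ) (R : ℕ) :
    P {g : G | δ o (g • o) ∈ par M J ∧ len M (δ o (g • o)) ≤ R} := by
  classical
  obtain ⟨q, hq⟩ := exists_h M hJ
  set K : Set (S → ℝ) := {ν : S → ℝ | (∀ i, 0 ≤ ν i) ∧ (∀ i, q i = 0 → ν i = 0) ∧ q ⬝ᵥ ν = 1} with hK
  set H : Subgroup G := coarseL_stab h hG J o with hH
  -- elements of `H` preserve the residue
  have hres : ∀ g ∈ H, ∀ d : Δ, δ o d ∈ par M J → δ o (g • d) ∈ par M J := by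
    intro g hg d hd
    refine h.par_trans (b := g • o) hg ?_
    rw [hG]
    exact hd
  have hfil : ∀ ν ∈ K, (J.filter fun i => ν i = 0) ⊂ J := by
    rintro ν ⟨h1, h2, h3⟩
    rw [Finset.filter_ssubset]
    have h4 : ∃ i, q i * ν i ≠ 0 := by
      by_contra hcon
      push Not at hcon
      have : q ⬝ᵥ ν = 0 := sum_eq_zero fun i _ => hcon i
      rw [this] at h3
      exact zero_ne_one h3
    obtain ⟨i, hi⟩ := h4
    refine ⟨i, ?_, right_ne_zero_of_mul hi⟩
    by_contra hiJ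
    exact hi (by rw [hq.supp i hiJ, zero_mul])
  let gap : (S → ℝ) → ℝ := fun ν =>
    if hν : ∃ γ : ℝ, 0 < γ ∧ ∀ i, ν i ≠ 0 → γ ≤ ν i then hν.choose / 2 else 1
  have hgap : ∀ ν ∈ K, ∃ γ : ℝ, 0 < γ ∧ (∀ i, ν i ≠ 0 → γ ≤ ν i) ∧ gap ν = γ / 2 := by
    rintro ν ⟨h1, -, -⟩
    have h2 := coarseL_gap h1
    exact ⟨h2.choose, h2.choose_spec.1, h2.choose_spec.2, dif_pos h2⟩
  have main := abs_T hP (X := {d : Δ // δ o d ∈ par M J}) H (fun g d => kap M (δ o (g • d.1)))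
    (fun g d s => kap_nonneg M _ s) K (coarseL_compact q hq.nonneg) (fun ν hν => hν.1)
    (fun d ν => coarseL_stab h hG (J.filter fun i => ν i = 0) d.1)
    (fun d ν hν => hind _ (hfil ν hν) d.1) ?_ ?_ gap ?_ ?_
  · -- conclusion
    obtain ⟨i, hi⟩ := hq.ne
    have hpos : 0 < q i := lt_of_le_of_ne (hq.nonneg i) (Ne.symm hi)
    set ν : S → ℝ := Pi.single i (q i)⁻¹ with hν
    have hνK : ν ∈ K := by
      refine ⟨fun j => ?_, fun j hj => ?_, ?_⟩
      · by_cases hji : j = i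
        · rw [hji, hν, Pi.single_eq_same]
          positivity
        · rw [hν, Pi.single_eq_of_ne hji]
      · have hji : j ≠ i := by
          rintro rfl
          exact hi hj
        rw [hν, Pi.single_eq_of_ne hji]
      · rw [hν, dotProduct_single, mul_inv_cancel₀ hi]
    obtain ⟨t, ht⟩ := ((len_finite M R).image fun w => kap M w ⬝ᵥ ν).bddAbove
    refine hP.mono _ _ ?_ (main t ⟨o, by rw [h.self]; exact one_mem _⟩ ν hνK)
    rintro g ⟨h1, h2⟩
    exact ⟨h1, ht ⟨_, h2, rfl⟩⟩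
  · -- `L ≤ H`
    intro d ν hν g hg
    have h1 : δ d.1 (g • d.1) ∈ par M J := par_mono M (filter_subset _ _) hg
    show δ o (g • o) ∈ par M J
    refine h.par_trans (b := d.1) d.2 (h.par_trans (b := g • d.1) h1 ?_)
    rw [hG, h.symm o d.1]
    exact inv_mem d.2
  · -- invariance
    intro d ν hν g hg l hl
    have h1 : δ (g • d.1) ((g * l) • d.1) ∈ par M (J.filter fun i => ν i = 0) := by
      rw [mul_smul, hG]
      exact hl
    have h2 := h.mem_mul (a := o) h1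
    set w := δ o (g • d.1) with hw
    set w' := δ o ((g * l) • d.1) with hw'
    have h3 : w' = w * (w⁻¹ * w') := by rw [mul_inv_cancel_left]
    show kap M w' ⬝ᵥ ν = kap M w ⬝ᵥ ν
    refine sum_congr rfl fun i _ => ?_
    by_cases hi : i ∈ J.filter fun i => ν i = 0
    · rw [(mem_filter.1 hi).2, mul_zero, mul_zero]
    · rw [h3, kap_mul, Pi.add_apply, T_par M (inv_mem h2) _ hi, kap_par M h2 hi, add_zero]
  · -- the gap is positive
    intro ν hν
    obtain ⟨γ, hγ, -, h1⟩ := hgap ν hν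
    rw [h1]
    exact half_pos hγ
  · -- midpoints
    intro d ν hν e he heL
    obtain ⟨γ, hγ, hγν, hgν⟩ := hgap ν hν
    have hz : δ d.1 (e • d.1) ∈ par M J := by
      refine h.par_trans (b := o) ?_ (hres e he _ d.2)
      rw [h.symm o d.1]
      exact inv_mem d.2
    obtain ⟨y, hy, hle, hmid⟩ := exists_mid M hz hν.1
    obtain ⟨c, hc1, hc2⟩ := h.exists_geo hle
    have hc : δ o c ∈ par M J := h.par_trans d.2 (by rw [hc1]; exact hy)
    set r : ℝ := q ⬝ᵥ mid M (δ d.1 (e • d.1)) y ν with hr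
    have hr1 : 1 ≤ r := by
      rw [← hν.2.2]
      exact hq.mid_le hz hy hν.1
    have hr0 : 0 < r := lt_of_lt_of_le one_pos hr1
    refine ⟨⟨c, hc⟩, fun i => if i ∈ J then mid M (δ d.1 (e • d.1)) y ν i / r else 0, ⟨?_, ?_, ?_⟩, ?_⟩
    · intro i
      show 0 ≤ if i ∈ J then mid M (δ d.1 (e • d.1)) y ν i / r else 0
      split_ifs with hi
      · exact div_nonneg (hmid i hi) hr0.le
      · exact le_rfl
    · intro i hi0
      show (if i ∈ J then mid M (δ d.1 (e • d.1)) y ν i / r else 0) = 0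
      split_ifs with hi
      · rw [hq.mid_zero hz hy hν.2.1 hi hi0, zero_div]
      · rfl
    · have h1 : (q ⬝ᵥ fun i => if i ∈ J then mid M (δ d.1 (e • d.1)) y ν i / r else 0) = r / r :=
        coarseL_dot J _ _ r fun i hi => hq.supp i hi
      rw [h1, div_self hr0.ne']
    · intro g hg
      have e1 : ∀ b : Δ, δ (g⁻¹ • o) b = δ o (g • b) := by
        intro b
        rw [← hG g (g⁻¹ • o) b, smul_inv_smul]
      have h1 := h.mid_le hν.1 hγν hz heL hy hc1 hc2 (g⁻¹ • o)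
      rw [e1, e1, e1, ← mul_smul] at h1
      have h2 : kap M (δ o (g • c)) ⬝ᵥ (fun i => if i ∈ J then mid M (δ d.1 (e • d.1)) y ν i / r else 0) =
          (kap M (δ o (g • c)) ⬝ᵥ mid M (δ d.1 (e • d.1)) y ν) / r :=
        coarseL_dot J _ _ r fun i hi => kap_par M (hres g hg c hc) hi
      have h3 : 0 ≤ kap M (δ o (g • c)) ⬝ᵥ mid M (δ d.1 (e • d.1)) y ν := by
        refine sum_nonneg fun i _ => ?_
        by_cases hi : i ∈ J
        · exact mul_nonneg (kap_nonneg M _ i) (hmid i hi)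
        · rw [kap_par M (hres g hg c hc) hi, zero_mul]
      show kap M (δ o (g • c)) ⬝ᵥ (fun i => if i ∈ J then mid M (δ d.1 (e • d.1)) y ν i / r else 0) ≤
        (kap M (δ o (g • d.1)) ⬝ᵥ ν + kap M (δ o ((g * e) • d.1)) ⬝ᵥ ν) / 2 - gap ν
      rw [h2, hgν]
      exact (div_le_self h3 hr1).trans h1

end Pool.Agent.H97.BLD
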