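import Pool.Agent.H4.FC.TitsInt

/-!
# Project BLD: a torsion-free subgroup of finite index

`exists_int_faithful M`: `τ : M.Group →* Matrix D D ℤ` injective. Reduce modulo `3`: `Q` = the range of
`M.Group →* (Matrix D D (ZMod 3))ˣ` (`(… .comp τ).toHomUnits`, cf. `Tits_hom` in `H77/SX/Tits.lean`), a finite group.
Let `π g = 1`, `g ^ k = 1`, `k > 0`. Claim `g = 1`: it is enough that `g ^ p = 1`, `p` prime, implies `g = 1` (strong
induction on `k`: `k = p m`, `(g ^ m) ^ p = 1`, `π (g ^ m) = 1`). `A = τ g = 1 + 3^j B` with `j ≥ 1` maximal, if `A ≠ 1`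
(`3 ∤ B`, i.e. some entry of `B` is not divisible by `3`). `1 = A^p = 1 + p 3^j B + 3^(2j) C`, `C` an integral
matrix (binomial theorem, `B` commutes with everything in sight; for `p = 3`: `A³ = 1 + 3^(j+1) B + 3^(2j+1) B² + 3^(3j) B³`).
If `p ≠ 3`: `p B ≡ 0 mod 3`: contradiction. If `p = 3`: divide by `3^(j+1)`: `B + 3^j B² + 3^(2j-1) B³ = 0`, `B ≡ 0 mod 3`.
-/

set_option autoImplicit false

open Finset

namespace Pool.Agent.H97.BLD

section tor

variable {D : Type} [Fintype D] [DecidableEq D]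

omit [Fintype D] [DecidableEq D] in
private theorem tor_split {X : Matrix D D ℤ} (hX : X ≠ 0) (h1 : ∃ B : Matrix D D ℤ, X = (3 : ℤ) ^ 1 • B) :
    ∃ (j : ℕ) (B : Matrix D D ℤ), 1 ≤ j ∧ X = (3 : ℤ) ^ j • B ∧
      ¬ ∃ B' : Matrix D D ℤ, B = (3 : ℤ) • B' := by
  by_contra hcon
  push Not at hcon
  have hall : ∀ j : ℕ, 1 ≤ j → ∃ B : Matrix D D ℤ, X = (3 : ℤ) ^ j • B := by
    intro j hj
    induction j, hj using Nat.le_induction with
    | base => exact h1
    | succ j hj ih =>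
      obtain ⟨B, hB⟩ := ih
      obtain ⟨B', hB'⟩ := hcon j B hj hB
      refine ⟨B', ?_⟩
      rw [hB, hB', smul_smul, pow_succ]
  apply hX
  ext a b
  rw [Matrix.zero_apply]
  by_contra hne
  obtain ⟨B, hB⟩ := hall ((X a b).natAbs + 1) (by omega)
  have h2 : X a b = 3 ^ ((X a b).natAbs + 1) * B a b := by
    have := congrFun (congrFun hB a) b
    rwa [Matrix.smul_apply, smul_eq_mul] at this
  have h3 : 3 ^ ((X a b).natAbs + 1) ∣ (X a b).natAbs := by
    rw [← Int.natCast_dvd_natCast, Int.dvd_natAbs]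
    push_cast
    exact Dvd.intro _ h2.symm
  have h4 := Nat.le_of_dvd (Int.natAbs_pos.2 hne) h3
  have h5 : (X a b).natAbs + 1 < 3 ^ ((X a b).natAbs + 1) := Nat.lt_pow_self (by norm_num)
  omega

omit [Fintype D] [DecidableEq D] in
private theorem tor_smul {c : ℤ} (hc : c ≠ 0) {Y : Matrix D D ℤ} (h : c • Y = 0) : Y = 0 := by
  ext a b
  have := congrFun (congrFun h a) b
  rw [Matrix.smul_apply, Matrix.zero_apply, smul_eq_mul] at this
  exact (mul_eq_zero.1 this).resolve_left hc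

private theorem tor_pow (X : Matrix D D ℤ) (n : ℕ) :
    ∃ C : Matrix D D ℤ, (1 + X) ^ n = 1 + (n : ℤ) • X + X * X * C := by
  induction n with
  | zero => exact ⟨0, by simp⟩
  | succ n ih =>
    obtain ⟨C, hC⟩ := ih
    refine ⟨(n : ℤ) • 1 + C * (1 + X), ?_⟩
    rw [pow_succ, hC]
    simp only [Nat.cast_succ, add_smul, one_smul, mul_add, add_mul, mul_one, one_mul, smul_mul_assoc,
      mul_smul_comm, mul_assoc]
    abel

private theorem tor_prime {A : Matrix D D ℤ} (hA : ∃ B : Matrix D D ℤ, A - 1 = (3 : ℤ) ^ 1 • B)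
    {m : ℕ} (hm : ¬ 3 ∣ m) (h : A ^ m = 1) : A = 1 := by
  by_contra hne
  obtain ⟨j, B, hj, hB, hmax⟩ := tor_split (sub_ne_zero.2 hne) hA
  obtain ⟨C, hC⟩ := tor_pow (A - 1) m
  rw [add_sub_cancel, h] at hC
  have h1 : (m : ℤ) • (A - 1) + (A - 1) * (A - 1) * C = 0 := by
    have h2 : (1 : Matrix D D ℤ) + ((m : ℤ) • (A - 1) + (A - 1) * (A - 1) * C) = 1 + 0 := by
      rw [← add_assoc, ← hC, add_zero]
    exact add_left_cancel h2
  rw [hB] at h1
  have h2 : (3 : ℤ) ^ j • ((m : ℤ) • B + (3 : ℤ) ^ j • (B * B * C)) = 0 := by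
    rw [← h1]
    simp only [smul_add, smul_mul_assoc, mul_smul_comm, smul_smul]
    rw [mul_comm]
  have h3 := tor_smul (pow_ne_zero _ (by norm_num)) h2
  obtain ⟨i, rfl⟩ : ∃ i, j = i + 1 := ⟨j - 1, by omega⟩
  have hco : IsCoprime (m : ℤ) (3 : ℤ) := by
    have : Nat.Coprime m 3 := ((Nat.Prime.coprime_iff_not_dvd Nat.prime_three).2 hm).symm
    exact_mod_cast Nat.isCoprime_iff_coprime.2 this
  obtain ⟨u, v, huv⟩ := hco
  apply hmax
  refine ⟨v • B - (u * 3 ^ i) • (B * B * C), ?_⟩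
  have h4 : B = u • ((m : ℤ) • B) + (v * 3) • B := by
    rw [smul_smul, ← add_smul, huv, one_smul]
  have h5 : (m : ℤ) • B = -((3 : ℤ) ^ (i + 1) • (B * B * C)) := eq_neg_of_add_eq_zero_left h3
  rw [h5] at h4
  refine h4.trans ?_
  rw [smul_neg, smul_sub, smul_smul, smul_smul, smul_smul]
  rw [show (3 : ℤ) * v = v * 3 by ring, show (3 : ℤ) * (u * 3 ^ i) = u * 3 ^ (i + 1) by ring]
  abel

private theorem tor_three {A : Matrix D D ℤ} (hA : ∃ B : Matrix D D ℤ, A - 1 = (3 : ℤ) ^ 1 • B)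
    (h : A ^ 3 = 1) : A = 1 := by
  by_contra hne
  obtain ⟨j, B, hj, hB, hmax⟩ := tor_split (sub_ne_zero.2 hne) hA
  obtain ⟨i, rfl⟩ : ∃ i, j = i + 1 := ⟨j - 1, by omega⟩
  have h1 : (3 : ℤ) • (A - 1) + (3 : ℤ) • ((A - 1) * (A - 1)) + (A - 1) * (A - 1) * (A - 1) = A ^ 3 - 1 := by
    rw [pow_succ, pow_succ, pow_one]
    noncomm_ring
  rw [h, sub_self, hB] at h1
  have h2 : (3 : ℤ) ^ (i + 2) • (B + (3 : ℤ) ^ (i + 1) • (B * B) + (3 : ℤ) ^ (2 * i + 1) • (B * B * B)) = 0 := by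
    rw [← h1]
    simp only [smul_add, smul_mul_assoc, mul_smul_comm, smul_smul]
    congr 1
    · congr 1
      · congr 1; ring
      · congr 1; ring
    · congr 1; ring
  have h3 := tor_smul (pow_ne_zero _ (by norm_num)) h2
  apply hmax
  refine ⟨-((3 : ℤ) ^ i • (B * B)) - (3 : ℤ) ^ (2 * i) • (B * B * B), ?_⟩
  have h4 : B = -((3 : ℤ) ^ (i + 1) • (B * B)) - (3 : ℤ) ^ (2 * i + 1) • (B * B * B) := by
    have h5 : B + ((3 : ℤ) ^ (i + 1) • (B * B) + (3 : ℤ) ^ (2 * i + 1) • (B * B * B)) = 0 := by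
      rw [← add_assoc]; exact h3
    have h6 := eq_neg_of_add_eq_zero_left h5
    refine h6.trans ?_
    abel
  refine h4.trans ?_
  rw [smul_sub, smul_neg, smul_smul, smul_smul, ← pow_succ', ← pow_succ']

private theorem tor_main {A : Matrix D D ℤ} (hA : ∃ B : Matrix D D ℤ, A - 1 = (3 : ℤ) ^ 1 • B)
    {k : ℕ} (hk : 0 < k) (h : A ^ k = 1) : A = 1 := by
  have hpow : ∀ n : ℕ, ∃ B : Matrix D D ℤ, A ^ n - 1 = (3 : ℤ) ^ 1 • B := by
    intro n
    obtain ⟨B, hB⟩ := hA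
    obtain ⟨C, hC⟩ := tor_pow (A - 1) n
    rw [add_sub_cancel] at hC
    refine ⟨(n : ℤ) • B + B * (A - 1) * C, ?_⟩
    rw [hC, add_assoc, add_sub_cancel_left]
    nth_rewrite 1 2 [hB]
    simp only [smul_add, smul_mul_assoc, smul_smul]
    rw [mul_comm]
  obtain ⟨e, n', hn', hk'⟩ := Nat.exists_eq_pow_mul_and_not_dvd hk.ne' 3 (by norm_num)
  rw [hk', pow_mul] at h
  have h1 : A ^ 3 ^ e = 1 := tor_prime (hpow _) hn' h
  clear h hk' hk
  induction e with
  | zero => simpa using h1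
  | succ e ih =>
    apply ih
    rw [pow_succ, pow_mul] at h1
    exact tor_three (hpow _) h1

end tor

theorem exists_tf {S : Type} [Fintype S] [DecidableEq S] (M : CoxeterMatrix S) :
    ∃ (Q : Type) (_ : Group Q) (_ : Finite Q) (π : M.Group →* Q),
      ∀ g, π g = 1 → ∀ k : ℕ, 0 < k → g ^ k = 1 → g = 1 := by
  obtain ⟨D, _, _, τ, hτ⟩ := Pool.Agent.H4.FC.exists_int_faithful M
  have hfin : Finite (Matrix D D (ZMod 3)) := inferInstanceAs (Finite (D → D → ZMod 3))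
  refine ⟨(Matrix D D (ZMod 3))ˣ, Units.instGroup, inferInstance,
    ((((Int.castRingHom (ZMod 3)).mapMatrix : Matrix D D ℤ →+* Matrix D D (ZMod 3)) :
      Matrix D D ℤ →* Matrix D D (ZMod 3)).comp τ).toHomUnits, ?_⟩
  intro g hg k hk hgk
  have h1 : ∀ a b, (3 : ℤ) ∣ (τ g - 1) a b := by
    intro a b
    have h2 : ((τ g a b : ℤ) : ZMod 3) = (1 : Matrix D D (ZMod 3)) a b :=
      congrArg (fun u : (Matrix D D (ZMod 3))ˣ => (u : Matrix D D (ZMod 3)) a b) hg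
    have h3 : (((τ g - 1) a b : ℤ) : ZMod 3) = 0 := by
      rw [Matrix.sub_apply, Int.cast_sub, h2]
      by_cases hab : a = b
      · rw [hab, Matrix.one_apply_eq, Matrix.one_apply_eq, Int.cast_one, sub_self]
      · rw [Matrix.one_apply_ne hab, Matrix.one_apply_ne hab, Int.cast_zero, sub_self]
    exact (ZMod.intCast_zmod_eq_zero_iff_dvd _ 3).1 h3
  choose B hB using h1
  apply hτ
  rw [map_one]
  refine tor_main (k := k) ⟨Matrix.of B, ?_⟩ hk ?_
  · ext a b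
    rw [Matrix.smul_apply, Matrix.of_apply, smul_eq_mul, pow_one]
    exact hB a b
  · rw [← map_pow, hgk, map_one]

end Pool.Agent.H97.BLD
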