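import Pool.Agent.H97.BLD.Quad
import Pool.Agent.H97.BLD.Tor

/-!
# Project BLD: the colouring of the roots

`exists_tf`: `π : W → Q`. For a root `β` there is exactly one `t ∈ W` which is the reflection in `β` (`T_conj`, `T_ext`);
`col β = π t` (and `1` if `β` is no root). Let `col β = col β'` with `β, β' ∈ Nv w`. If both alternatives fail there are
`x`, `y` as in `quad`, so `(t t')^k = 1`, `π (t t') = π t * π t' = π t * π t = 1` (`t' ² = 1`: `π t' = π t`, `t² = 1`), so
`t t' = 1`, `t = t'`; then `β' = β` (`root_unique`), and both alternatives hold.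

`Nv_ext`: `β = w α_s ≥ 0`: `β ∉ Nv w`, `β ∈ Nv (w s)` (`Nv_up`), so `β' ∈ Nv (w s) \ Nv w`, which is `{β}`.
-/

set_option autoImplicit false

open Finset

namespace Pool.Agent.H97.BLD

open Pool.Agent.H4.FC Pool.Agent.H78.RC Pool.Agent.H66.NCL

variable {S : Type} [Fintype S] [DecidableEq S] (M : CoxeterMatrix S)

/-- the reflection in a root -/
theorem col_refl {β : S → ℝ} (h : IsRoot M β) :
    ∃ t : M.Group, t * t = 1 ∧ ∀ z, T M t z = z - bf (kR M) β z • β := by
  obtain ⟨w, s, rfl⟩ := h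
  refine ⟨w * M.simple s * w⁻¹, ?_, T_conj M w s⟩
  have h1 : M.simple s * M.simple s = 1 := by
    rw [simple_sq]
  calc w * M.simple s * w⁻¹ * (w * M.simple s * w⁻¹)
      = w * (M.simple s * M.simple s) * w⁻¹ := by group
    _ = 1 := by rw [h1, mul_one, mul_inv_cancel]

theorem exists_col : ∃ (C : Type) (_ : Fintype C) (col : (S → ℝ) → C), ∀ β β' w,
    col β = col β' → β ∈ Nv M w → β' ∈ Nv M w →
      (∀ x, β ∈ Nv M x → β' ∈ Nv M x) ∨ (∀ x, β' ∈ Nv M x → β ∈ Nv M x) := by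
  classical
  obtain ⟨Q, _, hQ, π, hπ⟩ := exists_tf M
  refine ⟨Q, Fintype.ofFinite Q,
    fun β => if h : IsRoot M β then π (Classical.choose (col_refl M h)) else 1, ?_⟩
  intro β β' w he hβ hβ'
  have hr : IsRoot M β := hβ.1
  have hr' : IsRoot M β' := hβ'.1
  simp only [dif_pos hr, dif_pos hr'] at he
  obtain ⟨ht2, ht⟩ := Classical.choose_spec (col_refl M hr)
  obtain ⟨-, ht'⟩ := Classical.choose_spec (col_refl M hr')
  generalize Classical.choose (col_refl M hr) = t at he ht2 ht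
  generalize Classical.choose (col_refl M hr') = t' at he ht'
  by_contra hc
  rw [not_or] at hc
  obtain ⟨hc1, hc2⟩ := hc
  push Not at hc1 hc2
  obtain ⟨x, hx1, hx2⟩ := hc1
  obtain ⟨y, hy1, hy2⟩ := hc2
  obtain ⟨k, hk, hk1⟩ := quad M ht ht' hβ hβ' hx1 hx2 hy2 hy1
  have h1 : t * t' = 1 := by
    refine hπ _ ?_ k hk hk1
    rw [map_mul, ← he, ← map_mul, ht2, map_one]
  have h2 : t' = t := by
    have h3 : t * t' = t * t := by rw [h1, ht2]
    exact mul_left_cancel h3
  have h4 : β = β' := by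
    refine root_unique M (root_norm M hr) (root_norm M hr') hβ.2.1 hβ'.2.1 fun z => ?_
    rw [← ht z, ← ht' z, h2]
  rw [h4] at hx1
  exact hx2 hx1

/-- a root is determined by its half-space -/
theorem Nv_ext {β β' : S → ℝ} (h : IsRoot M β) (h0 : ∀ i, 0 ≤ β i)
    (he : ∀ x, β ∈ Nv M x ↔ β' ∈ Nv M x) : β = β' := by
  obtain ⟨w, s, rfl⟩ := h
  obtain ⟨h1, h2⟩ := Nv_up M ((len_up_iff M w s).2 h0)
  have h3 : T M w (Pi.single s 1) ∈ Nv M (w * M.simple s) := by
    rw [h2]
    exact Set.mem_insert _ _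
  have h4 : β' ∈ Nv M (w * M.simple s) := (he _).1 h3
  have h5 : β' ∉ Nv M w := fun h6 => h1 ((he w).2 h6)
  rw [h2] at h4
  rcases Set.mem_insert_iff.1 h4 with h6 | h6
  · exact h6.symm
  · exact absurd h6 h5

end Pool.Agent.H97.BLD
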