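import Pool.Agent.H78.RC.Long
import Pool.Agent.H66.NCL.PropA
import Pool.Agent.H66.NCL.Hilbert

/-!
# Project BLD: groups acting on buildings. Definitions

`M : CoxeterMatrix S` (`S` finite), `W = M.Group`, `titsHom M : W →* Matrix S S ℝ` the geometric
representation, `bf (kR M)` the invariant form (roots have norm `2`), `par M J` the parabolic subgroup `W_J`,
`Sph M J`: it is finite.
-/

set_option autoImplicit false

open Finset

namespace Pool.Agent.H97.BLD

open Pool.Agent.H4.FC Pool.Agent.H78.RC Pool.Agent.H66.NCL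

universe u v

section bld

variable {S : Type} {Δ : Type v}

/-- the word length -/
noncomputable def len (M : CoxeterMatrix S) (w : M.Group) : ℕ := M.toCoxeterSystem.length w

/-- `δ` is the Weyl distance of a building of type `M` with set of chambers `Δ`
(Abramenko-Brown, Buildings, Definition 5.1). -/
structure IsBuilding (M : CoxeterMatrix S) (δ : Δ → Δ → M.Group) : Prop where
  eq_one : ∀ c d, δ c d = 1 ↔ c = d
  step : ∀ s c c' d, δ c' c = M.simple s → δ c' d = M.simple s * δ c d ∨ δ c' d = δ c d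
  step_up : ∀ s c c' d, δ c' c = M.simple s → len M (M.simple s * δ c d) = len M (δ c d) + 1 →
    δ c' d = M.simple s * δ c d
  exists_step : ∀ s c d, ∃ c', δ c' c = M.simple s ∧ δ c' d = M.simple s * δ c d

/-- the residue of type `J` of the chamber `c` -/
def residue (M : CoxeterMatrix S) (δ : Δ → Δ → M.Group) (J : Finset S) (c : Δ) : Set Δ :=
  {d | δ c d ∈ par M J}

end bld

/-! ### The geometric representation and the weak order -/

section cox

variable {S : Type} [Fintype S] [DecidableEq S]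

/-- the action of `W` on `V = ℝ ^ S` -/
noncomputable def T (M : CoxeterMatrix S) (w : M.Group) (x : S → ℝ) : S → ℝ :=
  (titsHom M w).mulVec x

/-- roots -/
def IsRoot (M : CoxeterMatrix S) (β : S → ℝ) : Prop := ∃ w s, β = T M w (Pi.single s 1)

/-- the inversion set of `w`: the positive roots `β` with `w⁻¹ β < 0` -/
def Nv (M : CoxeterMatrix S) (w : M.Group) : Set (S → ℝ) :=
  {β | IsRoot M β ∧ (∀ i, 0 ≤ β i) ∧ ∀ i, T M w⁻¹ β i ≤ 0}

omit [Fintype S] [DecidableEq S] in
/-- the weak order: `v` is a prefix of `w` -/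
def Le (M : CoxeterMatrix S) (v w : M.Group) : Prop := len M v + len M (v⁻¹ * w) = len M w

/-- the functional `(ν + z ν) / 2` in the chamber `y`, on the simple roots -/
noncomputable def mid (M : CoxeterMatrix S) (z y : M.Group) (ν : S → ℝ) : S → ℝ := fun s =>
  (T M y (Pi.single s 1) ⬝ᵥ ν + T M (z⁻¹ * y) (Pi.single s 1) ⬝ᵥ ν) / 2

end cox

/-! ### Property A for subsets of a group -/

section ker

variable {G : Type u}

/-- the kernel `k` is realised by finitely supported vectors (nonnegative ones if `b`) -/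
def Rz (b : Prop) (k : G → G → ℝ) : Prop :=
  ∃ (ι : Type u) (v : G → ι →₀ ℝ), (b → ∀ g i, 0 ≤ v g i) ∧ ∀ g h, k g h = ip (v g) (v h)

variable [Group G]

/-- The subset `Y` of `G` has property A (`b = True`, `θ = 0`), or embeds coarsely into a Hilbert space
(`b = False`, `θ = 1 / 2`), with respect to the left invariant coarse structure of `G`. -/
def Det (b : Prop) (θ : ℝ) (Y : Set G) : Prop :=
  ∀ (E : Finset G) (ε : ℝ), 0 < ε → ∃ (k : G → G → ℝ) (F : Finset G), Rz b k ∧
    (∀ g ∈ Y, k g g = 1) ∧ (∀ g ∈ Y, ∀ e ∈ E, g * e ∈ Y → 1 - ε ≤ k g (g * e)) ∧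
    ∀ g ∈ Y, ∀ x, x ∉ F → g * x ∈ Y → k g (g * x) ≤ θ

/-- The closure properties of the class of subsets `Y` with `Det b θ Y` which are used. -/
structure Good (P : Set G → Prop) : Prop where
  mono : ∀ Y Y' : Set G, Y ⊆ Y' → P Y' → P Y
  empty : P ∅
  union : ∀ Y Y' : Set G, P Y → P Y' → P (Y ∪ Y')
  cosets : ∀ (L : Subgroup G) (Y : Set G), P (L : Set G) → (∀ y ∈ Y, ∀ l ∈ L, y * l ∈ Y) →
    (∀ E : Finset G, ∃ Z, P Z ∧ ∀ y ∈ Y, ∀ e ∈ E, e ∉ L → y * e ∈ Y → y ∈ Z) → P Y
  fiber : ∀ Y : Set G, (∀ (E : Finset G) (ε : ℝ), 0 < ε →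
    ∃ (Z : Type u) (ξ : G → Z →₀ ℝ) (X : Set G), P X ∧ (∀ g ∈ Y, ∀ z, 0 ≤ ξ g z) ∧
      (∀ g ∈ Y, ((ξ g).sum fun _ t => t) = 1) ∧
      (∀ g ∈ Y, ∀ e ∈ E, g * e ∈ Y → n1 (ξ g - ξ (g * e)) ≤ ε) ∧
      ∀ z, ∃ h, ∀ g ∈ Y, ξ g z ≠ 0 → h⁻¹ * g ∈ X) → P Y

end ker

end Pool.Agent.H97.BLD
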