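import Pool.Agent.H97.BLD.DetN

/-!
# Project BLD: gluing

* `Det.glue`: let `E`, `ε` be given (`E` symmetric with `1 ∈ E` without loss of generality: use `E₀ = E ∪ E⁻¹ ∪ {1}` as `E` in the
  hypothesis, too), `n ≥ 2 / ε` (real), `ε' = ε / 2`. The hypothesis for `E₀`, `ε'` gives `Z`, `k'`, `F'`. Let `d g` be the least `m ≤ n` such
  that `g x ∈ Z` for a product `x` of `m` elements of `E₀` (`n` if there is none), `φ g = d g / n ∈ [0, 1]`. `φ g = 0` iff `g ∈ Z` (for `n > 0`),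
  and `|φ g - φ (g e)| ≤ 1 / n` for `e ∈ E₀` (one more factor `e⁻¹` or `e`). `N = {x | ∃ y ∈ E₀^n, x y ∈ Z}` satisfies `Det`
  (`Det.nbhd`); let `k₀`, `F₀` be a kernel for `N`, `E`, `ε'`. Kernel
  `k g h = √(1 - φ g) √(1 - φ h) k₀ g h + √(φ g) √(φ h) k' g h` (`Rz.add`), `F = F₀ ∪ F'`.
  - `g ∈ Y`: if `φ g < 1` then `g ∈ N`, `k₀ g g = 1`; if `φ g > 0` then `g ∉ Z`, `k' g g = 1`: `k g g = (1 - φ g) + φ g = 1`.
  - `g, g e ∈ Y`: the same way `k g (g e) ≥ (1 - ε') (√(1 - φ g) √(1 - φ (g e)) + √(φ g) √(φ (g e)))`, and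
    `√a √b ≥ min a b`, so the bracket is `≥ 1 - |φ g - φ (g e)| ≥ 1 - 1 / n` (if `ε' > 1` there is nothing to prove: then the
    bound `1 - ε` is... assume `ε ≤ 1` first; a smaller `ε` is enough).
  - `g⁻¹ h ∉ F`: both kernels are `≤ θ` where their weights are nonzero, and the weights have sum `≤ 1`
    (Cauchy-Schwarz), `θ ≥ 0`.
-/

set_option autoImplicit false

open Finset

namespace Pool.Agent.H97.BLD

open Pool.Agent.H66.NCL

universe u

variable {G : Type u} [Group G] {b : Prop} {θ : ℝ}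

/-- the elements which are moved into `Z` by a product of `m` elements of `A` -/
private def detgD (A : Finset G) (Z : Set G) : ℕ → Set G
  | 0 => Z
  | m + 1 => {x | ∃ e ∈ A, x * e ∈ detgD A Z m}

private theorem detg_det {Z : Set G} (h : Det b θ Z) (A : Finset G) (m : ℕ) :
    Det b θ (detgD A Z m) := by
  induction m with
  | zero => exact h
  | succ m ih => exact ih.nbhd A

private theorem detg_mono {A : Finset G} (h1 : (1 : G) ∈ A) (Z : Set G) {m n : ℕ} (h : m ≤ n) :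
    detgD A Z m ⊆ detgD A Z n := by
  induction h with
  | refl => exact subset_rfl
  | step _ ih =>
    intro x hx
    refine ⟨1, h1, ?_⟩
    rw [mul_one]
    exact ih hx

private theorem detg_sqrt_min {a c : ℝ} (ha : 0 ≤ a) (hc : 0 ≤ c) :
    min a c ≤ √a * √c := by
  have h0 : 0 ≤ min a c := le_min ha hc
  calc min a c = √(min a c) * √(min a c) := (Real.mul_self_sqrt h0).symm
    _ ≤ √a * √c := mul_le_mul (Real.sqrt_le_sqrt (min_le_left _ _))
        (Real.sqrt_le_sqrt (min_le_right _ _)) (Real.sqrt_nonneg _) (Real.sqrt_nonneg _)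

private theorem detg_sqrt_avg {a c : ℝ} (ha : 0 ≤ a) (hc : 0 ≤ c) :
    √a * √c ≤ (a + c) / 2 := by
  have h1 := Real.mul_self_sqrt ha
  have h2 := Real.mul_self_sqrt hc
  nlinarith [sq_nonneg (√a - √c)]

theorem Det.glue (hθ : 0 ≤ θ) {Y : Set G} (h : ∀ (E : Finset G) (ε : ℝ), 0 < ε →
    ∃ (Z : Set G) (k' : G → G → ℝ) (F' : Finset G), Det b θ Z ∧ Rz b k' ∧
      (∀ g ∈ Y, g ∉ Z → k' g g = 1) ∧
      (∀ g ∈ Y, ∀ e ∈ E, g * e ∈ Y → g ∉ Z → g * e ∉ Z → 1 - ε ≤ k' g (g * e)) ∧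
      ∀ g ∈ Y, ∀ x, x ∉ F' → g * x ∈ Y → g ∉ Z → g * x ∉ Z → k' g (g * x) ≤ θ) :
    Det b θ Y := by
  classical
  intro E ε hε
  -- the constants
  set ε₁ : ℝ := min ε 1 with hε₁
  have hε₁0 : 0 < ε₁ := lt_min hε one_pos
  have hε₁1 : ε₁ ≤ 1 := min_le_right _ _
  have hε₁e : ε₁ ≤ ε := min_le_left _ _
  obtain ⟨n, hn⟩ := exists_nat_gt (2 / ε₁)
  have hn0' : (0 : ℝ) < n := lt_trans (by positivity) hn
  have hn0 : 0 < n := by exact_mod_cast hn0'
  have hn1 : 1 / (n : ℝ) ≤ ε₁ / 2 := by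
    rw [div_le_iff₀ hn0']
    rw [div_lt_iff₀ hε₁0] at hn
    linarith
  set E₀ : Finset G := E ∪ E.image (fun e => e⁻¹) ∪ {1} with hE₀
  have h1E : (1 : G) ∈ E₀ := by simp [hE₀]
  have hEE : ∀ e ∈ E, e ∈ E₀ ∧ e⁻¹ ∈ E₀ := by
    intro e he
    constructor
    · simp [hE₀, he]
    · simp [hE₀, he]
  obtain ⟨Z, k', F', hZ, hk', h1, h2, h3⟩ := h E₀ (ε₁ / 2) (by linarith)
  obtain ⟨k₀, F₀, hk₀, g1, g2, g3⟩ := detg_det hZ E₀ n E (ε₁ / 2) (by linarith)
  -- the distance to `Z`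
  have hex : ∀ g : G, ∃ m, g ∈ detgD E₀ Z m ∨ m = n := fun g => ⟨n, Or.inr rfl⟩
  let d : G → ℕ := fun g => Nat.find (hex g)
  have hd_le : ∀ g, d g ≤ n := fun g => Nat.find_min' (hex g) (Or.inr rfl)
  have hd_le' : ∀ g m, g ∈ detgD E₀ Z m → d g ≤ m := fun g m hm =>
    Nat.find_min' (hex g) (Or.inl hm)
  have hd_mem : ∀ g, d g < n → g ∈ detgD E₀ Z (d g) := by
    intro g hg
    rcases Nat.find_spec (hex g) with h4 | h4
    · exact h4
    · exact absurd h4 (ne_of_lt hg)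
  have hdN : ∀ g, d g < n → g ∈ detgD E₀ Z n := fun g hg =>
    detg_mono h1E Z (hd_le g) (hd_mem g hg)
  have hdZ : ∀ g, d g ≠ 0 → g ∉ Z := by
    intro g hg hgZ
    exact hg (Nat.le_zero.1 (hd_le' g 0 hgZ))
  have hd1 : ∀ g, ∀ e ∈ E₀, d g ≤ d (g * e) + 1 := by
    intro g e he
    by_cases h4 : d (g * e) < n
    · exact hd_le' g _ ⟨e, he, hd_mem _ h4⟩
    · have := hd_le g
      omega
  have hd2 : ∀ g, ∀ e ∈ E, d (g * e) ≤ d g + 1 := by
    intro g e he
    have h4 := hd1 (g * e) e⁻¹ (hEE e he).2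
    rwa [mul_inv_cancel_right] at h4
  -- the weights
  let φ : G → ℝ := fun g => (d g : ℝ) / n
  have hφ0 : ∀ g, 0 ≤ φ g := fun g => by positivity
  have hφ1 : ∀ g, 0 ≤ 1 - φ g := by
    intro g
    have h4 : (d g : ℝ) ≤ n := by exact_mod_cast hd_le g
    have h5 : φ g ≤ 1 := (div_le_one hn0').2 h4
    linarith
  have hφN : ∀ g, ¬ d g < n → √(1 - φ g) = 0 := by
    intro g hg
    have h4 : d g = n := le_antisymm (hd_le g) (not_lt.1 hg)
    have h5 : φ g = 1 := by
      show (d g : ℝ) / n = 1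
      rw [h4]
      exact div_self hn0'.ne'
    rw [h5, sub_self, Real.sqrt_zero]
  have hφZ : ∀ g, d g = 0 → √(φ g) = 0 := by
    intro g hg
    have h5 : φ g = 0 := by
      show (d g : ℝ) / n = 0
      rw [hg, Nat.cast_zero, zero_div]
    rw [h5, Real.sqrt_zero]
  have hφe : ∀ g, ∀ e ∈ E, |φ g - φ (g * e)| ≤ 1 / n := by
    intro g e he
    have h4 : (d g : ℝ) ≤ d (g * e) + 1 := by exact_mod_cast hd1 g e (hEE e he).1
    have h5 : (d (g * e) : ℝ) ≤ d g + 1 := by exact_mod_cast hd2 g e he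
    have h6 : φ g - φ (g * e) = ((d g : ℝ) - d (g * e)) / n := by
      show (d g : ℝ) / n - (d (g * e) : ℝ) / n = _
      rw [sub_div]
    rw [h6, abs_div, abs_of_pos hn0']
    refine div_le_div_of_nonneg_right ?_ hn0'.le
    rw [abs_le]
    constructor <;> linarith
  refine ⟨fun g g' => √(1 - φ g) * √(1 - φ g') * k₀ g g' + √(φ g) * √(φ g') * k' g g',
    F₀ ∪ F', hk₀.add hk' (fun g => √(1 - φ g)) (fun g => √(φ g)) (fun g => Real.sqrt_nonneg _)
      (fun g => Real.sqrt_nonneg _), ?_, ?_, ?_⟩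
  · -- the diagonal
    intro g hg
    have e1 : √(1 - φ g) * √(1 - φ g) * k₀ g g = 1 - φ g := by
      rw [Real.mul_self_sqrt (hφ1 g)]
      by_cases h4 : d g < n
      · rw [g1 g (hdN g h4), mul_one]
      · have h5 := hφN g h4
        have h6 : 1 - φ g = 0 := by
          have := Real.mul_self_sqrt (hφ1 g)
          rw [h5, mul_zero] at this
          exact this.symm
        rw [h6, zero_mul]
    have e2 : √(φ g) * √(φ g) * k' g g = φ g := by
      rw [Real.mul_self_sqrt (hφ0 g)]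
      by_cases h4 : d g = 0
      · have h5 := hφZ g h4
        have h6 : φ g = 0 := by
          have := Real.mul_self_sqrt (hφ0 g)
          rw [h5, mul_zero] at this
          exact this.symm
        rw [h6, zero_mul]
      · rw [h1 g hg (hdZ g h4), mul_one]
    show √(1 - φ g) * √(1 - φ g) * k₀ g g + √(φ g) * √(φ g) * k' g g = 1
    rw [e1, e2]
    ring
  · -- near the diagonal
    intro g hg e he hge
    have e1 : √(1 - φ g) * √(1 - φ (g * e)) * (1 - ε₁ / 2) ≤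
        √(1 - φ g) * √(1 - φ (g * e)) * k₀ g (g * e) := by
      by_cases h4 : d g < n
      · by_cases h5 : d (g * e) < n
        · exact mul_le_mul_of_nonneg_left (g2 g (hdN g h4) e he (hdN _ h5)) (by positivity)
        · rw [hφN _ h5]; simp
      · rw [hφN _ h4]; simp
    have e2 : √(φ g) * √(φ (g * e)) * (1 - ε₁ / 2) ≤
        √(φ g) * √(φ (g * e)) * k' g (g * e) := by
      by_cases h4 : d g = 0
      · rw [hφZ _ h4]; simp
      · by_cases h5 : d (g * e) = 0
        · rw [hφZ _ h5]; simp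
        · exact mul_le_mul_of_nonneg_left
            (h2 g hg e (hEE e he).1 hge (hdZ _ h4) (hdZ _ h5)) (by positivity)
    have e3 := detg_sqrt_min (hφ1 g) (hφ1 (g * e))
    have e4 := detg_sqrt_min (hφ0 g) (hφ0 (g * e))
    have e5 : 1 - ε₁ / 2 ≤ √(1 - φ g) * √(1 - φ (g * e)) + √(φ g) * √(φ (g * e)) := by
      have h6 := hφe g e he
      have h7 := abs_le.1 h6
      rcases le_total (φ g) (φ (g * e)) with h8 | h8
      · rw [min_eq_left h8] at e4
        rw [min_eq_right (by linarith)] at e3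
        linarith [h7.1]
      · rw [min_eq_right h8] at e4
        rw [min_eq_left (by linarith)] at e3
        linarith [h7.2]
    show 1 - ε ≤ √(1 - φ g) * √(1 - φ (g * e)) * k₀ g (g * e) +
      √(φ g) * √(φ (g * e)) * k' g (g * e)
    nlinarith [mul_le_mul_of_nonneg_right e5 (show 0 ≤ 1 - ε₁ / 2 by linarith),
      sq_nonneg (ε₁ / 2)]
  · -- far from the diagonal
    intro g hg x hx hgx
    rw [Finset.mem_union, not_or] at hx
    have e1 : √(1 - φ g) * √(1 - φ (g * x)) * k₀ g (g * x) ≤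
        √(1 - φ g) * √(1 - φ (g * x)) * θ := by
      by_cases h4 : d g < n
      · by_cases h5 : d (g * x) < n
        · exact mul_le_mul_of_nonneg_left (g3 g (hdN g h4) x hx.1 (hdN _ h5)) (by positivity)
        · rw [hφN _ h5]; simp
      · rw [hφN _ h4]; simp
    have e2 : √(φ g) * √(φ (g * x)) * k' g (g * x) ≤ √(φ g) * √(φ (g * x)) * θ := by
      by_cases h4 : d g = 0
      · rw [hφZ _ h4]; simp
      · by_cases h5 : d (g * x) = 0
        · rw [hφZ _ h5]; simp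
        · exact mul_le_mul_of_nonneg_left (h3 g hg x hx.2 hgx (hdZ _ h4) (hdZ _ h5))
            (by positivity)
    have e3 := detg_sqrt_avg (hφ1 g) (hφ1 (g * x))
    have e4 := detg_sqrt_avg (hφ0 g) (hφ0 (g * x))
    have e5 : √(1 - φ g) * √(1 - φ (g * x)) + √(φ g) * √(φ (g * x)) ≤ 1 := by linarith
    show √(1 - φ g) * √(1 - φ (g * x)) * k₀ g (g * x) +
      √(φ g) * √(φ (g * x)) * k' g (g * x) ≤ θ
    nlinarith [mul_le_mul_of_nonneg_right e5 hθ]

end Pool.Agent.H97.BLD
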