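import Pool.Agent.H97.BLD.RzL

/-!
# Project BLD: neighbourhoods

* `Det.nbhd`: for `x ∈ N = {x | ∃ e ∈ A, x * e ∈ Y}` choose `e_x ∈ A` with `τ x = x e_x ∈ Y` (`τ x = x` otherwise). Given `E`, `ε` use
  `Det b θ Y` with `E' = A⁻¹ E A` (all products `a⁻¹ e a'`), kernel `k (τ g) (τ h)` (`Rz.comp`), `F = A F' A⁻¹`:
  `(τ g)⁻¹ τ (g e) = e_g⁻¹ e e_(g e) ∈ E'`; if `g⁻¹ h ∉ A F' A⁻¹` then `(τ g)⁻¹ τ h ∉ F'`.
-/

set_option autoImplicit false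

open Finset

namespace Pool.Agent.H97.BLD

open Pool.Agent.H66.NCL

universe u

variable {G : Type u} [Group G] {b : Prop} {θ : ℝ}

theorem Det.nbhd {Y : Set G} (h : Det b θ Y) (A : Finset G) : Det b θ {x | ∃ e ∈ A, x * e ∈ Y} := by
  classical
  intro E ε hε
  have hch : ∀ x : G, ∃ e : G, (∃ e ∈ A, x * e ∈ Y) → e ∈ A ∧ x * e ∈ Y := by
    intro x
    by_cases hx : ∃ e ∈ A, x * e ∈ Y
    · obtain ⟨e, he, hxe⟩ := hx
      exact ⟨e, fun _ => ⟨he, hxe⟩⟩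
    · exact ⟨1, fun h => absurd h hx⟩
  choose e he using hch
  obtain ⟨k, F, hk, h1, h2, h3⟩ :=
    h ((A ×ˢ (E ×ˢ A)).image fun p => p.1⁻¹ * p.2.1 * p.2.2) ε hε
  have hmul : ∀ g x : G, g * x * e (g * x) = g * e g * ((e g)⁻¹ * x * e (g * x)) := by
    intro g x
    group
  refine ⟨fun g g' => k (g * e g) (g' * e g'),
    (A ×ˢ (F ×ˢ A)).image fun p => p.1 * p.2.1 * p.2.2⁻¹, hk.comp fun g => g * e g, ?_, ?_, ?_⟩
  · intro g hg
    exact h1 _ (he g hg).2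
  · intro g hg x hx hgx
    have hY := (he (g * x) hgx).2
    show 1 - ε ≤ k (g * e g) (g * x * e (g * x))
    rw [hmul] at hY ⊢
    refine h2 _ (he g hg).2 _ ?_ hY
    exact mem_image.2 ⟨(e g, x, e (g * x)),
      mem_product.2 ⟨(he g hg).1, mem_product.2 ⟨hx, (he (g * x) hgx).1⟩⟩, rfl⟩
  · intro g hg x hx hgx
    have hY := (he (g * x) hgx).2
    show k (g * e g) (g * x * e (g * x)) ≤ θ
    rw [hmul] at hY ⊢
    refine h3 _ (he g hg).2 _ ?_ hY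
    intro hF
    refine hx (mem_image.2 ⟨(e g, (e g)⁻¹ * x * e (g * x), e (g * x)),
      mem_product.2 ⟨(he g hg).1, mem_product.2 ⟨hF, (he (g * x) hgx).1⟩⟩, ?_⟩)
    show e g * ((e g)⁻¹ * x * e (g * x)) * (e (g * x))⁻¹ = x
    group

end Pool.Agent.H97.BLD
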