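import Pool.Agent.H97.BLD.Col

/-!
# Project BLD: the chains of an inversion set

`hcol`: the colouring of `exists_col`. `Prec M β β'`: `β` comes before `β'`. On the set of the elements of one colour of `Nv w`,
`Prec` is a strict total order (`hcol`; antisymmetry: `Nv_ext`; transitivity clear).
* `Yc_diff`: `β ↦ aft w β` is injective on the elements of one colour of `Nv w`: if `Prec β β'` then the set counted for `β'` is a
  proper subset of the one for `β` (it misses `β'`), so `aft w β' < aft w β`. So for each colour `c` at most `n` elements `β` of colour `c`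
  satisfy `aft w β < j c ≤ n`.
* `Yc_shift`: `γ = w α_s`, `i = col γ`, `Nv (w s) = insert γ (Nv w)` (`Nv_up`). For `β ∈ Nv w` of colour `i`: `Prec β γ` (the other
  alternative of `hcol` for `β`, `γ` in `Nv (w s)` fails at `w`, and `β ≠ γ`), so `aft (w s) β = aft w β + 1`; for the other colours
  `aft (w s) β = aft w β`; `aft (w s) γ = 0` (if `Prec γ β'`, `β' ∈ Nv (w s)`, `β' ≠ γ` then `β' ∈ Nv w`, so `γ ∈ Nv w`). So for `1 ≤ j i`:
  `γ ∉ Yc (w s) j`, and for `β ∈ Nv w` of colour `i`: `j i ≤ aft w β + 1 ↔ j i - 1 ≤ aft w β`.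
* `len_le_of_Yc`: `len_inv_mul`; `Nv w \ Nv w' ⊆ Nv w \ Yc w' j' = Nv w \ Yc w j`.
-/

set_option autoImplicit false

open Finset

namespace Pool.Agent.H97.BLD

open Pool.Agent.H4.FC Pool.Agent.H78.RC Pool.Agent.H66.NCL

variable {S : Type} [Fintype S] [DecidableEq S] (M : CoxeterMatrix S) {C : Type}

/-- the half-space of `β'` is properly contained in the one of `β` -/
def Prec (β β' : S → ℝ) : Prop := β' ≠ β ∧ ∀ x, β' ∈ Nv M x → β ∈ Nv M x

/-- the number of the elements of the colour of `β` in `Nv w` after `β` -/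
noncomputable def aft (col : (S → ℝ) → C) (w : M.Group) (β : S → ℝ) : ℕ :=
  {β' | β' ∈ Nv M w ∧ col β' = col β ∧ Prec M β β'}.ncard

/-- `Nv w` without the last `j c` elements of colour `c`, for each `c` -/
def Yc (col : (S → ℝ) → C) (w : M.Group) (j : C → ℕ) : Set (S → ℝ) :=
  {β | β ∈ Nv M w ∧ j (col β) ≤ aft M col w β}

variable {M}

private theorem etaA_lt {col : (S → ℝ) → C} {w : M.Group} {β β' : S → ℝ} (hβ : β ∈ Nv M w) (hβ' : β' ∈ Nv M w)
    (hc : col β = col β') (hp : Prec M β β') : aft M col w β' < aft M col w β := by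
  unfold aft
  refine Set.ncard_lt_ncard ?_ ((Nv_finite M w).subset fun x hx => hx.1)
  rw [Set.ssubset_iff_exists]
  refine ⟨?_, β', ⟨hβ', hc.symm, hp⟩, fun h => h.2.2.1 rfl⟩
  rintro x ⟨h1, h2, h3⟩
  refine ⟨h1, h2.trans hc.symm, ?_, fun y hy => hp.2 y (h3.2 y hy)⟩
  rintro rfl
  refine hp.1 (Nv_ext M hβ.1 hβ.2.1 fun y => ⟨fun hy => h3.2 y hy, fun hy => hp.2 y hy⟩).symm

private theorem etaA_inj {col : (S → ℝ) → C} (hcol : ∀ β β' w, col β = col β' → β ∈ Nv M w →
      β' ∈ Nv M w → (∀ x, β ∈ Nv M x → β' ∈ Nv M x) ∨ (∀ x, β' ∈ Nv M x → β ∈ Nv M x))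
    {w : M.Group} {β β' : S → ℝ} (hβ : β ∈ Nv M w) (hβ' : β' ∈ Nv M w) (hc : col β = col β')
    (ha : aft M col w β = aft M col w β') : β = β' := by
  by_contra hne
  rcases hcol β β' w hc hβ hβ' with h | h
  · have h1 := etaA_lt hβ' hβ hc.symm ⟨hne, h⟩
    omega
  · have h1 := etaA_lt hβ hβ' hc ⟨fun e => hne e.symm, h⟩
    omega

theorem Yc_diff [Fintype C] {col : (S → ℝ) → C} (hcol : ∀ β β' w, col β = col β' → β ∈ Nv M w →
      β' ∈ Nv M w → (∀ x, β ∈ Nv M x → β' ∈ Nv M x) ∨ (∀ x, β' ∈ Nv M x → β ∈ Nv M x))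
    (w : M.Group) {j : C → ℕ} {n : ℕ} (hj : ∀ c, j c ≤ n) :
    (Nv M w \ Yc M col w j).ncard ≤ Fintype.card C * n := by
  have h1 : (Nv M w \ Yc M col w j).ncard ≤
      ((↑((Finset.univ : Finset C) ×ˢ Finset.range n) : Set (C × ℕ))).ncard := by
    refine Set.ncard_le_ncard_of_injOn (fun β => (col β, aft M col w β)) ?_ ?_ (Finset.finite_toSet _)
    · rintro β ⟨h2, h3⟩
      rw [Finset.mem_coe, Finset.mem_product, Finset.mem_range]
      refine ⟨Finset.mem_univ _, ?_⟩
      have h4 : ¬ j (col β) ≤ aft M col w β := fun h5 => h3 ⟨h2, h5⟩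
      have h5 := hj (col β)
      simp only
      omega
    · rintro β ⟨h2, -⟩ β' ⟨h3, -⟩ he
      rw [Prod.mk.injEq] at he
      exact etaA_inj hcol h2 h3 he.1 he.2
  rw [Set.ncard_coe_finset, Finset.card_product, Finset.card_univ, Finset.card_range] at h1
  exact h1

theorem Yc_shift [DecidableEq C] {col : (S → ℝ) → C} (hcol : ∀ β β' w, col β = col β' →
      β ∈ Nv M w → β' ∈ Nv M w →
      (∀ x, β ∈ Nv M x → β' ∈ Nv M x) ∨ (∀ x, β' ∈ Nv M x → β ∈ Nv M x))
    {w : M.Group} {s : S} (h : len M (w * M.simple s) = len M w + 1) {j : C → ℕ} {i : C}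
    (hi : i = col (T M w (Pi.single s 1))) (hj : 1 ≤ j i) :
    Yc M col (w * M.simple s) j = Yc M col w (Function.update j i (j i - 1)) := by
  obtain ⟨h1, h2⟩ := Nv_up M h
  set γ := T M w (Pi.single s 1) with hγ
  have hfin : ∀ β, {β' | β' ∈ Nv M w ∧ col β' = col β ∧ Prec M β β'}.Finite := fun β =>
    (Nv_finite M w).subset fun x hx => hx.1
  have hγm : γ ∈ Nv M (w * M.simple s) := by
    rw [h2]
    exact Set.mem_insert _ _
  have hmem : ∀ β, β ∈ Nv M w → β ∈ Nv M (w * M.simple s) := by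
    intro β hβ
    rw [h2]
    exact Set.mem_insert_of_mem _ hβ
  -- the elements of colour `i`
  have ha : ∀ β, β ∈ Nv M w → col β = i → aft M col (w * M.simple s) β = aft M col w β + 1 := by
    intro β hβ hb
    have hp : Prec M β γ := by
      refine ⟨?_, ?_⟩
      · rintro e
        rw [e] at h1
        exact h1 hβ
      · rcases hcol β γ (w * M.simple s) (hb.trans hi) (hmem β hβ) hγm with h3 | h3
        · exact absurd (h3 w hβ) h1
        · exact h3
    unfold aft
    have h3 : {β' | β' ∈ Nv M (w * M.simple s) ∧ col β' = col β ∧ Prec M β β'} =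
        insert γ {β' | β' ∈ Nv M w ∧ col β' = col β ∧ Prec M β β'} := by
      ext x
      rw [Set.mem_insert_iff, Set.mem_ofPred_eq, Set.mem_ofPred_eq, h2, Set.mem_insert_iff]
      constructor
      · rintro ⟨h4 | h4, h5⟩
        · exact Or.inl h4
        · exact Or.inr ⟨h4, h5⟩
      · rintro (h4 | ⟨h4, h5⟩)
        · rw [h4]
          exact ⟨Or.inl rfl, (hb.trans hi).symm, hp⟩
        · exact ⟨Or.inr h4, h5⟩
    rw [h3, Set.ncard_insert_of_notMem (fun h4 => h1 h4.1) (hfin β)]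
  have hb : ∀ β, β ∈ Nv M w → col β ≠ i → aft M col (w * M.simple s) β = aft M col w β := by
    intro β hβ hb
    unfold aft
    congr 1
    ext x
    rw [Set.mem_ofPred_eq, Set.mem_ofPred_eq, h2, Set.mem_insert_iff]
    constructor
    · rintro ⟨h4 | h4, h5⟩
      · exfalso
        rw [h4] at h5
        exact hb (h5.1.symm.trans hi.symm)
      · exact ⟨h4, h5⟩
    · rintro ⟨h4, h5⟩
      exact ⟨Or.inr h4, h5⟩
  have hc : aft M col (w * M.simple s) γ = 0 := by
    unfold aft
    have h3 : {β' | β' ∈ Nv M (w * M.simple s) ∧ col β' = col γ ∧ Prec M γ β'} = ∅ := by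
      rw [Set.eq_empty_iff_forall_notMem]
      rintro x ⟨h4, h5, h6⟩
      rw [h2, Set.mem_insert_iff] at h4
      rcases h4 with h4 | h4
      · exact h6.1 h4
      · exact h1 (h6.2 w h4)
    rw [h3, Set.ncard_empty]
  ext β
  unfold Yc
  rw [Set.mem_ofPred_eq, Set.mem_ofPred_eq, h2, Set.mem_insert_iff]
  constructor
  · rintro ⟨h4 | h4, h5⟩
    · exfalso
      rw [h4, hc, ← hi] at h5
      omega
    · refine ⟨h4, ?_⟩
      by_cases h6 : col β = i
      · rw [ha β h4 h6, h6] at h5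
        rw [h6, Function.update_self]
        omega
      · rw [hb β h4 h6] at h5
        rw [Function.update_of_ne h6]
        exact h5
  · rintro ⟨h4, h5⟩
    refine ⟨Or.inr h4, ?_⟩
    by_cases h6 : col β = i
    · rw [h6, Function.update_self] at h5
      rw [ha β h4 h6, h6]
      omega
    · rw [Function.update_of_ne h6] at h5
      rw [hb β h4 h6]
      exact h5

theorem len_le_of_Yc [Fintype C] {col : (S → ℝ) → C} (hcol : ∀ β β' w, col β = col β' →
      β ∈ Nv M w → β' ∈ Nv M w →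
      (∀ x, β ∈ Nv M x → β' ∈ Nv M x) ∨ (∀ x, β' ∈ Nv M x → β ∈ Nv M x))
    {w w' : M.Group} {j j' : C → ℕ} {n : ℕ} (hj : ∀ c, j c ≤ n) (hj' : ∀ c, j' c ≤ n)
    (h : Yc M col w j = Yc M col w' j') : len M (w⁻¹ * w') ≤ 2 * (Fintype.card C * n) := by
  rw [len_inv_mul]
  have h1 : (Nv M w \ Nv M w').ncard ≤ Fintype.card C * n := by
    refine le_trans (Set.ncard_le_ncard ?_ ((Nv_finite M w).subset Set.sdiff_subset)) (Yc_diff hcol w hj)
    rintro β ⟨h2, h3⟩
    refine ⟨h2, fun h4 => h3 ?_⟩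
    rw [h] at h4
    exact h4.1
  have h1' : (Nv M w' \ Nv M w).ncard ≤ Fintype.card C * n := by
    refine le_trans (Set.ncard_le_ncard ?_ ((Nv_finite M w').subset Set.sdiff_subset)) (Yc_diff hcol w' hj')
    rintro β ⟨h2, h3⟩
    refine ⟨h2, fun h4 => h3 ?_⟩
    rw [← h] at h4
    exact h4.1
  omega

end Pool.Agent.H97.BLD
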