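import Pool.Agent.H97.BLD.Low
import Pool.Agent.H97.BLD.EtaA

/-!
# Project BLD: almost invariant probability measures on intervals of the weak order

`exists_col`: `C`, `col`. `exists_lower_set` with `R = 2 (|C| n)`: `F`. For each set `Y₀` of roots the set
`X = {w | ∃ j : C → Fin n, Yc M col w j = Y₀}` satisfies its hypothesis (`len_le_of_Yc`); choose `r Y₀ = v`. Put
`η w = ∑_{j : C → Fin n} (n : ℝ)⁻¹ ^ |C| • single (r (Yc w j)) 1`: nonnegative, sum `1`; `η w v ≠ 0` implies `v = r (Yc w j)` for a `j`, so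
`v ≤ w`, `len (v⁻¹ w) ≤ F`.
`‖η w - η (w s)‖ ≤ 2 / n` if `len (w s) = len w + 1`: with `i = col (w α_s)`, the terms `j` with `j i ≥ 1` of `η (w s)` cancel with the
terms `j - e_i` of `η w` (`Yc_shift`); there remain the `n^{|C|-1}` terms with `j i = 0`, resp. `j i = n - 1`. (`n1_sum_le`, `n1_single`,
`n1_add_le` in `H66/NCL/PropA.lean`.) One way: split `j` into `j i` and the rest; for fixed rest `ρ` the sequence
`f m = r (Yc (w s) (m, ρ))` satisfies `f (m + 1) = r (Yc w (m, ρ))`, so the sum over `m < n` telescopes to `δ_{f 0} - δ_{f n}`... with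
`f n := r (Yc w (n - 1, ρ))`. If `len (w s) + 1 = len w` exchange `w` and `w s` (`n1 (-f) = n1 f`).
-/

set_option autoImplicit false

open Finset

namespace Pool.Agent.H97.BLD

open Pool.Agent.H4.FC Pool.Agent.H78.RC Pool.Agent.H66.NCL

variable {S : Type} [Fintype S] [DecidableEq S] (M : CoxeterMatrix S)

private theorem eta_n1_neg {G : Type} (f : G →₀ ℝ) : n1 (-f) = n1 f := by
  rw [n1_eq_sum (-f) (s := f.support) (by rw [Finsupp.support_neg]), n1_eq_sum f (Finset.Subset.refl _)]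
  exact Finset.sum_congr rfl fun x _ => by rw [Finsupp.neg_apply, abs_neg]

private theorem eta_upd {C : Type} [DecidableEq C] {n : ℕ} (i : C) (m : Fin n)
    (ρ : {c // c ≠ i} → Fin (n + 1)) :
    Function.update (fun c => (((Equiv.funSplitAt i (Fin (n + 1))).symm (m.succ, ρ) c : Fin (n + 1)) : ℕ)) i
      ((((Equiv.funSplitAt i (Fin (n + 1))).symm (m.succ, ρ) i : Fin (n + 1)) : ℕ) - 1) =
    fun c => (((Equiv.funSplitAt i (Fin (n + 1))).symm (m.castSucc, ρ) c : Fin (n + 1)) : ℕ) := by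
  funext c
  by_cases hc : c = i
  · subst hc
    simp
  · rw [Function.update_of_ne hc]
    simp [hc]

private theorem eta_step {C : Type} [Fintype C] [DecidableEq C] {col : (S → ℝ) → C}
    (hcol : ∀ β β' w, col β = col β' → β ∈ Nv M w → β' ∈ Nv M w →
      (∀ x, β ∈ Nv M x → β' ∈ Nv M x) ∨ (∀ x, β' ∈ Nv M x → β ∈ Nv M x))
    (n : ℕ) (r : Set (S → ℝ) → M.Group) {w : M.Group} {s : S}
    (h : len M (w * M.simple s) = len M w + 1) :
    n1 ((∑ j : C → Fin (n + 1), Finsupp.single (r (Yc M col w (fun c => (j c : ℕ))))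
        ((((n + 1 : ℕ) : ℝ)⁻¹) ^ Fintype.card C)) -
      (∑ j : C → Fin (n + 1), Finsupp.single (r (Yc M col (w * M.simple s) (fun c => (j c : ℕ))))
        ((((n + 1 : ℕ) : ℝ)⁻¹) ^ Fintype.card C))) ≤ 2 / ((n + 1 : ℕ) : ℝ) := by
  set t : ℝ := (((n + 1 : ℕ) : ℝ)⁻¹) ^ Fintype.card C with ht
  set i : C := col (T M w (Pi.single s 1)) with hi
  have ht0 : 0 ≤ t := by positivity
  rw [← Equiv.sum_comp (Equiv.funSplitAt i (Fin (n + 1))).symm,
    ← Equiv.sum_comp (Equiv.funSplitAt i (Fin (n + 1))).symm, Fintype.sum_prod_type_right,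
    Fintype.sum_prod_type_right, ← Finset.sum_sub_distrib]
  refine (n1_sum_le _ _).trans ?_
  have hρ : ∀ ρ : {c // c ≠ i} → Fin (n + 1),
      n1 ((∑ m : Fin (n + 1), Finsupp.single (r (Yc M col w
          (fun c => (((Equiv.funSplitAt i (Fin (n + 1))).symm (m, ρ) c : Fin (n + 1)) : ℕ)))) t) -
        ∑ m : Fin (n + 1), Finsupp.single (r (Yc M col (w * M.simple s)
          (fun c => (((Equiv.funSplitAt i (Fin (n + 1))).symm (m, ρ) c : Fin (n + 1)) : ℕ)))) t) ≤ 2 * t := by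
    intro ρ
    rw [Fin.sum_univ_castSucc, Fin.sum_univ_succ (f := fun m : Fin (n + 1) => Finsupp.single (r (Yc M col (w * M.simple s)
          (fun c => (((Equiv.funSplitAt i (Fin (n + 1))).symm (m, ρ) c : Fin (n + 1)) : ℕ)))) t)]
    have h1 : ∀ m : Fin n, Yc M col (w * M.simple s)
        (fun c => (((Equiv.funSplitAt i (Fin (n + 1))).symm (m.succ, ρ) c : Fin (n + 1)) : ℕ)) =
        Yc M col w (fun c => (((Equiv.funSplitAt i (Fin (n + 1))).symm (m.castSucc, ρ) c : Fin (n + 1)) : ℕ)) := by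
      intro m
      rw [Yc_shift hcol h hi (by simp), eta_upd]
    simp only [h1]
    have h2 : ∀ a b c : M.Group →₀ ℝ, a + b - (c + a) = b + -c := by
      intro a b c
      abel
    rw [h2]
    refine (n1_add_le _ _).trans ?_
    rw [eta_n1_neg, n1_single, n1_single, abs_of_nonneg ht0]
    linarith
  refine (Finset.sum_le_sum fun ρ _ => hρ ρ).trans ?_
  rw [Finset.sum_const, nsmul_eq_mul, Finset.card_univ]
  have hK : (n + 1) * Fintype.card ({c // c ≠ i} → Fin (n + 1)) = (n + 1) ^ Fintype.card C := by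
    have h3 := Fintype.card_congr (Equiv.funSplitAt i (Fin (n + 1)))
    rw [Fintype.card_prod, Fintype.card_fin, Fintype.card_fun, Fintype.card_fin] at h3
    exact h3.symm
  have hK' : ((n + 1 : ℕ) : ℝ) * (Fintype.card ({c // c ≠ i} → Fin (n + 1)) : ℝ) = ((n + 1 : ℕ) : ℝ) ^ Fintype.card C := by
    exact_mod_cast hK
  have hn0 : ((n + 1 : ℕ) : ℝ) ≠ 0 := by positivity
  have h4 : ((n + 1 : ℕ) : ℝ) * ((Fintype.card ({c // c ≠ i} → Fin (n + 1)) : ℝ) * t) = 1 := by
    rw [← mul_assoc, hK', ht, ← mul_pow, mul_inv_cancel₀ hn0, one_pow]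
  rw [le_div_iff₀ (by positivity)]
  nlinarith

theorem exists_eta (n : ℕ) (hn : 0 < n) : ∃ (F : ℕ) (η : M.Group → M.Group →₀ ℝ),
    (∀ w v, 0 ≤ η w v) ∧ (∀ w, ((η w).sum fun _ t => t) = 1) ∧
    (∀ w v, η w v ≠ 0 → Le M v w ∧ len M (v⁻¹ * w) ≤ F) ∧
    ∀ w s, n1 (η w - η (w * M.simple s)) ≤ 2 / n := by
  classical
  obtain ⟨n, rfl⟩ : ∃ m, n = m + 1 := ⟨n - 1, by omega⟩
  obtain ⟨C, _, col, hcol⟩ := exists_col M
  obtain ⟨F, hF⟩ := exists_lower_set M (2 * (Fintype.card C * (n + 1)))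
  have hX : ∀ Y₀ : Set (S → ℝ), ∃ v, ∀ w ∈ {w | ∃ j : C → Fin (n + 1), Yc M col w (fun c => (j c : ℕ)) = Y₀},
      Le M v w ∧ len M (v⁻¹ * w) ≤ F := by
    intro Y₀
    refine hF _ ?_
    rintro w ⟨j, hj⟩ w' ⟨j', hj'⟩
    exact len_le_of_Yc hcol (fun c => (j c).2.le) (fun c => (j' c).2.le) (hj.trans hj'.symm)
  choose r hr using hX
  have hn0 : ((n + 1 : ℕ) : ℝ) ≠ 0 := by positivity
  refine ⟨F, fun w => ∑ j : C → Fin (n + 1), Finsupp.single (r (Yc M col w (fun c => (j c : ℕ))))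
        ((((n + 1 : ℕ) : ℝ)⁻¹) ^ Fintype.card C), ?_, ?_, ?_, ?_⟩
  · intro w v
    rw [Finsupp.finset_sum_apply]
    refine Finset.sum_nonneg fun j _ => ?_
    rw [Finsupp.single_apply]
    split_ifs
    · positivity
    · exact le_rfl
  · intro w
    rw [← Finsupp.sum_finset_sum_index (h := fun _ t => t) (fun _ => rfl) (fun _ _ _ => rfl)]
    simp only [Finsupp.sum_single_index]
    rw [Finset.sum_const, nsmul_eq_mul, Finset.card_univ, Fintype.card_fun, Fintype.card_fin, Nat.cast_pow, ← mul_pow,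
      mul_inv_cancel₀ hn0, one_pow]
  · intro w v hv
    have h1 : ∃ j : C → Fin (n + 1), r (Yc M col w (fun c => (j c : ℕ))) = v := by
      by_contra hcon
      push Not at hcon
      apply hv
      rw [Finsupp.finset_sum_apply]
      exact Finset.sum_eq_zero fun j _ => Finsupp.single_eq_of_ne' (hcon j)
    obtain ⟨j, rfl⟩ := h1
    exact hr _ w ⟨j, rfl⟩
  · intro w s
    rcases len_mul_simple M w s with h | h
    · exact eta_step M hcol n r h
    · have h1 : w * M.simple s * M.simple s = w := by rw [mul_assoc, simple_sq, mul_one]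
      have h2 := eta_step M hcol n r (w := w * M.simple s) (s := s) (by rw [h1]; omega)
      rw [h1] at h2
      rw [← eta_n1_neg, neg_sub]
      exact h2

end Pool.Agent.H97.BLD
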