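import Pool.Agent.H97.BLD.Wk

/-!
# Project BLD: the greedy algorithm

* `greedy`: induction on `len z`, for all `m`. If `m (e s) ≥ 0` for all `s ∈ J` take `y = 1`. Otherwise `s ∈ J` with
  `m (e s) < 0`; by hypothesis `z⁻¹ α_s ≤ 0`, so `z = s z₁`, `len z = len z₁ + 1` (`len_down_iff'`), `z₁ ∈ W_J`. Apply the
  induction hypothesis to `z₁` and `m₁ = m ∘ T s`: for a positive root `β` with `m (s β) < 0`: `β ≠ α_s` (as
  `m (-α_s) > 0`), so `s β` is a positive root (`simple_pos`) and `z₁⁻¹ β = z⁻¹ s β ≤ 0`. It gives `y₁`, take `y = s y₁`: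
  `Le M y z`: `len z = 1 + len y₁ + len (y₁⁻¹ z₁) ≥ len (s y₁) + len (y⁻¹ z)` and `len z ≤ …` always (`len_mul_le`).
* `exists_mid`: `greedy` with `m x = (x ⬝ᵥ ν + T z⁻¹ x ⬝ᵥ ν) / 2`: for a positive root `β` with `m β < 0` one has
  `β ⬝ᵥ ν ≥ 0`, so `T z⁻¹ β ⬝ᵥ ν < 0`, so `z⁻¹ β` is not `≥ 0` (`root_sign`).
* `mid_apply`: linearity (`T_eq_sum`): `x ⬝ᵥ mid M z y ν = (T y x ⬝ᵥ ν + T (z⁻¹ y) x ⬝ᵥ ν) / 2`.
-/

set_option autoImplicit false

open Finset

namespace Pool.Agent.H97.BLD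

open Pool.Agent.H4.FC Pool.Agent.H78.RC Pool.Agent.H66.NCL

variable {S : Type} [Fintype S] [DecidableEq S] (M : CoxeterMatrix S)

theorem greedy {J : Finset S} {z : M.Group} (hz : z ∈ par M J) (m : (S → ℝ) →ₗ[ℝ] ℝ)
    (hm : ∀ β, IsRoot M β → (∀ i, 0 ≤ β i) → m β < 0 → ∀ i, T M z⁻¹ β i ≤ 0) :
    ∃ y ∈ par M J, Le M y z ∧ ∀ s ∈ J, 0 ≤ m (T M y (Pi.single s 1)) := by
  induction hn : len M z generalizing z m with
  | zero =>
    refine ⟨1, one_mem _, ?_, fun s _ => ?_⟩
    · unfold Le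
      rw [len_one, inv_one, one_mul, zero_add]
    · rw [T_one]
      by_contra hcon
      push Not at hcon
      have h1 := (len_down_iff' M z s).2 (hm _ (isRoot_simple M s) (single_nonneg s) hcon)
      omega
  | succ n ih =>
    by_cases hall : ∀ s ∈ J, 0 ≤ m (Pi.single s 1)
    · refine ⟨1, one_mem _, ?_, fun s hs => ?_⟩
      · unfold Le
        rw [len_one, inv_one, one_mul, zero_add]
      · rw [T_one]
        exact hall s hs
    · push Not at hall
      obtain ⟨s, hs, hneg⟩ := hall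
      have h2 := (len_down_iff' M z s).2 (hm _ (isRoot_simple M s) (single_nonneg s) hneg)
      obtain ⟨y, hy, hle, hpos⟩ := ih (z := M.simple s * z) (mul_mem (simple_mem_par M hs) hz)
        (m.comp (Matrix.mulVecLin (titsHom M (M.simple s)))) (fun β hβ h0 hlt i => by
          have hlt' : m (T M (M.simple s) β) < 0 := hlt
          have hne : β ≠ Pi.single s 1 := by
            rintro rfl
            rw [T_simple_self, map_neg] at hlt'
            linarith
          have h3 := hm _ (isRoot_T M hβ (M.simple s)) (simple_pos M hβ h0 hne) hlt' i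
          rw [mul_inv_rev, simple_inv, T_mul]
          exact h3) (by omega)
      refine ⟨M.simple s * y, mul_mem (simple_mem_par M hs) hy, ?_, fun t ht => ?_⟩
      · unfold Le at hle ⊢
        have e1 : (M.simple s * y)⁻¹ * z = y⁻¹ * (M.simple s * z) := by
          rw [mul_inv_rev, simple_inv, mul_assoc]
        have e2 : len M z ≤ len M (M.simple s * y) + len M ((M.simple s * y)⁻¹ * z) := by
          have e3 := len_mul_le M (M.simple s * y) ((M.simple s * y)⁻¹ * z)
          rwa [mul_inv_cancel_left] at e3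
        have e4 : len M (M.simple s * y) ≤ len M y + 1 := by
          rcases len_simple_mul M y s with h | h <;> omega
        rw [e1] at e2 ⊢
        omega
      · rw [T_mul]
        exact hpos t ht

theorem mid_apply (z y : M.Group) (ν x : S → ℝ) :
    x ⬝ᵥ mid M z y ν = (T M y x ⬝ᵥ ν + T M (z⁻¹ * y) x ⬝ᵥ ν) / 2 := by
  have key : ∀ w : M.Group, T M w x ⬝ᵥ ν = ∑ s, x s * (T M w (Pi.single s 1) ⬝ᵥ ν) := by
    intro w
    conv_lhs => rw [T_eq_sum, sum_dotProduct]
    exact sum_congr rfl fun s _ => by rw [smul_dotProduct, smul_eq_mul]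
  rw [key, key, ← sum_add_distrib, sum_div]
  unfold mid
  rw [dotProduct]
  refine sum_congr rfl fun s _ => ?_
  ring

theorem exists_mid {J : Finset S} {z : M.Group} (hz : z ∈ par M J) {ν : S → ℝ}
    (hν : ∀ i, 0 ≤ ν i) : ∃ y ∈ par M J, Le M y z ∧ ∀ s ∈ J, 0 ≤ mid M z y ν s := by
  have hdot : ∀ x : S → ℝ, (∀ i, 0 ≤ x i) → 0 ≤ x ⬝ᵥ ν := fun x hx =>
    sum_nonneg fun i _ => mul_nonneg (hx i) (hν i)
  let m : (S → ℝ) →ₗ[ℝ] ℝ :=
    { toFun := fun x => (x ⬝ᵥ ν + T M z⁻¹ x ⬝ᵥ ν) / 2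
      map_add' := fun x x' => by
        rw [T_add, add_dotProduct, add_dotProduct]
        ring
      map_smul' := fun c x => by
        rw [T_smul, smul_dotProduct, smul_dotProduct, RingHom.id_apply]
        simp only [smul_eq_mul]
        ring }
  obtain ⟨y, hy, hle, hpos⟩ := greedy M hz m (fun β hβ h0 hlt => by
    have hlt' : (β ⬝ᵥ ν + T M z⁻¹ β ⬝ᵥ ν) / 2 < 0 := hlt
    rcases root_sign M (isRoot_T M hβ z⁻¹) with h | h
    · have h1 := hdot _ h0
      have h2 := hdot _ h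
      linarith
    · exact h)
  refine ⟨y, hy, hle, fun s hs => ?_⟩
  unfold mid
  rw [T_mul]
  exact hpos s hs

end Pool.Agent.H97.BLD
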