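import Pool.Agent.H97.BLD.Defs

/-!
# Project BLD: the Gauss kernel by finitely supported unit vectors

`q x = ip x x`. `κ = Σ n : ℕ, (Fin n → ι)` (or `List ι`). For `N : ℕ` let `Φ_N x ∈ κ →₀ ℝ` be
`Φ_N x ⟨n, i⟩ = √((2 t)^n / n!) * ∏ j, x (i j)` for `n < N`, `0` for `n ≥ N`; so `ip (Φ_N x) (Φ_M y) = ∑_{n < min N M} (2 t ip x y)^n / n!`.
In the completion `ℓ²(κ)` (`lp (fun _ : κ => ℝ) 2`) `Φ_N x` converges to `Φ x` with `⟪Φ x, Φ y⟫ = exp (2 t ip x y)`; `Ψ x = exp (-t q x) • Φ x` is a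
unit vector and `⟪Ψ x, Ψ y⟫ = exp (-t q (x - y))`. Choose a finitely supported `w x` with `‖w x - Ψ x‖ ≤ η / 4` and
`u x = w x / ‖w x‖`: `‖u x - Ψ x‖ ≤ η / 2`, so `|⟪u x, u y⟫ - ⟪Ψ x, Ψ y⟫| ≤ η` (unit vectors). (`η ≤ 1` without loss of generality.)
Without the completion: take `N x` with `exp (-2 t q x) ∑_{n < N x} (2 t q x)^n / n! ≥ 1 - η²/16`, etc.
-/

set_option autoImplicit false

open Finset

namespace Pool.Agent.H97.BLD

open Pool.Agent.H66.NCL

universe u

private theorem inca_ip_emb {ι κ : Type u} (f : ι ↪ κ) (a b : ι →₀ ℝ) :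
    ip (Finsupp.embDomain f a) (Finsupp.embDomain f b) = ip a b := by
  unfold ip
  rw [Finsupp.sum_embDomain]
  exact Finsupp.sum_congr fun i _ => by rw [Finsupp.embDomain_apply_self]

/-- the prefix map -/
private def incaE (ι : Type u) : ι × List ι ↪ List ι :=
  ⟨fun p => p.1 :: p.2, fun p q h => by
    obtain ⟨h1, h2⟩ := List.cons.inj h
    exact Prod.ext h1 h2⟩

/-- tensor powers -/
private noncomputable def incaP {ι : Type u} (x : ι →₀ ℝ) : ℕ → List ι →₀ ℝ
  | 0 => Finsupp.single [] 1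
  | n + 1 => Finsupp.embDomain (incaE ι) (tens x (incaP x n))

private theorem incaP_nil {ι : Type u} (x : ι →₀ ℝ) (n : ℕ) : incaP x (n + 1) [] = 0 := by
  unfold incaP
  refine Finsupp.embDomain_of_notMem_range _ _ _ ?_
  rintro ⟨p, hp⟩
  exact List.cons_ne_nil _ _ hp

private theorem incaP_ip {ι : Type u} (x y : ι →₀ ℝ) (m n : ℕ) :
    ip (incaP x m) (incaP y n) = if m = n then (ip x y) ^ n else 0 := by
  induction m generalizing n with
  | zero =>
    rcases n with _ | n
    · rw [if_pos rfl, pow_zero]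
      unfold incaP
      rw [ip_single_left, Finsupp.single_eq_same, one_mul]
    · rw [if_neg (by omega)]
      have h1 : incaP x 0 = Finsupp.single [] 1 := rfl
      rw [h1, ip_single_left, incaP_nil, mul_zero]
  | succ m ih =>
    rcases n with _ | n
    · rw [if_neg (by omega), ip_comm]
      have h1 : incaP y 0 = Finsupp.single [] 1 := rfl
      rw [h1, ip_single_left, incaP_nil, mul_zero]
    · have h1 : ip (incaP x (m + 1)) (incaP y (n + 1)) = ip x y * ip (incaP x m) (incaP y n) := by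
        show ip (Finsupp.embDomain (incaE ι) (tens x (incaP x m)))
          (Finsupp.embDomain (incaE ι) (tens y (incaP y n))) = _
        rw [inca_ip_emb, ip_tens]
      rw [h1, ih]
      by_cases h : m = n
      · rw [if_pos h, if_pos (by omega), pow_succ']
      · rw [if_neg h, if_neg (by omega), mul_zero]

/-- the truncated exponential vector -/
private noncomputable def incaF {ι : Type u} (t : ℝ) (x : ι →₀ ℝ) (N : ℕ) : List ι →₀ ℝ :=
  ∑ n ∈ range N, √((2 * t) ^ n / n.factorial) • incaP x n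

private theorem incaF_ip {ι : Type u} {t : ℝ} (ht : 0 < t) (x y : ι →₀ ℝ) (N M : ℕ) :
    ip (incaF t x N) (incaF t y M) = ∑ n ∈ range (min N M), (2 * t * ip x y) ^ n / n.factorial := by
  unfold incaF
  rw [ip_sum_left]
  have h1 : ∀ n ∈ range N, ip (√((2 * t) ^ n / n.factorial) • incaP x n)
      (∑ m ∈ range M, √((2 * t) ^ m / m.factorial) • incaP y m) =
      if n ∈ range M then (2 * t * ip x y) ^ n / n.factorial else 0 := by
    intro n _
    rw [ip_sum_right]
    have h2 : ∀ m ∈ range M, ip (√((2 * t) ^ n / n.factorial) • incaP x n)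
        (√((2 * t) ^ m / m.factorial) • incaP y m) =
        if n = m then (2 * t * ip x y) ^ n / n.factorial else 0 := by
      intro m _
      rw [ip_smul_left, ip_smul_right, incaP_ip]
      by_cases h : n = m
      · subst h
        rw [if_pos rfl, if_pos rfl, ← mul_assoc, Real.mul_self_sqrt (by positivity), mul_pow]
        ring
      · rw [if_neg h, if_neg h, mul_zero, mul_zero]
    rw [sum_congr rfl h2, Finset.sum_ite_eq]
  rw [sum_congr rfl h1, ← Finset.sum_filter]
  congr 1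
  ext n
  simp only [mem_filter, mem_range, lt_min_iff]

private theorem inca_cs {κ : Type u} (a b : κ →₀ ℝ) : |ip a b| ≤ √(ip a a) * √(ip b b) := by
  classical
  rw [ip_eq_sum a b (s := a.support ∪ b.support) Finset.subset_union_left,
    ip_eq_sum a a (s := a.support ∪ b.support) Finset.subset_union_left,
    ip_eq_sum b b (s := a.support ∪ b.support) Finset.subset_union_right,
    ← Real.sqrt_mul (sum_nonneg fun i _ => mul_self_nonneg _)]
  refine Real.abs_le_sqrt ?_
  have h := Finset.sum_mul_sq_le_sq_mul_sq (a.support ∪ b.support) (fun i => a i) (fun i => b i)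
  simpa only [sq] using h

private theorem inca_nonneg {κ : Type u} (a : κ →₀ ℝ) : 0 ≤ ip a a := by
  rw [ip_eq_sum a a subset_rfl]
  exact sum_nonneg fun i _ => mul_self_nonneg _

private theorem inca_sub {κ : Type u} (a b c : κ →₀ ℝ) : ip (a - b) c = ip a c - ip b c := by
  have h1 : a - b = a + (-1 : ℝ) • b := by simp [sub_eq_add_neg]
  rw [h1, ip_add_left, ip_smul_left]
  ring

/-- the limit of the partial sums -/
private theorem inca_lim {ι : Type u} {t : ℝ} (ht : 0 < t) (x y : ι →₀ ℝ) :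
    Filter.Tendsto (fun M : ℕ => Real.exp (-t * ip x x) * Real.exp (-t * ip y y) *
      ip (incaF t x M) (incaF t y M)) Filter.atTop (nhds (Real.exp (-t * ip (x - y) (x - y)))) := by
  have h1 := (NormedSpace.expSeries_div_hasSum_exp (2 * t * ip x y : ℝ)).tendsto_sum_nat
  rw [← Real.exp_eq_exp_ℝ] at h1
  have h2 := h1.const_mul (Real.exp (-t * ip x x) * Real.exp (-t * ip y y))
  have h3 : Real.exp (-t * ip x x) * Real.exp (-t * ip y y) * Real.exp (2 * t * ip x y) =
      Real.exp (-t * ip (x - y) (x - y)) := by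
    rw [← Real.exp_add, ← Real.exp_add]
    congr 1
    rw [inca_sub, ip_comm x (x - y), ip_comm y (x - y), inca_sub, inca_sub, ip_comm y x]
    ring
  rw [h3] at h2
  refine h2.congr fun M => ?_
  rw [incaF_ip ht, min_self]

theorem exists_gauss {ι : Type u} (t : ℝ) (ht : 0 < t) (η : ℝ) (hη : 0 < η) :
    ∃ (κ : Type u) (u : (ι →₀ ℝ) → κ →₀ ℝ), (∀ x, ip (u x) (u x) = 1) ∧
      ∀ x y, |ip (u x) (u y) - Real.exp (-t * ip (x - y) (x - y))| ≤ η := by
  -- the scaled vectors
  obtain ⟨w, hw⟩ : ∃ w : (ι →₀ ℝ) → ℕ → List ι →₀ ℝ, w = fun x N => Real.exp (-t * ip x x) • incaF t x N :=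
    ⟨_, rfl⟩
  have hww : ∀ x y N M, ip (w x N) (w y M) = Real.exp (-t * ip x x) * Real.exp (-t * ip y y) *
      ip (incaF t x N) (incaF t y M) := by
    intro x y N M
    rw [hw]
    simp only
    rw [ip_smul_left, ip_smul_right]
    ring
  have hmin : ∀ x N M, N ≤ M → ip (w x N) (w x M) = ip (w x N) (w x N) := by
    intro x N M h
    rw [hww, hww, incaF_ip ht, incaF_ip ht, min_self, min_eq_left h]
  have hlim : ∀ x y, Filter.Tendsto (fun M : ℕ => ip (w x M) (w y M)) Filter.atTop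
      (nhds (Real.exp (-t * ip (x - y) (x - y)))) := fun x y =>
    (inca_lim ht x y).congr fun M => (hww x y M M).symm
  have hmono : ∀ x, Monotone fun M : ℕ => ip (w x M) (w x M) := by
    intro x N M h
    simp only
    rw [hww, hww, incaF_ip ht, incaF_ip ht, min_self, min_self]
    refine mul_le_mul_of_nonneg_left ?_ (by positivity)
    refine sum_le_sum_of_subset_of_nonneg (range_subset_range.2 h) fun n _ _ => ?_
    have := inca_nonneg x
    positivity
  have hlim1 : ∀ x, Filter.Tendsto (fun M : ℕ => ip (w x M) (w x M)) Filter.atTop (nhds 1) := by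
    intro x
    have h1 := hlim x x
    rw [sub_self, ip_zero_left, mul_zero, Real.exp_zero] at h1
    exact h1
  have hle : ∀ x M, ip (w x M) (w x M) ≤ 1 := fun x M => (hmono x).ge_of_tendsto (hlim1 x) M
  -- the precision
  obtain ⟨δ, hδ, hδ1, hδη⟩ : ∃ δ : ℝ, 0 < δ ∧ δ < 1 ∧ δ + 2 * √δ ≤ η := by
    obtain ⟨s, hs, hs1, hs2⟩ : ∃ s : ℝ, 0 < s ∧ s < 1 ∧ 3 * s ≤ η := by
      refine ⟨min (1 / 2) (η / 3), by positivity, ?_, ?_⟩
      · exact lt_of_le_of_lt (min_le_left _ _) (by norm_num)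
      · have := min_le_right (1 / 2 : ℝ) (η / 3)
        linarith
    refine ⟨s ^ 2, by positivity, by nlinarith, ?_⟩
    rw [Real.sqrt_sq hs.le]
    nlinarith
  have hN : ∀ x, ∃ N, 1 - δ ≤ ip (w x N) (w x N) := by
    intro x
    have h1 := (hlim1 x).eventually (lt_mem_nhds (show 1 - δ < 1 by linarith))
    obtain ⟨N, hN⟩ := h1.exists
    exact ⟨N, hN.le⟩
  choose N hN using hN
  obtain ⟨a, ha⟩ : ∃ a : (ι →₀ ℝ) → ℝ, ∀ x, a x = ip (w x (N x)) (w x (N x)) := ⟨_, fun _ => rfl⟩
  have ha1 : ∀ x, 1 - δ ≤ a x := fun x => by rw [ha]; exact hN x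
  have ha2 : ∀ x, a x ≤ 1 := fun x => by rw [ha]; exact hle x _
  have hpos : ∀ x, 0 < a x := fun x => lt_of_lt_of_le (by linarith) (ha1 x)
  have hunit : ∀ x, ip ((√(a x))⁻¹ • w x (N x)) ((√(a x))⁻¹ • w x (N x)) = 1 := by
    intro x
    rw [ip_smul_left, ip_smul_right, ← ha, ← mul_assoc, ← mul_inv, Real.mul_self_sqrt (hpos x).le,
      inv_mul_cancel₀ (hpos x).ne']
  refine ⟨List ι, fun x => (√(a x))⁻¹ • w x (N x), hunit, fun x y => ?_⟩
  -- comparison with large truncations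
  have hdiff : ∀ z M, N z ≤ M → ip (w z M - w z (N z)) (w z M - w z (N z)) ≤ δ := by
    intro z M h
    have h1 := hmin z (N z) M h
    have h2 := hle z M
    have h3 := ha1 z
    rw [ha] at h3
    rw [inca_sub, ip_comm (w z M) (w z M - w z (N z)), ip_comm (w z (N z)) (w z M - w z (N z)), inca_sub,
      inca_sub, ip_comm (w z M) (w z (N z)), h1]
    linarith
  have hcmp : ∀ M, N x ≤ M → N y ≤ M → |ip (w x (N x)) (w y (N y)) - ip (w x M) (w y M)| ≤ 2 * √δ := by
    intro M hx hy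
    have h1 : ip (w x (N x)) (w y (N y)) - ip (w x M) (w y M) =
        - ip (w x M - w x (N x)) (w y M) - ip (w y M - w y (N y)) (w x (N x)) := by
      rw [inca_sub, inca_sub, ip_comm (w y M) (w x (N x)), ip_comm (w y (N y)) (w x (N x))]
      ring
    have h2 := inca_cs (w x M - w x (N x)) (w y M)
    have h3 := inca_cs (w y M - w y (N y)) (w x (N x))
    have h4 : √(ip (w x M - w x (N x)) (w x M - w x (N x))) ≤ √δ := Real.sqrt_le_sqrt (hdiff x M hx)
    have h5 : √(ip (w y M - w y (N y)) (w y M - w y (N y))) ≤ √δ := Real.sqrt_le_sqrt (hdiff y M hy)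
    have h6 : √(ip (w y M) (w y M)) ≤ 1 := Real.sqrt_le_one.2 (hle y M)
    have h7 : √(ip (w x (N x)) (w x (N x))) ≤ 1 := Real.sqrt_le_one.2 (hle x _)
    have h8 := Real.sqrt_nonneg (ip (w x M - w x (N x)) (w x M - w x (N x)))
    have h9 := Real.sqrt_nonneg (ip (w y M - w y (N y)) (w y M - w y (N y)))
    have h10 := Real.sqrt_nonneg δ
    have h11 : √(ip (w x M - w x (N x)) (w x M - w x (N x))) * √(ip (w y M) (w y M)) ≤ √δ := by
      nlinarith [Real.sqrt_nonneg (ip (w y M) (w y M))]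
    have h12 : √(ip (w y M - w y (N y)) (w y M - w y (N y))) * √(ip (w x (N x)) (w x (N x))) ≤ √δ := by
      nlinarith [Real.sqrt_nonneg (ip (w x (N x)) (w x (N x)))]
    rw [h1]
    rw [abs_le] at h2 h3 ⊢
    constructor <;> linarith [h2.1, h2.2, h3.1, h3.2]
  have hcmp' : |ip (w x (N x)) (w y (N y)) - Real.exp (-t * ip (x - y) (x - y))| ≤ 2 * √δ := by
    have h1 : Filter.Tendsto (fun M : ℕ => |ip (w x (N x)) (w y (N y)) - ip (w x M) (w y M)|) Filter.atTop
        (nhds |ip (w x (N x)) (w y (N y)) - Real.exp (-t * ip (x - y) (x - y))|) :=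
      (tendsto_const_nhds.sub (hlim x y)).abs
    refine le_of_tendsto h1 (Filter.eventually_atTop.2 ⟨max (N x) (N y), fun M hM => ?_⟩)
    exact hcmp M ((le_max_left _ _).trans hM) ((le_max_right _ _).trans hM)
  -- normalisation
  obtain ⟨c, hc⟩ : ∃ c, c = ip ((√(a x))⁻¹ • w x (N x)) ((√(a y))⁻¹ • w y (N y)) := ⟨_, rfl⟩
  obtain ⟨s, hs⟩ : ∃ s, s = √(a x) * √(a y) := ⟨_, rfl⟩
  have hsx : 0 < √(a x) := Real.sqrt_pos.2 (hpos x)
  have hsy : 0 < √(a y) := Real.sqrt_pos.2 (hpos y)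
  have hcs : ip (w x (N x)) (w y (N y)) = c * s := by
    rw [hc, ip_smul_left, ip_smul_right, hs]
    field_simp
  have hc1 : |c| ≤ 1 := by
    have h1 := inca_cs ((√(a x))⁻¹ • w x (N x)) ((√(a y))⁻¹ • w y (N y))
    rw [hunit, hunit, Real.sqrt_one, mul_one, ← hc] at h1
    exact h1
  have hs1 : 1 - δ ≤ s := by
    have h1 : 1 - δ ≤ √(a x) * √(a y) := by
      have h2 : √(1 - δ) ≤ √(a x) := Real.sqrt_le_sqrt (ha1 x)
      have h3 : √(1 - δ) ≤ √(a y) := Real.sqrt_le_sqrt (ha1 y)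
      have h4 : √(1 - δ) * √(1 - δ) = 1 - δ := Real.mul_self_sqrt (by linarith)
      have h5 := Real.sqrt_nonneg (1 - δ)
      nlinarith
    rw [hs]
    exact h1
  have hs2 : s ≤ 1 := by
    rw [hs]
    have h2 : √(a x) ≤ 1 := Real.sqrt_le_one.2 (ha2 x)
    have h3 : √(a y) ≤ 1 := Real.sqrt_le_one.2 (ha2 y)
    nlinarith
  have hfin : |c - c * s| ≤ δ := by
    have h1 : c - c * s = c * (1 - s) := by ring
    rw [h1, abs_mul, abs_of_nonneg (show 0 ≤ 1 - s by linarith)]
    nlinarith [abs_nonneg c]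
  rw [hcs] at hcmp'
  have h1 : ip ((√(a x))⁻¹ • w x (N x)) ((√(a y))⁻¹ • w y (N y)) - Real.exp (-t * ip (x - y) (x - y)) =
      (c - c * s) + (c * s - Real.exp (-t * ip (x - y) (x - y))) := by
    rw [← hc]
    ring
  show |ip ((√(a x))⁻¹ • w x (N x)) ((√(a y))⁻¹ • w y (N y)) - Real.exp (-t * ip (x - y) (x - y))| ≤ η
  rw [h1]
  exact (abs_add_le _ _).trans (by linarith)

end Pool.Agent.H97.BLD
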