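import Pool.Agent.H97.BLD.Act

/-!
# Project BLD: existence of the cocycle `κ`

`κ(w) = ρ - w⁻¹ ρ` for `ρ` with `s ρ = ρ - α_s`. Proof: the affine maps `F s : x ↦ s x + α_s` satisfy the relations
of `M` (for `M s t ≠ 0` the maps `F s` and `F t` have the common fixed point `(α_s + α_t) / (2 + kR M s t)`), so they
lift to a homomorphism `φ` from `M.Group` to the monoid of self maps of `S → ℝ`; `φ w x = w x + c w` and
`κ w = c w⁻¹`.
-/

set_option autoImplicit false

open Finset

namespace Pool.Agent.H97.BLD

open Pool.Agent.H4.FC Pool.Agent.H78.RC Pool.Agent.H66.NCL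

variable {S : Type} [Fintype S] [DecidableEq S] (M : CoxeterMatrix S)

/-- the affine map `x ↦ s x + α_s` -/
noncomputable def kapAmap (s : S) : Function.End (S → ℝ) :=
  fun x => T M (M.simple s) x + Pi.single s 1

theorem kapA_two_add_ne (s t : S) (h : M s t ≠ 0) : 2 + kR M s t ≠ 0 := by
  unfold kR
  rw [if_neg h]
  have hm : (1 : ℝ) ≤ M s t := by exact_mod_cast Nat.one_le_iff_ne_zero.2 h
  intro h0
  have h1 : Real.cos (Real.pi / M s t) = 1 := by linarith
  have h2 : 0 < Real.pi / M s t := div_pos Real.pi_pos (by linarith)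
  have h3 : Real.pi / M s t ≤ Real.pi := div_le_self Real.pi_pos.le hm
  have h4 := (Real.cos_eq_one_iff_of_lt_of_lt (by linarith [Real.pi_pos])
    (by linarith [Real.pi_pos])).1 h1
  linarith

theorem kapA_map_eq {z : S → ℝ} {s : S} (hz : bf (kR M) (Pi.single s 1) z = 1) (x : S → ℝ) :
    kapAmap M s x = z + T M (M.simple s) (x - z) := by
  unfold kapAmap
  rw [T_sub, T_simple M s z, hz, one_smul]
  abel

theorem kapA_liftable : M.IsLiftable (kapAmap M) := by
  intro s t
  by_cases h : M s t = 0
  · rw [h, pow_zero]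
  have ha := kapA_two_add_ne M s t h
  set z : S → ℝ := (1 / (2 + kR M s t)) • ((Pi.single s 1 : S → ℝ) + Pi.single t 1) with hz
  have hs : bf (kR M) (Pi.single s 1) z = 1 := by
    rw [hz, bf_smul_right, bf_add_right, bf_single, bf_single, kR_self]
    field_simp
  have ht : bf (kR M) (Pi.single t 1) z = 1 := by
    rw [hz, bf_smul_right, bf_add_right, bf_single, bf_single, kR_self, kR_symm M t s]
    field_simp
    ring
  have key : ∀ (m : ℕ) (x : S → ℝ), ((kapAmap M s * kapAmap M t) ^ m) x =
      z + T M ((M.simple s * M.simple t) ^ m) (x - z) := by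
    intro m
    induction m with
    | zero =>
      intro x
      rw [pow_zero, pow_zero, T_one]
      show x = z + (x - z)
      abel
    | succ m ih =>
      intro x
      rw [pow_succ, pow_succ, T_mul]
      show ((kapAmap M s * kapAmap M t) ^ m) (kapAmap M s (kapAmap M t x)) = _
      rw [ih, kapA_map_eq M hs, kapA_map_eq M ht, T_mul]
      congr 2
      rw [add_sub_cancel_left, add_sub_cancel_left]
  have hrel : (M.simple s * M.simple t) ^ M s t = 1 := by
    rw [← M.toCoxeterSystem_simple]
    exact M.toCoxeterSystem.simple_mul_simple_pow s t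
  funext x
  rw [key, hrel, T_one]
  show z + (x - z) = x
  abel

theorem exists_kap : ∃ κ : M.Group → S → ℝ, (∀ s, κ (M.simple s) = Pi.single s 1) ∧
    ∀ w u, κ (w * u) = T M u⁻¹ (κ w) + κ u := by
  set φ : M.Group →* Function.End (S → ℝ) :=
    M.toCoxeterSystem.lift ⟨kapAmap M, kapA_liftable M⟩ with hφ
  have hs : ∀ s, φ (M.simple s) = kapAmap M s := by
    intro s
    rw [hφ, ← M.toCoxeterSystem_simple]
    exact M.toCoxeterSystem.lift_apply_simple (kapA_liftable M) s
  have haff : ∀ w x, φ w x = T M w x + φ w 0 := by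
    intro w
    induction w using M.toCoxeterSystem.simple_induction_left with
    | one =>
      intro x
      rw [map_one, T_one]
      show x = x + 0
      rw [add_zero]
    | mul_simple_left w s ih =>
      intro x
      rw [M.toCoxeterSystem_simple, map_mul, hs, T_mul]
      show kapAmap M s (φ w x) = _ + kapAmap M s (φ w 0)
      unfold kapAmap
      rw [ih x, T_add]
      abel
  refine ⟨fun w => φ w⁻¹ 0, fun s => ?_, fun w u => ?_⟩
  · show φ (M.simple s)⁻¹ 0 = _
    rw [simple_inv, hs]
    unfold kapAmap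
    rw [T_zero, zero_add]
  · show φ (w * u)⁻¹ 0 = T M u⁻¹ (φ w⁻¹ 0) + φ u⁻¹ 0
    rw [mul_inv_rev, map_mul]
    exact haff u⁻¹ (φ w⁻¹ 0)

end Pool.Agent.H97.BLD
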