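import Pool.Agent.H97.BLD.MinH

/-!
# Project BLD: common lower bounds in the weak order

* `retreat`: `γ ∈ Nv v`, reflection `t` of `γ`. `r = v⁻¹ t v` is the reflection in `β = -v⁻¹ γ ≥ 0` (`bf_T_left`), and
  `β ∈ Nv (v⁻¹)` (`v β = -γ ≤ 0`). `exists_small` with `p = v⁻¹`: `z ≤ v⁻¹`, `β ∈ Nv z`, `len z ≤ L`. Put `v' = v z`:
  `Le M v' v`: `v'⁻¹ v = z⁻¹`, `len (v z) = len (z⁻¹ v⁻¹) = len v - len z`. `γ ∉ Nv v'`: `v'⁻¹ γ = z⁻¹ v⁻¹ γ = -z⁻¹ β ≥ 0`.
* `exists_lower`: induction on `R`: for `R + 1` let `F'` be the number for `R`. `w⁻¹ w' ≠ 1`: write `w' = w'' s` with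
  `len (w⁻¹ w'') = len (w⁻¹ w') - 1` (`exists_right`). `v ≤ w, w''`, `len (v⁻¹ w) ≤ F'`. If `len w' = len w'' + 1` then `v ≤ w'' ≤ w'`. If
  `len w' + 1 = len w''` then `Nv w'' = insert γ (Nv w')`, `γ = -w'' α_s` (`Nv_down`). If `γ ∉ Nv v` then `Nv v ⊆ Nv w'`. If `γ ∈ Nv v`
  then the reflection `t = w'' s w''⁻¹` of `γ` has `len (v⁻¹ t v) ≤ 2 len (v⁻¹ w'') + 1 ≤ 2 (F' + R + 1) + 1`; `retreat` gives `v' ≤ v` with
  `γ ∉ Nv v'`, so `Nv v' ⊆ Nv w'`. `F = F' + ` the number of `retreat` for `D = 2 (F' + R + 1) + 1`.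
-/

set_option autoImplicit false

open Finset

namespace Pool.Agent.H97.BLD

open Pool.Agent.H4.FC Pool.Agent.H78.RC Pool.Agent.H66.NCL

variable {S : Type} [Fintype S] [DecidableEq S] (M : CoxeterMatrix S)

theorem retreat (D : ℕ) : ∃ L : ℕ, ∀ (v t : M.Group) (γ : S → ℝ), len M (v⁻¹ * t * v) ≤ D →
    (∀ x, T M t x = x - bf (kR M) γ x • γ) → γ ∈ Nv M v →
      ∃ v', Le M v' v ∧ γ ∉ Nv M v' ∧ len M (v'⁻¹ * v) ≤ L := by
  obtain ⟨L, hL⟩ := exists_small M D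
  refine ⟨L, fun v t γ hD ht hγ => ?_⟩
  obtain ⟨hr, h0, h1⟩ := hγ
  have hrefl : ∀ x, T M (v⁻¹ * t * v) x =
      x - bf (kR M) (-T M v⁻¹ γ) x • (-T M v⁻¹ γ) := by
    intro x
    have e1 : bf (kR M) (T M v⁻¹ γ) x = bf (kR M) γ (T M v x) := by
      rw [bf_T_left, inv_inv]
    have e2 : bf (kR M) (-T M v⁻¹ γ) x = -bf (kR M) (T M v⁻¹ γ) x := by
      rw [← neg_one_smul ℝ (T M v⁻¹ γ), bf_smul_left, neg_one_mul]
    rw [T_mul, T_mul, ht, T_sub, T_inv_T, T_smul, e2, e1]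
    module
  have hmem : -T M v⁻¹ γ ∈ Nv M v⁻¹ := by
    refine ⟨isRoot_neg M (isRoot_T M hr v⁻¹), fun i => ?_, fun i => ?_⟩
    · have := h1 i
      rw [Pi.neg_apply]
      linarith
    · rw [inv_inv, T_neg, T_T_inv, Pi.neg_apply]
      have := h0 i
      linarith
  obtain ⟨z, hz, hzβ, hzL⟩ := hL (v⁻¹ * t * v) (-T M v⁻¹ γ) hD hrefl v⁻¹ hmem
  have e3 : (v * z)⁻¹ * v = z⁻¹ := by
    rw [mul_inv_rev, mul_assoc, inv_mul_cancel, mul_one]
  refine ⟨v * z, ?_, ?_, ?_⟩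
  · unfold Le at hz ⊢
    rw [e3, len_inv, ← len_inv M (v * z), mul_inv_rev, add_comm, hz, len_inv]
  · rintro ⟨-, -, h3⟩
    have h4 : T M (v * z)⁻¹ γ = -T M z⁻¹ (-T M v⁻¹ γ) := by
      rw [mul_inv_rev, T_mul, T_neg, neg_neg]
    have h5 : ∀ i, 0 ≤ T M (v * z)⁻¹ γ i := by
      intro i
      have := hzβ.2.2 i
      rw [h4, Pi.neg_apply]
      linarith
    exact root_not_neg M (isRoot_T M hr (v * z)⁻¹) h5 h3
  · rw [e3, len_inv]
    exact hzL

theorem exists_lower (R : ℕ) : ∃ F : ℕ, ∀ w w' : M.Group, len M (w⁻¹ * w') ≤ R →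
    ∃ v, Le M v w ∧ Le M v w' ∧ len M (v⁻¹ * w) ≤ F := by
  have hself : ∀ w : M.Group, Le M w w := by
    intro w
    unfold Le
    rw [inv_mul_cancel, len_one, add_zero]
  have hone : ∀ (F : ℕ) (w w' : M.Group), w⁻¹ * w' = 1 →
      ∃ v, Le M v w ∧ Le M v w' ∧ len M (v⁻¹ * w) ≤ F := by
    intro F w w' h
    have hw : w = w' := by
      rw [inv_mul_eq_one] at h
      exact h
    subst hw
    refine ⟨w, hself w, hself w, ?_⟩
    rw [inv_mul_cancel, len_one]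
    exact Nat.zero_le _
  induction R with
  | zero =>
    refine ⟨0, fun w w' h => hone 0 w w' ?_⟩
    exact (len_eq_zero M).1 (Nat.le_zero.1 h)
  | succ R ih =>
    obtain ⟨F', hF'⟩ := ih
    obtain ⟨L, hL⟩ := retreat M (2 * (F' + (R + 1)) + 1)
    refine ⟨F' + L, fun w w' h => ?_⟩
    by_cases h1 : w⁻¹ * w' = 1
    · exact hone _ w w' h1
    obtain ⟨s, hs⟩ := exists_right M h1
    obtain ⟨v, hv1, hv2, hv3⟩ := hF' w (w' * M.simple s) (by
      rw [← mul_assoc]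
      omega)
    rcases len_mul_simple M w' s with h2 | h2
    · obtain ⟨-, hN⟩ := Nv_up M h2
      by_cases hγ : T M w' (Pi.single s 1) ∈ Nv M v
      · have hlen : len M (v⁻¹ * (w' * M.simple s * w'⁻¹) * v) ≤ 2 * (F' + (R + 1)) + 1 := by
          have e1 : v⁻¹ * (w' * M.simple s * w'⁻¹) * v =
              (v⁻¹ * w * (w⁻¹ * w')) * M.simple s * (v⁻¹ * w * (w⁻¹ * w'))⁻¹ := by
            group
          have e2 := len_mul_le M ((v⁻¹ * w * (w⁻¹ * w')) * M.simple s)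
            (v⁻¹ * w * (w⁻¹ * w'))⁻¹
          have e3 := len_mul_le M (v⁻¹ * w * (w⁻¹ * w')) (M.simple s)
          have e4 := len_mul_le M (v⁻¹ * w) (w⁻¹ * w')
          rw [len_inv] at e2
          rw [len_simple] at e3
          rw [e1]
          omega
        obtain ⟨v', hv'1, hv'2, hv'3⟩ := hL v (w' * M.simple s * w'⁻¹)
          (T M w' (Pi.single s 1)) hlen (T_conj M w' s) hγ
        refine ⟨v', le_trans' M hv'1 hv1, ?_, ?_⟩
        · rw [le_iff] at hv'1 hv2 ⊢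
          intro β hβ
          have h3 := hv2 (hv'1 hβ)
          rw [hN] at h3
          rcases h3 with h3 | h3
          · rw [h3] at hβ
            exact absurd hβ hv'2
          · exact h3
        · have e5 : v'⁻¹ * w = v'⁻¹ * v * (v⁻¹ * w) := by group
          have e6 := len_mul_le M (v'⁻¹ * v) (v⁻¹ * w)
          rw [e5]
          omega
      · refine ⟨v, hv1, ?_, by omega⟩
        rw [le_iff] at hv2 ⊢
        intro β hβ
        have h3 := hv2 hβ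
        rw [hN] at h3
        rcases h3 with h3 | h3
        · rw [h3] at hβ
          exact absurd hβ hγ
        · exact h3
    · refine ⟨v, hv1, le_trans' M hv2 ?_, by omega⟩
      unfold Le
      have e1 : (w' * M.simple s)⁻¹ * w' = (M.simple s)⁻¹ := by group
      rw [e1, len_inv, len_simple]
      exact h2

end Pool.Agent.H97.BLD
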