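import Pool.Agent.H97.BLD.CenF

/-!
# Project BLD: bounded elements

* `conj_le`: `par_induction` (for `u ∈ W_J` there is `m` such that `len (y⁻¹ u y) ≤ m` for all `y` with
  `len (y⁻¹ t y) ≤ D`, `t ∈ J`): `y⁻¹ (t u) y = (y⁻¹ t y) (y⁻¹ u y)`.
* `bound`: induction on the number of elements of `univ \ J`, for all `D`. Let `y` be as stated; `par_dec`:
  `y = a b`. For `t ∈ J`, `u = a⁻¹ t a ∈ W_J`: `len u ≤ len (u b) - len b ≤ len (b⁻¹ u b) = len (y⁻¹ t y) ≤ D` (`len_par_mul`,
  `len_mul_le`), so `a` is in the finite set `cen_fin M J D`; let `A` bound the lengths of its elements, and `m` the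
  maximum of the `m` of `conj_le` for `u = a⁻¹`, `a` in this set. `len (y⁻¹ b) = len (y⁻¹ a⁻¹ y) ≤ m`. If `b = 1`: `len y ≤ A`.
  Otherwise `b` has a left descent `t'` (`exists_left`), `t' ∉ J`; it is not a left descent of `y`. So `α_{t'} ∈ Nv b \ Nv y`,
  `refl_short`: `len (y⁻¹ t' y) ≤ 2 m`. Use the induction hypothesis for `insert t' J` and `max D (2 m)`. `L` = the maximum
  of `A` and of these bounds for the `t' ∉ J`. (For `J = univ` always `b = 1`.)
-/

set_option autoImplicit false

open Finset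

namespace Pool.Agent.H97.BLD

open Pool.Agent.H4.FC Pool.Agent.H78.RC Pool.Agent.H66.NCL

variable {S : Type} [Fintype S] [DecidableEq S] (M : CoxeterMatrix S)

theorem conj_le (J : Finset S) (D : ℕ) {u : M.Group} (hu : u ∈ par M J) : ∃ m : ℕ, ∀ y : M.Group,
    (∀ t ∈ J, len M (y⁻¹ * M.simple t * y) ≤ D) → len M (y⁻¹ * u * y) ≤ m := by
  refine par_induction M J (p := fun u => ∃ m : ℕ, ∀ y : M.Group,
    (∀ t ∈ J, len M (y⁻¹ * M.simple t * y) ≤ D) → len M (y⁻¹ * u * y) ≤ m) ?_ ?_ u hu
  · refine ⟨0, fun y _ => ?_⟩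
    rw [mul_one, inv_mul_cancel, len_one]
  · rintro t ht w ⟨m, hm⟩
    refine ⟨D + m, fun y hy => ?_⟩
    have h1 : y⁻¹ * (M.simple t * w) * y = (y⁻¹ * M.simple t * y) * (y⁻¹ * w * y) := by group
    rw [h1]
    exact (len_mul_le M _ _).trans (add_le_add (hy t ht) (hm y hy))

theorem bound (J : Finset S) (D : ℕ) : ∃ L : ℕ, ∀ y : M.Group,
    (∀ s, len M (M.simple s * y) + 1 = len M y → s ∈ J) →
    (∀ t ∈ J, len M (y⁻¹ * M.simple t * y) ≤ D) → len M y ≤ L := by
  classical
  induction hk : (univ \ J).card using Nat.strong_induction_on generalizing J D with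
  | _ k ih =>
    obtain ⟨F, hF⟩ : ∃ F : Finset M.Group, ∀ a, a ∈ F ↔
        a ∈ par M J ∧ ∀ t ∈ J, len M (a⁻¹ * M.simple t * a) ≤ D :=
      ⟨(cen_fin M J D).toFinset, fun a => by rw [Set.Finite.mem_toFinset]; rfl⟩
    have hm0 : ∀ a : M.Group, ∃ m : ℕ, a ∈ par M J → ∀ y : M.Group,
        (∀ t ∈ J, len M (y⁻¹ * M.simple t * y) ≤ D) → len M (y⁻¹ * a⁻¹ * y) ≤ m := by
      intro a
      by_cases ha : a ∈ par M J
      · obtain ⟨m, hm⟩ := conj_le M J D (inv_mem ha)
        exact ⟨m, fun _ => hm⟩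
      · exact ⟨0, fun h => absurd h ha⟩
    choose mf hmf using hm0
    have hL0 : ∀ t' : S, ∃ L : ℕ, t' ∉ J → ∀ y : M.Group,
        (∀ s, len M (M.simple s * y) + 1 = len M y → s ∈ insert t' J) →
        (∀ t ∈ insert t' J, len M (y⁻¹ * M.simple t * y) ≤ max D (2 * F.sup mf)) →
        len M y ≤ L := by
      intro t'
      by_cases ht' : t' ∈ J
      · exact ⟨0, fun h => absurd ht' h⟩
      · have hlt : (univ \ insert t' J).card < k := by
          rw [← hk]
          refine card_lt_card ⟨sdiff_subset_sdiff (Subset.refl _) (subset_insert _ _), fun h => ?_⟩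
          have h1 := h (mem_sdiff.2 ⟨mem_univ t', ht'⟩)
          exact (mem_sdiff.1 h1).2 (mem_insert_self _ _)
        obtain ⟨L, hL⟩ := ih _ hlt (insert t' J) (max D (2 * F.sup mf)) rfl
        exact ⟨L, fun _ => hL⟩
    choose Lf hLf using hL0
    refine ⟨F.sup (len M) + ∑ t', Lf t', fun y hd hy => ?_⟩
    obtain ⟨a, ha, b, hyab, hb⟩ := par_dec M J y
    have haF : a ∈ F := by
      refine (hF a).2 ⟨ha, fun t ht => ?_⟩
      have hu : a⁻¹ * M.simple t * a ∈ par M J :=
        mul_mem (mul_mem (inv_mem ha) (simple_mem_par M ht)) ha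
      have h1 := len_par_mul M hu hb
      have h2 : a⁻¹ * M.simple t * a * b = b * (y⁻¹ * M.simple t * y) := by
        rw [hyab]; group
      have h3 := len_mul_le M b (y⁻¹ * M.simple t * y)
      rw [← h2] at h3
      have h4 := hy t ht
      omega
    have h5 : len M (y⁻¹ * b) ≤ F.sup mf := by
      have h6 : y⁻¹ * b = y⁻¹ * a⁻¹ * y := by
        rw [hyab]; group
      rw [h6]
      exact (hmf a ha y hy).trans (le_sup (f := mf) haF)
    by_cases hb1 : b = 1
    · have h7 : y = a := by rw [hyab, hb1, mul_one]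
      rw [h7]
      exact (le_sup (f := len M) haF).trans (Nat.le_add_right _ _)
    · obtain ⟨t', ht'⟩ := exists_left M hb1
      have htJ : t' ∉ J := fun h => by
        have h8 := hb t' h
        omega
      have hup : len M (M.simple t' * y) = len M y + 1 := by
        rcases len_simple_mul M y t' with h9 | h9
        · exact h9
        · exact absurd (hd t' h9) htJ
      have h10 : (Pi.single t' 1 : S → ℝ) ∈ Nv M b :=
        ⟨isRoot_simple M t', single_nonneg t', (len_down_iff' M b t').1 ht'⟩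
      have h11 : (Pi.single t' 1 : S → ℝ) ∉ Nv M y :=
        (not_mem_Nv M (isRoot_simple M t') (single_nonneg t')).2 ((len_up_iff' M y t').1 hup)
      have h12 := refl_short M (T_simple M t') h10 h11
      have h13 : len M y ≤ Lf t' := by
        refine hLf t' htJ y (fun s hs => mem_insert_of_mem (hd s hs)) fun t ht => ?_
        rcases mem_insert.1 ht with h14 | h14
        · rw [h14]
          exact (h12.trans (Nat.mul_le_mul_left 2 h5)).trans (le_max_right _ _)
        · exact (hy t h14).trans (le_max_left _ _)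
      exact h13.trans ((single_le_sum (f := Lf) (fun _ _ => Nat.zero_le _) (mem_univ t')).trans
        (Nat.le_add_left _ _))

end Pool.Agent.H97.BLD
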