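import Pool.Agent.H97.BLD.MinA

/-!
# Project BLD: minimal elements of half-spaces

* `exists_small`: `L` = the maximum over `s` of the bounds of `bound` for `J = {s}`. Given `p`, let `z` be an element of
  minimal length with `Le M z p`, `β ∈ Nv M z`. `z ≠ 1` (`Nv_one`). For every right descent `s` of `z`, `z s ≤ z ≤ p`, so
  `β ∉ Nv (z s)` and `β = -z α_s` (`Nv_down`). So there is exactly one right descent `s` (`z α_s = z α_{s'}` gives `s = s'`).
  `y = z⁻¹`: its left descents are the right descents of `z`; `y⁻¹ s y = z s z⁻¹ = r` (`T_conj`, `T_ext`), `len r ≤ D`.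
-/

set_option autoImplicit false

open Finset

namespace Pool.Agent.H97.BLD

open Pool.Agent.H4.FC Pool.Agent.H78.RC Pool.Agent.H66.NCL

variable {S : Type} [Fintype S] [DecidableEq S] (M : CoxeterMatrix S)

theorem exists_small (D : ℕ) : ∃ L : ℕ, ∀ (r : M.Group) (β : S → ℝ), len M r ≤ D →
    (∀ x, T M r x = x - bf (kR M) β x • β) → ∀ p, β ∈ Nv M p →
      ∃ z, Le M z p ∧ β ∈ Nv M z ∧ len M z ≤ L := by
  classical
  choose L hL using fun s : S => bound M {s} D
  refine ⟨Finset.univ.sup L, fun r β hr hβr p hp => ?_⟩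
  have hex : ∃ n, ∃ z, len M z = n ∧ Le M z p ∧ β ∈ Nv M z :=
    ⟨len M p, p, rfl, by unfold Le; rw [inv_mul_cancel, len_one, Nat.add_zero], hp⟩
  obtain ⟨z, hz1, hz2, hz3⟩ := Nat.find_spec hex
  have hmin : ∀ y, len M y < len M z → Le M y p → β ∉ Nv M y := by
    intro y hy hyp hyβ
    rw [hz1] at hy
    exact Nat.find_min hex hy ⟨y, rfl, hyp, hyβ⟩
  refine ⟨z, hz2, hz3, ?_⟩
  have hdesc : ∀ s, len M (z * M.simple s) + 1 = len M z → β = -T M z (Pi.single s 1) := by
    intro s hs
    have h1 : Le M (z * M.simple s) z := by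
      unfold Le
      rw [mul_inv_rev, mul_assoc, inv_mul_cancel, mul_one, simple_inv, len_simple]
      exact hs
    have h2 := hmin (z * M.simple s) (by omega) (le_trans' M h1 hz2)
    have h3 := (Nv_down M hs).2
    rw [h3] at hz3
    rcases hz3 with h4 | h4
    · exact h4
    · exact absurd h4 h2
  have hne : z ≠ 1 := by
    rintro rfl
    rw [Nv_one] at hz3
    exact hz3
  obtain ⟨s, hs⟩ := exists_right M hne
  have hβ := hdesc s hs
  have hrz : z * M.simple s * z⁻¹ = r := by
    refine T_ext M fun x => ?_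
    rw [T_conj, hβr, hβ]
    have h1 : bf (kR M) (-T M z (Pi.single s 1)) x = -bf (kR M) (T M z (Pi.single s 1)) x := by
      rw [← neg_one_smul ℝ (T M z (Pi.single s 1)), bf_smul_left]
      ring
    rw [h1, neg_smul, smul_neg, neg_neg]
  have h5 := hL s z⁻¹ (fun s' hs' => ?_) (fun t ht => ?_)
  · rw [len_inv] at h5
    exact h5.trans (Finset.le_sup (Finset.mem_univ s))
  · rw [mem_singleton]
    have h6 : len M (z * M.simple s') + 1 = len M z := by
      rw [← len_inv M (z * M.simple s'), mul_inv_rev, simple_inv, hs', len_inv]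
    have h7 := hdesc s' h6
    rw [hβ, neg_inj] at h7
    have h8 := congrArg (T M z⁻¹) h7
    rw [T_inv_T, T_inv_T] at h8
    by_contra h9
    have h10 := congrFun h8 s
    rw [Pi.single_eq_same, Pi.single_eq_of_ne (fun h => h9 h.symm)] at h10
    exact one_ne_zero h10
  · rw [mem_singleton] at ht
    rw [ht, inv_inv, hrz]
    exact hr

end Pool.Agent.H97.BLD
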