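import Pool.Agent.H97.BLD.Kap

/-!
# Project BLD: a positive definite form gives a finite group

Let `bf` be positive definite on `V_J = {x : x i = 0 for i ∉ J}`. Then there is `ρ ∈ V_J` with `bf ρ α_s = 1` for `s ∈ J`
(the linear map `V_J → (J → ℝ)`, `x ↦ (bf x α_s)_s` is injective: if it vanishes then `bf x x = 0`; equal dimensions), and
`κ(w) = ρ - w⁻¹ ρ` for `w ∈ W_J` (`par_induction`, `kap_mul`: `κ (s w) = w⁻¹ α_s + κ w`, `s ρ = ρ - α_s`).
`bf (w⁻¹ ρ) (w⁻¹ ρ) = bf ρ ρ`, and `bf x x ≥ c ∑ x_i²` on `V_J` for a `c > 0` (compactness of the sphere, or equivalence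
of norms in finite dimension); `w⁻¹ ρ ∈ V_J` (`T_par`). So `ht κ(w)` is bounded on `W_J`, so is `len w` (`kap_ht`), and
`len_finite` shows that `W_J` is finite.
-/

set_option autoImplicit false

open Finset

namespace Pool.Agent.H97.BLD

open Pool.Agent.H4.FC Pool.Agent.H78.RC Pool.Agent.H66.NCL

variable {S : Type} [Fintype S] [DecidableEq S] (M : CoxeterMatrix S)

/-- the linear map `x ↦ (bf x α_s)_(s ∈ J), (x s)_(s ∉ J)` -/
private noncomputable def pdFin_map (J : Finset S) : (S → ℝ) →ₗ[ℝ] (S → ℝ) where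
  toFun x s := if s ∈ J then bf (kR M) x (Pi.single s 1) else x s
  map_add' x y := by
    funext s
    by_cases hs : s ∈ J
    · simp only [Pi.add_apply, if_pos hs, bf_add_left]
    · simp only [Pi.add_apply, if_neg hs]
  map_smul' c x := by
    funext s
    by_cases hs : s ∈ J
    · simp only [Pi.smul_apply, if_pos hs, bf_smul_left, smul_eq_mul, RingHom.id_apply]
    · simp only [Pi.smul_apply, if_neg hs, RingHom.id_apply]

private theorem pdFin_bf_eq (x y : S → ℝ) :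
    bf (kR M) x y = ∑ s, y s * bf (kR M) x (Pi.single s 1) := by
  conv_lhs => rw [show y = ∑ s, y s • (Pi.single s 1 : S → ℝ) from by
    funext i
    rw [Finset.sum_apply]
    simp only [Pi.smul_apply, smul_eq_mul, Pi.single_apply, mul_ite, mul_one, mul_zero,
      sum_ite_eq, mem_univ, if_true]]
  rw [bf_sum_right]
  exact sum_congr rfl fun s _ => bf_smul_right _ _ _ _

private theorem pdFin_rho (J : Finset S)
    (h : ∀ x : S → ℝ, (∀ i, i ∉ J → x i = 0) → x ≠ 0 → 0 < bf (kR M) x x) :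
    ∃ ρ : S → ℝ, (∀ i, i ∉ J → ρ i = 0) ∧ ∀ s ∈ J, bf (kR M) ρ (Pi.single s 1) = 1 := by
  have hinj : Function.Injective (pdFin_map M J) := by
    rw [injective_iff_map_eq_zero]
    intro x hx
    by_contra hne
    have h1 : ∀ i, i ∉ J → x i = 0 := by
      intro i hi
      have h2 := congrFun hx i
      have h3 : (if i ∈ J then bf (kR M) x (Pi.single i 1) else x i) = 0 := h2
      rwa [if_neg hi] at h3
    have h2 := h x h1 hne
    rw [pdFin_bf_eq] at h2
    refine absurd h2 (not_lt.2 (le_of_eq ?_))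
    refine sum_eq_zero fun s _ => ?_
    by_cases hs : s ∈ J
    · have h3 : (if s ∈ J then bf (kR M) x (Pi.single s 1) else x s) = 0 := congrFun hx s
      rw [if_pos hs] at h3
      rw [h3, mul_zero]
    · rw [h1 s hs, zero_mul]
  obtain ⟨ρ, hρ⟩ := (LinearMap.injective_iff_surjective.1 hinj) fun s => if s ∈ J then 1 else 0
  refine ⟨ρ, fun i hi => ?_, fun s hs => ?_⟩
  · have h3 : (if i ∈ J then bf (kR M) ρ (Pi.single i 1) else ρ i) = if i ∈ J then 1 else 0 :=
      congrFun hρ i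
    rwa [if_neg hi, if_neg hi] at h3
  · have h3 : (if s ∈ J then bf (kR M) ρ (Pi.single s 1) else ρ s) = if s ∈ J then 1 else 0 :=
      congrFun hρ s
    rwa [if_pos hs, if_pos hs] at h3

private theorem pdFin_kap (J : Finset S) {ρ : S → ℝ}
    (hρ : ∀ s ∈ J, bf (kR M) ρ (Pi.single s 1) = 1) :
    ∀ w ∈ par M J, kap M w = ρ - T M w⁻¹ ρ := by
  refine par_induction M J (p := fun w => kap M w = ρ - T M w⁻¹ ρ) ?_ ?_
  · show kap M 1 = ρ - T M (1 : M.Group)⁻¹ ρ
    rw [kap_one, inv_one, T_one, sub_self]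
  · intro s hs w hw
    show kap M (M.simple s * w) = ρ - T M (M.simple s * w)⁻¹ ρ
    rw [kap_mul, kap_simple, hw, mul_inv_rev, T_mul, simple_inv, T_simple, bf_symm', hρ s hs,
      one_smul, T_sub]
    abel

private theorem pdFin_bound (J : Finset S)
    (h : ∀ x : S → ℝ, (∀ i, i ∉ J → x i = 0) → x ≠ 0 → 0 < bf (kR M) x x) :
    ∃ m : ℝ, 0 < m ∧ ∀ x : S → ℝ, (∀ i, i ∉ J → x i = 0) → m * ‖x‖ ^ 2 ≤ bf (kR M) x x := by
  set K : Set (S → ℝ) := Metric.sphere (0 : S → ℝ) 1 ∩ {x | ∀ i, i ∉ J → x i = 0} with hK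
  have hcl : IsClosed {x : S → ℝ | ∀ i, i ∉ J → x i = 0} := by
    have h1 : {x : S → ℝ | ∀ i, i ∉ J → x i = 0} = ⋂ i, ⋂ (_ : i ∉ J), {x | x i = 0} := by
      ext x
      simp
    rw [h1]
    exact isClosed_iInter fun i => isClosed_iInter fun _ =>
      isClosed_eq (continuous_apply i) continuous_const
  have hKc : IsCompact K := (isCompact_sphere _ _).inter_right hcl
  have hcont : Continuous fun x : S → ℝ => bf (kR M) x x := by
    unfold bf
    fun_prop
  have key : ∃ m : ℝ, 0 < m ∧ ∀ x ∈ K, m ≤ bf (kR M) x x := by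
    rcases K.eq_empty_or_nonempty with he | hne
    · refine ⟨1, one_pos, fun x hx => ?_⟩
      rw [he] at hx
      exact absurd hx (Set.notMem_empty x)
    · obtain ⟨x0, hx0, hmin⟩ := hKc.exists_isMinOn hne hcont.continuousOn
      refine ⟨bf (kR M) x0 x0, h x0 hx0.2 ?_, fun x hx => hmin hx⟩
      intro h0
      have h1 := hx0.1
      rw [h0] at h1
      simp at h1
  obtain ⟨m, hm, hmK⟩ := key
  refine ⟨m, hm, fun x hx => ?_⟩
  by_cases h0 : x = 0
  · rw [h0]
    unfold bf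
    simp
  · have hn : 0 < ‖x‖ := norm_pos_iff.2 h0
    have h1 := hmK (‖x‖⁻¹ • x) ⟨by
      rw [mem_sphere_zero_iff_norm, norm_smul, norm_inv, norm_norm]
      exact inv_mul_cancel₀ hn.ne', fun i hi => by
      rw [Pi.smul_apply, hx i hi, smul_zero]⟩
    rw [bf_smul_left, bf_smul_right] at h1
    have h2 : ‖x‖⁻¹ * (‖x‖⁻¹ * bf (kR M) x x) * ‖x‖ ^ 2 = bf (kR M) x x := by
      field_simp
    rw [← h2]
    exact mul_le_mul_of_nonneg_right h1 (by positivity)

theorem pd_fin (J : Finset S)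
    (h : ∀ x : S → ℝ, (∀ i, i ∉ J → x i = 0) → x ≠ 0 → 0 < bf (kR M) x x) : Sph M J := by
  obtain ⟨ρ, hρ0, hρ1⟩ := pdFin_rho M J h
  obtain ⟨m, hm, hmb⟩ := pdFin_bound M J h
  set B : ℝ := ht ρ + Fintype.card S * Real.sqrt (bf (kR M) ρ ρ / m) with hB
  have hlen : ∀ w ∈ par M J, (len M w : ℝ) ≤ B := by
    intro w hw
    have hw' : w⁻¹ ∈ par M J := inv_mem hw
    have h1 : ∀ i, i ∉ J → T M w⁻¹ ρ i = 0 := fun i hi => by
      rw [T_par M hw' ρ hi, hρ0 i hi]
    have h2 := hmb _ h1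
    rw [bf_T] at h2
    have h3 : ‖T M w⁻¹ ρ‖ ≤ Real.sqrt (bf (kR M) ρ ρ / m) := by
      apply Real.le_sqrt_of_sq_le
      rw [le_div_iff₀ hm, mul_comm]
      exact h2
    have h4 : -ht (T M w⁻¹ ρ) ≤ Fintype.card S * ‖T M w⁻¹ ρ‖ := by
      unfold ht
      rw [← sum_neg_distrib]
      calc ∑ i, -T M w⁻¹ ρ i ≤ ∑ _i : S, ‖T M w⁻¹ ρ‖ :=
            sum_le_sum fun i _ => (neg_le_abs _).trans (norm_le_pi_norm (T M w⁻¹ ρ) i)
        _ = Fintype.card S * ‖T M w⁻¹ ρ‖ := by rw [sum_const, card_univ, nsmul_eq_mul]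
    have h5 := kap_ht M w
    rw [pdFin_kap M J hρ1 w hw] at h5
    have h6 : ht (ρ - T M w⁻¹ ρ) = ht ρ - ht (T M w⁻¹ ρ) := by
      unfold ht
      rw [← sum_sub_distrib]
      rfl
    rw [h6] at h5
    have h7 : (Fintype.card S : ℝ) * ‖T M w⁻¹ ρ‖ ≤
        Fintype.card S * Real.sqrt (bf (kR M) ρ ρ / m) :=
      mul_le_mul_of_nonneg_left h3 (Nat.cast_nonneg _)
    rw [hB]
    linarith
  have hfin : (par M J : Set M.Group).Finite := by
    refine (len_finite M ⌈B⌉₊).subset fun w hw => ?_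
    have h1 : (len M w : ℝ) ≤ ⌈B⌉₊ := (hlen w hw).trans (Nat.le_ceil B)
    exact_mod_cast h1
  exact hfin.to_subtype

end Pool.Agent.H97.BLD
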