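import Pool.Agent.H97.BLD.Wk

/-!
# Project BLD: four quadrants

`β`, `β'` positive roots with reflections `t`, `t'`; all four quadrants are occupied (`1` is in the fourth one).
Every root `γ = c β + c' β'` (`c, c'` real) satisfies: `γ` or `-γ` is in the finite set `F = Nv w ∪ Nv x ∪ Nv y`: if `c, c' ≥ 0`
then `γ ≥ 0` and `w⁻¹ γ ≤ 0`: `γ ∈ Nv w`; both `≤ 0`: `-γ ∈ Nv w`. If `c ≥ 0 ≥ c'`: `x⁻¹ β ≤ 0`, `x⁻¹ β' ≥ 0`, so
`x⁻¹ γ ≤ 0`; if `γ ≥ 0` then `γ ∈ Nv x`; otherwise `-γ ≥ 0` and `y⁻¹ (-γ) = -c y⁻¹ β + (-c') y⁻¹ β' ≤ 0` (`y⁻¹ β ≥ 0`, `y⁻¹ β' ≤ 0`), so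
`-γ ∈ Nv y`. The case `c ≤ 0 ≤ c'` is the same for `-γ`. So there are only finitely many roots in the span of `β`, `β'`, and
`(t t')^k β`, `(t t')^k β'` are such roots for all `k` (`T_mul`, the formulas for `t`, `t'`). By the pigeonhole principle
there are `k < l` with the same pair of roots; so `g = (t t')^(l - k)` fixes `β` and `β'`. `t g t⁻¹ = g⁻¹` (`t² = t'² = 1` by
`T_ext`) and `g` commutes with `t`, as `g t g⁻¹` is the reflection in `g β = β` (`T_ext`: `T (g t g⁻¹) x = x - bf β x • β` by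
`bf_T_left`). So `g = g⁻¹`, `g² = 1`.
-/

set_option autoImplicit false

open Finset

namespace Pool.Agent.H97.BLD

open Pool.Agent.H4.FC Pool.Agent.H78.RC Pool.Agent.H66.NCL

variable {S : Type} [Fintype S] [DecidableEq S] (M : CoxeterMatrix S)

theorem quad_comb {β β' : S → ℝ} (v : M.Group) (c c' : ℝ) (i : S) :
    T M v (c • β + c' • β') i = c * T M v β i + c' * T M v β' i := by
  rw [T_add, T_smul, T_smul, Pi.add_apply, Pi.smul_apply, Pi.smul_apply, smul_eq_mul, smul_eq_mul]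

theorem quad_comb_neg {β β' : S → ℝ} (v : M.Group) (c c' : ℝ) (i : S) :
    T M v (-(c • β + c' • β')) i = -(c * T M v β i + c' * T M v β' i) := by
  rw [T_neg, Pi.neg_apply, quad_comb]

/-- a root in the plane is, up to the sign, in one of three inversion sets -/
theorem quad_mem {β β' : S → ℝ} {w x y : M.Group}
    (h1 : β ∈ Nv M w) (h2 : β' ∈ Nv M w) (h3 : β ∈ Nv M x) (h4 : β' ∉ Nv M x)
    (h5 : β ∉ Nv M y) (h6 : β' ∈ Nv M y) {c c' : ℝ} (hr : IsRoot M (c • β + c' • β')) :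
    (c • β + c' • β') ∈ Nv M w ∪ Nv M x ∪ Nv M y ∨
      -(c • β + c' • β') ∈ Nv M w ∪ Nv M x ∪ Nv M y := by
  obtain ⟨r1, p1, n1⟩ := h1
  obtain ⟨r2, p2, n2⟩ := h2
  obtain ⟨-, -, n3⟩ := h3
  obtain ⟨-, -, n6⟩ := h6
  rw [not_mem_Nv M r2 p2] at h4
  rw [not_mem_Nv M r1 p1] at h5
  have hap : ∀ i, (c • β + c' • β') i = c * β i + c' * β' i := fun i => by
    rw [Pi.add_apply, Pi.smul_apply, Pi.smul_apply, smul_eq_mul, smul_eq_mul]
  have hrn := isRoot_neg M hr
  rcases le_total 0 c with hc | hc <;> rcases le_total 0 c' with hc' | hc'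
  · left; left; left
    refine ⟨hr, fun i => ?_, fun i => ?_⟩
    · rw [hap]
      exact add_nonneg (mul_nonneg hc (p1 i)) (mul_nonneg hc' (p2 i))
    · rw [quad_comb]
      exact add_nonpos (mul_nonpos_of_nonneg_of_nonpos hc (n1 i))
        (mul_nonpos_of_nonneg_of_nonpos hc' (n2 i))
  · rcases root_sign M hr with hs | hs
    · left; left; right
      refine ⟨hr, hs, fun i => ?_⟩
      rw [quad_comb]
      exact add_nonpos (mul_nonpos_of_nonneg_of_nonpos hc (n3 i))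
        (mul_nonpos_of_nonpos_of_nonneg hc' (h4 i))
    · right; right
      refine ⟨hrn, fun i => ?_, fun i => ?_⟩
      · rw [Pi.neg_apply]
        exact neg_nonneg.2 (hs i)
      · rw [quad_comb_neg]
        exact neg_nonpos.2 (add_nonneg (mul_nonneg hc (h5 i)) (mul_nonneg_of_nonpos_of_nonpos hc' (n6 i)))
  · rcases root_sign M hr with hs | hs
    · left; right
      refine ⟨hr, hs, fun i => ?_⟩
      rw [quad_comb]
      exact add_nonpos (mul_nonpos_of_nonpos_of_nonneg hc (h5 i))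
        (mul_nonpos_of_nonneg_of_nonpos hc' (n6 i))
    · right; left; right
      refine ⟨hrn, fun i => ?_, fun i => ?_⟩
      · rw [Pi.neg_apply]
        exact neg_nonneg.2 (hs i)
      · rw [quad_comb_neg]
        exact neg_nonpos.2 (add_nonneg (mul_nonneg_of_nonpos_of_nonpos hc (n3 i)) (mul_nonneg hc' (h4 i)))
  · right; left; left
    refine ⟨hrn, fun i => ?_, fun i => ?_⟩
    · rw [Pi.neg_apply, hap]
      exact neg_nonneg.2 (add_nonpos (mul_nonpos_of_nonpos_of_nonneg hc (p1 i))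
        (mul_nonpos_of_nonpos_of_nonneg hc' (p2 i)))
    · rw [quad_comb_neg]
      exact neg_nonpos.2 (add_nonneg (mul_nonneg_of_nonpos_of_nonpos hc (n1 i))
        (mul_nonneg_of_nonpos_of_nonpos hc' (n2 i)))

/-- the roots in the plane spanned by `β` and `β'` -/
def quadR (β β' : S → ℝ) : Set (S → ℝ) := {γ | IsRoot M γ ∧ ∃ c c' : ℝ, γ = c • β + c' • β'}

theorem quad_finite {β β' : S → ℝ} {w x y : M.Group}
    (h1 : β ∈ Nv M w) (h2 : β' ∈ Nv M w) (h3 : β ∈ Nv M x) (h4 : β' ∉ Nv M x)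
    (h5 : β ∉ Nv M y) (h6 : β' ∈ Nv M y) : (quadR M β β').Finite := by
  have hF : (Nv M w ∪ Nv M x ∪ Nv M y).Finite :=
    ((Nv_finite M w).union (Nv_finite M x)).union (Nv_finite M y)
  refine (hF.union (hF.image fun z => -z)).subset ?_
  rintro γ ⟨hr, c, c', rfl⟩
  rcases quad_mem M h1 h2 h3 h4 h5 h6 hr with h | h
  · exact Or.inl h
  · exact Or.inr ⟨_, h, neg_neg _⟩

theorem quad_T {β β' b : S → ℝ} {t : M.Group} {a a' : ℝ} (hb : b = a • β + a' • β')
    (ht : ∀ z, T M t z = z - bf (kR M) b z • b) {γ : S → ℝ} (h : γ ∈ quadR M β β') :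
    T M t γ ∈ quadR M β β' := by
  obtain ⟨hr, c, c', hγ⟩ := h
  refine ⟨isRoot_T M hr t, c - bf (kR M) b γ * a, c' - bf (kR M) b γ * a', ?_⟩
  rw [ht]
  generalize bf (kR M) b γ = r
  rw [hb, hγ]
  module

theorem quad {β β' : S → ℝ} {t t' w x y : M.Group}
    (ht : ∀ z, T M t z = z - bf (kR M) β z • β) (ht' : ∀ z, T M t' z = z - bf (kR M) β' z • β')
    (h1 : β ∈ Nv M w) (h2 : β' ∈ Nv M w) (h3 : β ∈ Nv M x) (h4 : β' ∉ Nv M x)
    (h5 : β ∉ Nv M y) (h6 : β' ∈ Nv M y) : ∃ k : ℕ, 0 < k ∧ (t * t') ^ k = 1 := by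
  have hfin := quad_finite M h1 h2 h3 h4 h5 h6
  have hβ : β ∈ quadR M β β' := ⟨h1.1, 1, 0, by module⟩
  have hβ' : β' ∈ quadR M β β' := ⟨h2.1, 0, 1, by module⟩
  have hstep : ∀ γ ∈ quadR M β β', T M (t * t') γ ∈ quadR M β β' := by
    intro γ hγ
    rw [T_mul]
    exact quad_T M (a := 1) (a' := 0) (by module) ht
      (quad_T M (a := 0) (a' := 1) (by module) ht' hγ)
  have hpow : ∀ (k : ℕ), ∀ γ ∈ quadR M β β', T M ((t * t') ^ k) γ ∈ quadR M β β' := by
    intro k
    induction k with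
    | zero =>
      intro γ hγ
      rw [pow_zero, T_one]
      exact hγ
    | succ k ih =>
      intro γ hγ
      rw [pow_succ, T_mul]
      exact ih _ (hstep γ hγ)
  -- pigeonhole
  have : Finite (quadR M β β' ×ˢ quadR M β β' : Set ((S → ℝ) × (S → ℝ))) :=
    (hfin.prod hfin).to_subtype
  obtain ⟨k, l, hkl, he⟩ := Finite.exists_ne_map_eq_of_infinite
    (fun k : ℕ => (⟨(T M ((t * t') ^ k) β, T M ((t * t') ^ k) β'),
      ⟨hpow k β hβ, hpow k β' hβ'⟩⟩ : (quadR M β β' ×ˢ quadR M β β' : Set ((S → ℝ) × (S → ℝ)))))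
  have he1 : T M ((t * t') ^ k) β = T M ((t * t') ^ l) β :=
    congrArg (fun z => z.1.1) he
  have he2 : T M ((t * t') ^ k) β' = T M ((t * t') ^ l) β' :=
    congrArg (fun z => z.1.2) he
  -- an element of the form `(t t') ^ m`, `m > 0`, that fixes `β` and `β'`
  have key : ∀ k l : ℕ, k < l → T M ((t * t') ^ k) β = T M ((t * t') ^ l) β →
      ∃ m : ℕ, 0 < m ∧ T M ((t * t') ^ m) β = β := by
    intro k l hkl h
    refine ⟨l - k, by omega, ?_⟩
    have h' : (t * t') ^ l = (t * t') ^ k * (t * t') ^ (l - k) := by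
      rw [← pow_add]; congr 1; omega
    rw [h', T_mul] at h
    have h'' := congrArg (T M ((t * t') ^ k)⁻¹) h
    rw [T_inv_T, T_inv_T] at h''
    exact h''.symm
  obtain ⟨m, hm, hfix⟩ : ∃ m : ℕ, 0 < m ∧ T M ((t * t') ^ m) β = β := by
    rcases lt_or_gt_of_ne hkl with h | h
    · exact key k l h he1
    · exact key l k h he1.symm
  set g := (t * t') ^ m with hg
  have hββ : bf (kR M) β β = 2 := root_norm M h1.1
  have htt : t * t = 1 := by
    refine T_ext M fun z => ?_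
    rw [T_mul, T_one, ht, ht, bf_sub_right, bf_smul_right, hββ]
    module
  have hcomm : g * t = t * g := by
    refine T_ext M fun z => ?_
    rw [T_mul, T_mul, ht, ht, T_sub, T_smul, hfix]
    have : bf (kR M) β (T M g z) = bf (kR M) β z := by
      conv_lhs => rw [← hfix]
      exact bf_T M g β z
    rw [this]
  have hconj : t * g * t⁻¹ = g⁻¹ := by
    rw [hg, ← conj_pow, ← inv_pow]
    congr 1
    have hti : t⁻¹ = t := inv_eq_of_mul_eq_one_right htt
    have htt' : t' * t' = 1 := by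
      refine T_ext M fun z => ?_
      rw [T_mul, T_one, ht', ht', bf_sub_right, bf_smul_right, root_norm M h2.1]
      module
    have hti' : t'⁻¹ = t' := inv_eq_of_mul_eq_one_right htt'
    rw [mul_inv_rev, hti, hti', ← mul_assoc, htt, one_mul]
  have hgg : g * g = 1 := by
    have h7 : t * g * t⁻¹ = g := by rw [← hcomm, mul_assoc, mul_inv_cancel, mul_one]
    rw [h7] at hconj
    nth_rewrite 1 [hconj]
    exact inv_mul_cancel g
  exact ⟨m + m, by omega, by rw [pow_add, ← hg, hgg]⟩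

end Pool.Agent.H97.BLD
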