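import Pool.Agent.H97.BLD.Defs

/-!
# Project BLD: realisable kernels

* `Rz.comp`: the vectors `v (τ g)`.
* `Rz.sum`: choose `ι z`, `v z` for every `z` and let `w g` be the function on `Σ z, ι z` with `w g ⟨z, i⟩ = a z g * v z g i`
  (finitely supported: only the finitely many `z` with `a z g ≠ 0` contribute; e.g. `∑ z ∈ (hf g).toFinset,
  a z g • Finsupp.mapDomain (Sigma.mk z) (v z g)`). `ip (w g) (w h) = ∑ᶠ z, a z g * a z h * ip (v z g) (v z h)` (`ip_sum_left`,
  `ip_sum_right`, `ip_smul_left`; `Ops_ip_mapDomain` in `H66/NCL/Ops.lean` or a direct proof).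
* `Rz.add`: `Rz.sum` with `Z = ULift Bool`, or directly with `ι ⊕ ι'`.
* `Rz.le_one`: `ip_le_one`.
-/

set_option autoImplicit false

open Finset

namespace Pool.Agent.H97.BLD

open Pool.Agent.H66.NCL

universe u

variable {G : Type u} {b : Prop}

private theorem rzl_ip_mapDomain {ι κ : Type u} {f : ι → κ} (hf : Function.Injective f)
    (a b : ι →₀ ℝ) : ip (a.mapDomain f) (b.mapDomain f) = ip a b := by
  unfold ip
  rw [Finsupp.sum_mapDomain_index_inj hf]
  refine Finsupp.sum_congr fun i _ => ?_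
  rw [Finsupp.mapDomain_apply hf]

private theorem rzl_ip_disj {ι ι' κ : Type u} {f : ι → κ} {f' : ι' → κ} (hf : Function.Injective f)
    (h : ∀ i j, f i ≠ f' j) (a : ι →₀ ℝ) (b : ι' →₀ ℝ) :
    ip (a.mapDomain f) (b.mapDomain f') = 0 := by
  unfold ip
  rw [Finsupp.sum_mapDomain_index_inj hf]
  refine Finset.sum_eq_zero fun i _ => ?_
  show a i * (b.mapDomain f') (f i) = 0
  rw [Finsupp.mapDomain_of_notMem_range, mul_zero]
  rintro ⟨j, hj⟩
  exact h i j hj.symm

private theorem rzl_nonneg {ι κ : Type u} {f : ι → κ} (hf : Function.Injective f)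
    {a : ι →₀ ℝ} (ha : ∀ i, 0 ≤ a i) (k : κ) : 0 ≤ a.mapDomain f k := by
  by_cases hk : k ∈ Set.range f
  · obtain ⟨i, rfl⟩ := hk
    rw [Finsupp.mapDomain_apply hf]
    exact ha i
  · rw [Finsupp.mapDomain_of_notMem_range _ _ hk]

theorem Rz.comp {k : G → G → ℝ} (h : Rz b k) (τ : G → G) : Rz b (fun g g' => k (τ g) (τ g')) := by
  obtain ⟨ι, v, hb, hv⟩ := h
  exact ⟨ι, fun g => v (τ g), fun h0 g i => hb h0 (τ g) i, fun g g' => hv (τ g) (τ g')⟩

theorem Rz.sum {Z : Type u} (a : Z → G → ℝ) (k : Z → G → G → ℝ) (ha : ∀ z g, 0 ≤ a z g)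
    (hf : ∀ g, {z | a z g ≠ 0}.Finite) (hk : ∀ z, Rz b (k z)) :
    Rz b (fun g h => ∑ᶠ z, a z g * a z h * k z g h) := by
  classical
  choose ι v hb hv using hk
  have hinj : ∀ z, Function.Injective (fun i : ι z => (⟨z, i⟩ : Σ z, ι z)) := by
    intro z i j hij
    exact eq_of_heq (Sigma.mk.inj hij).2
  refine ⟨Σ z, ι z, fun g => ∑ z ∈ (hf g).toFinset,
    a z g • (v z g).mapDomain (fun i : ι z => (⟨z, i⟩ : Σ z, ι z)), ?_, ?_⟩
  · intro h0 g i
    rw [Finsupp.finset_sum_apply]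
    refine Finset.sum_nonneg fun z _ => ?_
    rw [Finsupp.smul_apply, smul_eq_mul]
    exact mul_nonneg (ha z g) (rzl_nonneg (hinj z) (hb z h0 g) i)
  · intro g h
    rw [ip_sum_left]
    have h1 : (fun z => a z g * a z h * k z g h).support ⊆ ((hf g).toFinset : Set Z) := by
      intro z hz
      rw [Function.mem_support] at hz
      rw [Finset.mem_coe, Set.Finite.mem_toFinset]
      intro h0
      apply hz
      rw [h0, zero_mul, zero_mul]
    show (∑ᶠ z, a z g * a z h * k z g h) = _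
    rw [finsum_eq_sum_of_support_subset _ h1]
    refine Finset.sum_congr rfl fun z _ => ?_
    show _ = ip _ (∑ z' ∈ (hf h).toFinset,
      a z' h • (v z' h).mapDomain (fun i : ι z' => (⟨z', i⟩ : Σ z, ι z)))
    rw [ip_smul_left, ip_sum_right, mul_assoc]
    congr 1
    have h2 : ∀ z' ∈ (hf h).toFinset, z' ≠ z →
        ip ((v z g).mapDomain (fun i : ι z => (⟨z, i⟩ : Σ z, ι z)))
          (a z' h • (v z' h).mapDomain (fun i : ι z' => (⟨z', i⟩ : Σ z, ι z))) = 0 := by
      intro z' _ hne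
      rw [ip_smul_right, rzl_ip_disj (hinj z), mul_zero]
      intro i j hij
      exact hne (Sigma.mk.inj hij).1.symm
    have h3 : z ∉ (hf h).toFinset →
        ip ((v z g).mapDomain (fun i : ι z => (⟨z, i⟩ : Σ z, ι z)))
          (a z h • (v z h).mapDomain (fun i : ι z => (⟨z, i⟩ : Σ z, ι z))) = 0 := by
      intro hz
      rw [Set.Finite.mem_toFinset, Set.mem_setOf_eq, not_not] at hz
      rw [ip_smul_right, hz, zero_mul]
    rw [Finset.sum_eq_single z h2 h3, ip_smul_right, rzl_ip_mapDomain (hinj z), hv z g h]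

theorem Rz.add {k k' : G → G → ℝ} (h : Rz b k) (h' : Rz b k') (a a' : G → ℝ) (ha : ∀ g, 0 ≤ a g)
    (ha' : ∀ g, 0 ≤ a' g) :
    Rz b (fun g h => a g * a h * k g h + a' g * a' h * k' g h) := by
  obtain ⟨ι, v, hb, hv⟩ := h
  obtain ⟨ι', v', hb', hv'⟩ := h'
  have hl : Function.Injective (Sum.inl : ι → ι ⊕ ι') := Sum.inl_injective
  have hr : Function.Injective (Sum.inr : ι' → ι ⊕ ι') := Sum.inr_injective
  refine ⟨ι ⊕ ι', fun g => a g • (v g).mapDomain Sum.inl + a' g • (v' g).mapDomain Sum.inr,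
    ?_, ?_⟩
  · intro h0 g i
    rw [Finsupp.add_apply, Finsupp.smul_apply, Finsupp.smul_apply, smul_eq_mul, smul_eq_mul]
    exact add_nonneg (mul_nonneg (ha g) (rzl_nonneg hl (hb h0 g) i))
      (mul_nonneg (ha' g) (rzl_nonneg hr (hb' h0 g) i))
  · intro g g'
    show a g * a g' * k g g' + a' g * a' g' * k' g g' = _
    rw [ip_add_left, ip_add_right, ip_add_right, ip_smul_left, ip_smul_left, ip_smul_left,
      ip_smul_left, ip_smul_right, ip_smul_right, ip_smul_right, ip_smul_right,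
      rzl_ip_mapDomain hl, rzl_ip_mapDomain hr, rzl_ip_disj hl (fun i j => Sum.inl_ne_inr),
      rzl_ip_disj hr (fun i j => Sum.inr_ne_inl), hv g g', hv' g g']
    ring

end Pool.Agent.H97.BLD
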