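import Pool.Agent.H97.BLD.Defs

/-!
# Project BLD: passing to and from subgroups
-/

set_option autoImplicit false

open Finset

namespace Pool.Agent.H97.BLD

open Pool.Agent.H66.NCL

universe u

variable {G : Type u} [Group G] {b : Prop} {θ : ℝ}

theorem Det.restrict (K : Subgroup G) {Y : Set G} (h : Det b θ Y) :
    Det b θ {k : K | (k : G) ∈ Y} := by
  classical
  intro E ε hε
  obtain ⟨k, F, ⟨ι, v, hv, hk⟩, h1, h2, h3⟩ := h (E.image Subtype.val) ε hε
  refine ⟨fun g g' => k g g', F.preimage Subtype.val Subtype.val_injective.injOn,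
    ⟨ι, fun g => v g, fun hb g i => hv hb g i, fun g g' => hk g g'⟩, fun g hg => h1 g hg,
    fun g hg e he hge => ?_, fun g hg x hx hgx => ?_⟩
  · exact h2 g hg e (mem_image_of_mem _ he) hge
  · exact h3 g hg x (fun hc => hx (Finset.mem_preimage.2 hc)) hgx

theorem Det.extend (K : Subgroup G) {Y : Set K} (h : Det b θ Y) :
    Det b θ (Subtype.val '' Y : Set G) := by
  classical
  intro E ε hε
  obtain ⟨k, F, ⟨ι, v, hv, hk⟩, h1, h2, h3⟩ :=
    h (E.preimage Subtype.val Subtype.val_injective.injOn) ε hε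
  obtain ⟨u, hu⟩ : ∃ u : G → ι →₀ ℝ, u = fun g => if hg : g ∈ K then v ⟨g, hg⟩ else 0 := ⟨_, rfl⟩
  have hu1 : ∀ g : K, u g = v g := by
    intro g
    rw [hu]
    simp only [SetLike.coe_mem, dite_true]
  refine ⟨fun g g' => ip (u g) (u g'), F.image Subtype.val, ⟨ι, u, fun hb g i => ?_, fun g g' => rfl⟩,
    ?_, ?_, ?_⟩
  · rw [hu]
    by_cases hg : g ∈ K
    · simp only [hg, dite_true]
      exact hv hb _ _
    · simp only [hg, dite_false, Finsupp.coe_zero, Pi.zero_apply, le_refl]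
  · rintro _ ⟨g, hg, rfl⟩
    simp only [hu1, ← hk]
    exact h1 g hg
  · rintro _ ⟨g, hg, rfl⟩ e he ⟨g', hg', hge⟩
    have heK : e ∈ K := by
      have : e = (g : G)⁻¹ * g' := by rw [hge, inv_mul_cancel_left]
      rw [this]
      exact K.mul_mem (K.inv_mem g.2) g'.2
    have h4 : g' = g * ⟨e, heK⟩ := Subtype.ext hge
    have h5 : (g : G) * e = ((g * ⟨e, heK⟩ : K) : G) := rfl
    rw [h5]
    simp only [hu1, ← hk]
    refine h2 g hg ⟨e, heK⟩ (Finset.mem_preimage.2 he) ?_
    rw [← h4]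
    exact hg'
  · rintro _ ⟨g, hg, rfl⟩ x hx ⟨g', hg', hgx⟩
    have hxK : x ∈ K := by
      have : x = (g : G)⁻¹ * g' := by rw [hgx, inv_mul_cancel_left]
      rw [this]
      exact K.mul_mem (K.inv_mem g.2) g'.2
    have h4 : g' = g * ⟨x, hxK⟩ := Subtype.ext hgx
    have h5 : (g : G) * x = ((g * ⟨x, hxK⟩ : K) : G) := rfl
    rw [h5]
    simp only [hu1, ← hk]
    refine h3 g hg ⟨x, hxK⟩ (fun hc => hx ?_) ?_
    · exact Finset.mem_image.2 ⟨_, hc, rfl⟩
    · rw [← h4]
      exact hg'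

theorem Det.subgroup (K : Subgroup G) (h : Det b θ (Set.univ : Set K)) : Det b θ (K : Set G) := by
  have h1 := Det.extend K h
  rwa [Set.image_univ, Subtype.range_coe_subtype] at h1

end Pool.Agent.H97.BLD
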