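import Pool.Agent.H97.BLD.Main
import Pool.Agent.H97.BLD.Sub

/-!
# Project BLD: two buildings
-/

set_option autoImplicit false

open Finset

namespace Pool.Agent.H97.BLD

open Pool.Agent.H4.FC Pool.Agent.H78.RC Pool.Agent.H66.NCL

open scoped Pointwise

universe u v

/-- the stabilizer of a residue -/
def stab {S : Type} {M : CoxeterMatrix S} {Δ : Type v} {δ : Δ → Δ → M.Group} {G : Type u}
    [Group G] [MulAction G Δ] (h : IsBuilding M δ)
    (hG : ∀ (g : G) (c d : Δ), δ (g • c) (g • d) = δ c d) (J : Finset S) (c : Δ) :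
    Subgroup G where
  carrier := {g | δ c (g • c) ∈ par M J}
  one_mem' := by
    show δ c ((1 : G) • c) ∈ par M J
    rw [one_smul, h.self]
    exact one_mem _
  mul_mem' := by
    intro g g' hg hg'
    have h1 : δ (g • c) ((g * g') • c) ∈ par M J := by
      rw [mul_smul, hG]
      exact hg'
    exact h.par_trans hg h1
  inv_mem' := by
    intro g hg
    have h1 : δ c (g⁻¹ • c) = (δ c (g • c))⁻¹ := by
      rw [← h.symm, ← hG g c (g⁻¹ • c), smul_inv_smul]
    show δ c (g⁻¹ • c) ∈ par M J
    rw [h1]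
    exact inv_mem hg

theorem mem_stabilizer {S : Type} {M : CoxeterMatrix S} {Δ : Type v} {δ : Δ → Δ → M.Group}
    {G : Type u} [Group G] [MulAction G Δ] (h : IsBuilding M δ)
    (hG : ∀ (g : G) (c d : Δ), δ (g • c) (g • d) = δ c d) (J : Finset S) (c : Δ) (g : G) :
    g ∈ MulAction.stabilizer G (residue M δ J c) ↔ δ c (g • c) ∈ par M J := by
  rw [MulAction.mem_stabilizer_iff]
  constructor
  · intro h1
    have h2 : g • c ∈ g • residue M δ J c := by
      refine Set.smul_mem_smul_set ?_
      show δ c c ∈ par M J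
      rw [h.self]
      exact one_mem _
    rw [h1] at h2
    exact h2
  · intro h1
    have key : ∀ g : G, δ c (g • c) ∈ par M J → ∀ d, δ c d ∈ par M J → δ c (g • d) ∈ par M J := by
      intro g hg d hd
      refine h.par_trans hg ?_
      rw [hG]
      exact hd
    have h2 : δ c (g⁻¹ • c) ∈ par M J := by
      have : δ c (g⁻¹ • c) = (δ c (g • c))⁻¹ := by
        rw [← h.symm, ← hG g c (g⁻¹ • c), smul_inv_smul]
      rw [this]
      exact inv_mem h1
    ext d
    rw [Set.mem_smul_set_iff_inv_smul_mem]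
    constructor
    · intro hd
      have := key g h1 (g⁻¹ • d) hd
      rwa [smul_inv_smul] at this
    · intro hd
      exact key g⁻¹ h2 d hd

theorem two {S S' : Type} [Finite S] [Finite S'] {M : CoxeterMatrix S} {M' : CoxeterMatrix S'}
    {Δ Δ' : Type u} [Nonempty Δ] [Nonempty Δ'] {δ : Δ → Δ → M.Group} {δ' : Δ' → Δ' → M'.Group}
    (h : IsBuilding M δ) (h' : IsBuilding M' δ') {G : Type u} [Group G] [MulAction G Δ]
    [MulAction G Δ'] (hG : ∀ (g : G) (c d : Δ), δ (g • c) (g • d) = δ c d)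
    (hG' : ∀ (g : G) (c d : Δ'), δ' (g • c) (g • d) = δ' c d) {b : Prop} {θ : ℝ} (hθ : 0 ≤ θ)
    (hs : ∀ (J : Finset S) (c : Δ) (J' : Finset S') (c' : Δ'), Sph M J → Sph M' J' →
      Det b θ {g : G | δ c (g • c) ∈ par M J ∧ δ' c' (g • c') ∈ par M' J'}) :
    Det b θ (Set.univ : Set G) := by
  classical
  haveI := Fintype.ofFinite S
  haveI := Fintype.ofFinite S'
  refine main (Det.good hθ) h hG fun J hJ c => ?_
  have h1 : Det b θ (Set.univ : Set (stab h hG J c)) := by
    refine main (Det.good hθ) h' (fun g c d => hG' g c d) fun J' hJ' c' => ?_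
    refine Det.mono ?_ (Det.restrict (stab h hG J c) (hs J c J' c' hJ hJ'))
    intro k hk
    exact ⟨k.2, hk⟩
  exact Det.subgroup _ h1

end Pool.Agent.H97.BLD
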