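import Pool.Agent.H97.BLD.Act

/-!
# Project BLD: the weak order and inversion sets, first part

`Nv M w` = positive roots `β` with `w⁻¹ β < 0`. Signs of roots: `root_sign`, `root_not_neg`, `simple_pos`;
`len_up_iff`, `len_down_iff` (and `'` versions) translate lengths into signs; all in `Act`.

* `not_mem_Nv`: `root_sign`, `root_not_neg`.
* `Nv_up`: let `β ∈ Nv (w s)`, `β ≠ w α_s`. Then `γ = w⁻¹ β` is a root, `≠ α_s`, and `s γ = (w s)⁻¹ β ≤ 0`. If
  `γ ≥ 0` then `s γ ≥ 0` by `simple_pos`: contradiction to `root_not_neg`. So `β ∈ Nv w`. The other inclusion is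
  the same argument for `-γ`.
* `Nv_down`: `Nv_up` for `w s` instead of `w` (`w s s = w`, `T (w s) α_s = -T w α_s`).
* `Nv_finite`, `Nv_ncard`: induction on the length (`exists_right`).
* `len_inv_mul`: the map `β ↦ ± w β` (the sign that makes it positive) is a bijection from `Nv (w⁻¹ w')` to
  `(Nv w' \ Nv w) ∪ (Nv w \ Nv w')`: if `w β > 0` then `w β ∈ Nv w' \ Nv w`, else `-w β ∈ Nv w \ Nv w'`.
* `le_iff`: `len (v⁻¹ w) = |Nv v \ Nv w| + |Nv w \ Nv v|`, `len w - len v = |Nv w \ Nv v| - |Nv v \ Nv w|`.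
-/

set_option autoImplicit false

open Finset

namespace Pool.Agent.H97.BLD

open Pool.Agent.H4.FC Pool.Agent.H78.RC Pool.Agent.H66.NCL

variable {S : Type} [Fintype S] [DecidableEq S] (M : CoxeterMatrix S)

theorem not_mem_Nv {w : M.Group} {β : S → ℝ} (h : IsRoot M β) (h0 : ∀ i, 0 ≤ β i) :
    β ∉ Nv M w ↔ ∀ i, 0 ≤ T M w⁻¹ β i := by
  constructor
  · intro h1
    rcases root_sign M (isRoot_T M h w⁻¹) with h2 | h2
    · exact h2
    · exact absurd ⟨h, h0, h2⟩ h1
  · intro h1 h2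
    exact root_not_neg M (isRoot_T M h w⁻¹) h1 h2.2.2

theorem Nv_one : Nv M 1 = ∅ := by
  ext β
  simp only [Set.mem_empty_iff_false, iff_false]
  intro h
  have h1 := h.2.2
  rw [inv_one] at h1
  simp only [T_one] at h1
  exact root_not_neg M h.1 h.2.1 h1

theorem Nv_up {w : M.Group} {s : S} (h : len M (w * M.simple s) = len M w + 1) :
    T M w (Pi.single s 1) ∉ Nv M w ∧
      Nv M (w * M.simple s) = insert (T M w (Pi.single s 1)) (Nv M w) := by
  have hpos := (len_up_iff M w s).1 h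
  have hroot : IsRoot M (T M w (Pi.single s 1)) := ⟨w, s, rfl⟩
  have h1 : T M w (Pi.single s 1) ∉ Nv M w := by
    rw [not_mem_Nv M hroot hpos]
    intro i
    rw [T_inv_T]
    exact single_nonneg s i
  refine ⟨h1, ?_⟩
  have hinv : ∀ β, T M (w * M.simple s)⁻¹ β = T M (M.simple s) (T M w⁻¹ β) := by
    intro β
    rw [mul_inv_rev, simple_inv, T_mul]
  ext β
  rw [Set.mem_insert_iff]
  constructor
  · rintro ⟨hβ, hβ0, hβ1⟩
    by_cases he : β = T M w (Pi.single s 1)
    · exact Or.inl he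
    · right
      by_contra hc
      have h2 := (not_mem_Nv M hβ hβ0).1 hc
      have h3 : T M w⁻¹ β ≠ Pi.single s 1 := by
        intro h4
        apply he
        rw [← h4, T_T_inv]
      have h5 := simple_pos M (isRoot_T M hβ w⁻¹) h2 h3
      rw [← hinv] at h5
      exact root_not_neg M (isRoot_T M hβ _) h5 hβ1
  · rintro (rfl | ⟨hβ, hβ0, hβ1⟩)
    · refine ⟨hroot, hpos, fun i => ?_⟩
      rw [hinv, T_inv_T, T_simple_self, Pi.neg_apply]
      exact neg_nonpos.2 (single_nonneg s i)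
    · refine ⟨hβ, hβ0, fun i => ?_⟩
      have h2 : IsRoot M (-T M w⁻¹ β) := isRoot_neg M (isRoot_T M hβ w⁻¹)
      have h3 : ∀ i, 0 ≤ (-T M w⁻¹ β) i := fun i => by
        rw [Pi.neg_apply]
        exact neg_nonneg.2 (hβ1 i)
      have h4 : -T M w⁻¹ β ≠ Pi.single s 1 := by
        intro h5
        have h6 : β = -T M w (Pi.single s 1) := by
          rw [← h5, T_neg, T_T_inv, neg_neg]
        refine root_not_neg M hβ hβ0 fun i => ?_
        rw [h6, Pi.neg_apply]
        exact neg_nonpos.2 (hpos i)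
      have h5 := simple_pos M h2 h3 h4 i
      rw [T_neg, Pi.neg_apply] at h5
      rw [hinv]
      linarith

theorem Nv_down {w : M.Group} {s : S} (h : len M (w * M.simple s) + 1 = len M w) :
    -T M w (Pi.single s 1) ∉ Nv M (w * M.simple s) ∧
      Nv M w = insert (-T M w (Pi.single s 1)) (Nv M (w * M.simple s)) := by
  have e : w * M.simple s * M.simple s = w := by rw [mul_assoc, simple_sq, mul_one]
  have h1 : len M (w * M.simple s * M.simple s) = len M (w * M.simple s) + 1 := by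
    rw [e, h]
  have h2 := Nv_up M h1
  have h3 : T M (w * M.simple s) (Pi.single s 1) = -T M w (Pi.single s 1) := by
    rw [T_mul, T_simple_self, T_neg]
  rw [e, h3] at h2
  exact h2

private theorem wkA_ind {p : M.Group → Prop} (h1 : p 1)
    (h2 : ∀ w s, len M (w * M.simple s) + 1 = len M w → p (w * M.simple s) → p w) :
    ∀ w, p w := by
  intro w
  obtain ⟨n, hn⟩ : ∃ n, n = len M w := ⟨_, rfl⟩
  induction n generalizing w with
  | zero => rwa [(len_eq_zero M).1 hn.symm]
  | succ n ih =>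
    have hw : w ≠ 1 := by
      rintro rfl
      rw [len_one] at hn
      omega
    obtain ⟨s, hs⟩ := exists_right M hw
    exact h2 w s hs (ih _ (by omega))

theorem Nv_finite (w : M.Group) : (Nv M w).Finite := by
  refine wkA_ind M (p := fun w => (Nv M w).Finite) ?_ ?_ w
  · rw [Nv_one]
    exact Set.finite_empty
  · intro w s h1 h2
    rw [(Nv_down M h1).2]
    exact h2.insert _

theorem Nv_ncard (w : M.Group) : (Nv M w).ncard = len M w := by
  refine wkA_ind M (p := fun w => (Nv M w).ncard = len M w) ?_ ?_ w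
  · rw [Nv_one, Set.ncard_empty, len_one]
  · intro w s h1 h2
    rw [(Nv_down M h1).2, Set.ncard_insert_of_notMem (Nv_down M h1).1 (Nv_finite M _), h2, h1]

theorem len_inv_mul (w w' : M.Group) :
    len M (w⁻¹ * w') = (Nv M w \ Nv M w').ncard + (Nv M w' \ Nv M w).ncard := by
  classical
  -- sets
  have hinv : ∀ β, T M (w⁻¹ * w')⁻¹ β = T M w'⁻¹ (T M w β) := by
    intro β
    rw [mul_inv_rev, inv_inv, T_mul]
  obtain ⟨A, hA⟩ : ∃ A : Set (S → ℝ), A = {β | β ∈ Nv M (w⁻¹ * w') ∧ ∀ i, 0 ≤ T M w β i} := ⟨_, rfl⟩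
  obtain ⟨B, hB⟩ : ∃ B : Set (S → ℝ), B = {β | β ∈ Nv M (w⁻¹ * w') ∧ ∀ i, T M w β i ≤ 0} := ⟨_, rfl⟩
  have hAB : Nv M (w⁻¹ * w') = A ∪ B := by
    rw [hA, hB]
    ext β
    simp only [Set.mem_union, Set.mem_setOf_eq]
    constructor
    · intro h
      rcases root_sign M (isRoot_T M h.1 w) with h1 | h1
      · exact Or.inl ⟨h, h1⟩
      · exact Or.inr ⟨h, h1⟩
    · rintro (h | h)
      · exact h.1
      · exact h.1
  have hd : Disjoint A B := by
    rw [Set.disjoint_left]
    intro β h1 h2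
    rw [hA] at h1
    rw [hB] at h2
    exact root_not_neg M (isRoot_T M h1.1.1 w) h1.2 h2.2
  have hAf : A.Finite := (Nv_finite M (w⁻¹ * w')).subset (by rw [hAB]; exact Set.subset_union_left)
  have hBf : B.Finite := (Nv_finite M (w⁻¹ * w')).subset (by rw [hAB]; exact Set.subset_union_right)
  have hcard : (Nv M (w⁻¹ * w')).ncard = A.ncard + B.ncard := by
    rw [hAB, Set.ncard_union_eq hd hAf hBf]
  have hinj : Function.Injective (T M w) := by
    intro x y hxy
    rw [← T_inv_T M w x, hxy, T_inv_T]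
  have hA' : T M w '' A = Nv M w' \ Nv M w := by
    ext γ
    constructor
    · rintro ⟨β, h1, rfl⟩
      rw [hA] at h1
      obtain ⟨⟨h2, h3, h4⟩, h5⟩ := h1
      refine ⟨⟨isRoot_T M h2 w, h5, ?_⟩, ?_⟩
      · intro i
        rw [← hinv]
        exact h4 i
      · rw [not_mem_Nv M (isRoot_T M h2 w) h5]
        intro i
        rw [T_inv_T]
        exact h3 i
    · rintro ⟨⟨h2, h3, h4⟩, h5⟩
      rw [not_mem_Nv M h2 h3] at h5
      refine ⟨T M w⁻¹ γ, ?_, T_T_inv M w γ⟩
      rw [hA]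
      refine ⟨⟨isRoot_T M h2 w⁻¹, h5, ?_⟩, ?_⟩
      · intro i
        rw [hinv, T_T_inv]
        exact h4 i
      · intro i
        rw [T_T_inv]
        exact h3 i
  have hB' : (fun β => -T M w β) '' B = Nv M w \ Nv M w' := by
    ext γ
    constructor
    · rintro ⟨β, h1, rfl⟩
      rw [hB] at h1
      obtain ⟨⟨h2, h3, h4⟩, h5⟩ := h1
      have h6 : IsRoot M (-T M w β) := isRoot_neg M (isRoot_T M h2 w)
      have h7 : ∀ i, 0 ≤ (-T M w β) i := fun i => by
        rw [Pi.neg_apply]; exact neg_nonneg.2 (h5 i)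
      refine ⟨⟨h6, h7, ?_⟩, ?_⟩
      · intro i
        rw [T_neg, T_inv_T, Pi.neg_apply]
        exact neg_nonpos.2 (h3 i)
      · rw [not_mem_Nv M h6 h7]
        intro i
        rw [T_neg, ← hinv, Pi.neg_apply]
        exact neg_nonneg.2 (h4 i)
    · rintro ⟨⟨h2, h3, h4⟩, h5⟩
      rw [not_mem_Nv M h2 h3] at h5
      refine ⟨-T M w⁻¹ γ, ?_, ?_⟩
      · rw [hB]
        refine ⟨⟨isRoot_neg M (isRoot_T M h2 w⁻¹), fun i => ?_, fun i => ?_⟩, fun i => ?_⟩
        · rw [Pi.neg_apply]; exact neg_nonneg.2 (h4 i)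
        · rw [hinv, T_neg, T_T_inv, T_neg, Pi.neg_apply]
          exact neg_nonpos.2 (h5 i)
        · rw [T_neg, T_T_inv, Pi.neg_apply]
          exact neg_nonpos.2 (h3 i)
      · show -T M w (-T M w⁻¹ γ) = γ
        rw [T_neg, T_T_inv, neg_neg]
  rw [← Nv_ncard, hcard, ← hA', ← hB', Set.ncard_image_of_injective A hinj,
    Set.ncard_image_of_injective B (f := fun β => -T M w β) (fun x y hxy => hinj (neg_injective hxy)),
    add_comm]

theorem le_iff {v w : M.Group} : Le M v w ↔ Nv M v ⊆ Nv M w := by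
  have h1 := len_inv_mul M v w
  have h2 := Set.ncard_inter_add_ncard_diff_eq_ncard (Nv M v) (Nv M w) (Nv_finite M v)
  have h3 := Set.ncard_inter_add_ncard_diff_eq_ncard (Nv M w) (Nv M v) (Nv_finite M w)
  rw [Nv_ncard] at h2 h3
  rw [Set.inter_comm] at h3
  have h4 : (Nv M v \ Nv M w).Finite := (Nv_finite M v).subset Set.diff_subset
  unfold Le
  constructor
  · intro h
    have h5 : (Nv M v \ Nv M w).ncard = 0 := by omega
    rw [Set.ncard_eq_zero h4] at h5
    exact Set.diff_eq_empty.1 h5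
  · intro h
    have h5 : (Nv M v \ Nv M w).ncard = 0 := by
      rw [Set.diff_eq_empty.2 h, Set.ncard_empty]
    omega

theorem le_trans' {u v w : M.Group} (h1 : Le M u v) (h2 : Le M v w) : Le M u w := by
  rw [le_iff] at h1 h2 ⊢
  exact h1.trans h2

end Pool.Agent.H97.BLD
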